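import Mathlib
import Pool.Agent.Y298.CE.Tree
import Pool.Agent.Y298.SH.Trans2

/-!
# Estimates for a branch which hits the critical value (all degrees)
-/

set_option autoImplicit false

open Set Filter Metric MeasureTheory

namespace Pool.Agent.Y298.SH.CD

open Pool.Agent.TH279.MD Pool.Agent.Y298.SH
open Pool.Agent.Y298.SH.CE (MG RR)
open Pool.Agent.W746.LD (Univ KC exists_KC)

/-- The orbit of the critical value. -/
def zz (d : ℕ) (c : ℂ) (k : ℕ) : ℂ := (f d c)^[k] c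

/-- The derivatives along the orbit of the critical value. -/
noncomputable def Pd (d : ℕ) (c : ℂ) (k : ℕ) : ℝ := ‖deriv ((f d c)^[k]) c‖

variable {d : ℕ}

theorem zz_zero (d : ℕ) (c : ℂ) : zz d c 0 = c := rfl

theorem zz_succ (d : ℕ) (c : ℂ) (k : ℕ) : zz d c (k + 1) = zz d c k ^ d + c := by
  unfold zz
  rw [Function.iterate_succ_apply']
  rfl

theorem zz_add (d : ℕ) (c : ℂ) (m k : ℕ) : (f d c)^[m] (zz d c k) = zz d c (m + k) := by
  unfold zz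
  rw [Function.iterate_add_apply]

theorem Pd_zero (d : ℕ) (c : ℂ) : Pd d c 0 = 1 := by simp [Pd]

theorem Pd_nonneg (d : ℕ) (c : ℂ) (k : ℕ) : 0 ≤ Pd d c k := norm_nonneg _

theorem Pd_succ (d : ℕ) (c : ℂ) (k : ℕ) :
    Pd d c (k + 1) = d * ‖zz d c k‖ ^ (d - 1) * Pd d c k := by
  unfold Pd zz
  rw [add_comm, deriv_iter_add, Function.iterate_one, deriv_f, norm_mul, norm_mul, norm_pow,
    Complex.norm_natCast]

theorem Pd_add (d : ℕ) (c : ℂ) (m k : ℕ) :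
    Pd d c (m + k) = ‖deriv ((f d c)^[m]) (zz d c k)‖ * Pd d c k := by
  unfold Pd zz
  rw [deriv_iter_add, norm_mul]

/-- derivative of a branch -/
theorem branch_deriv {c w : ℂ} {R : ℝ} {k : ℕ} {g : ℂ → ℂ}
    (hg : DifferentiableOn ℂ g (ball w R)) (hgk : ∀ x ∈ ball w R, (f d c)^[k] (g x) = x) {x : ℂ}
    (hx : x ∈ ball w R) : ‖deriv ((f d c)^[k]) (g x)‖ * ‖deriv g x‖ = 1 := by
  have h1 : DifferentiableAt ℂ g x := hg.differentiableAt (isOpen_ball.mem_nhds hx)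
  have h2 : deriv ((f d c)^[k] ∘ g) x = deriv ((f d c)^[k]) (g x) * deriv g x :=
    deriv_comp x (differentiable_fn d c k _) h1
  have h3 : (f d c)^[k] ∘ g =ᶠ[nhds x] id := by
    filter_upwards [isOpen_ball.mem_nhds hx] with y hy
    exact hgk y hy
  have h4 : deriv ((f d c)^[k] ∘ g) x = 1 := by
    rw [h3.deriv_eq]
    simp
  rw [← norm_mul, ← h2, h4, norm_one]

/-- The exponent `2 / d`. -/
noncomputable def be (d : ℕ) : ℝ := 2 / (d : ℝ)

theorem be_pos (hd : 2 ≤ d) : 0 < be d := by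
  have h : (2 : ℝ) ≤ d := by exact_mod_cast hd
  unfold be
  positivity

theorem be_le_one (hd : 2 ≤ d) : be d ≤ 1 := by
  have h : (2 : ℝ) ≤ d := by exact_mod_cast hd
  unfold be
  rw [div_le_one (by linarith)]
  exact h

theorem al_be (d : ℕ) : al d = 2 - be d := rfl

theorem al_add_be (d : ℕ) : al d + be d = 2 := by rw [al_be]; ring

theorem d_be (hd : 2 ≤ d) : (d : ℝ) * be d = 2 := by
  have h : (2 : ℝ) ≤ d := by exact_mod_cast hd
  unfold be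
  field_simp

theorem rpow_al_be (d : ℕ) {x : ℝ} (hx : 0 < x) : x ^ al d * x ^ be d = x ^ 2 := by
  rw [← Real.rpow_add hx, al_add_be, Real.rpow_two]

/-- for `x ≥ 1`, `x ^ al d ≤ x ^ 2` -/
theorem rpow_al_le (hd : 2 ≤ d) {x : ℝ} (hx : 1 ≤ x) : x ^ al d ≤ x ^ 2 := by
  rw [← Real.rpow_two]
  exact Real.rpow_le_rpow_of_exponent_le hx (al_lt hd).le

theorem rpow_be_le (hd : 2 ≤ d) {x : ℝ} (hx : 1 ≤ x) : x ^ be d ≤ x := by
  calc x ^ be d ≤ x ^ (1 : ℝ) := Real.rpow_le_rpow_of_exponent_le hx (be_le_one hd)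
    _ = x := Real.rpow_one x

/-- `(x ^ (d - 1)) ^ (2 / d) = x ^ al d` -/
theorem pow_rpow_be (hd : 2 ≤ d) {x : ℝ} (hx : 0 ≤ x) : (x ^ (d - 1)) ^ be d = x ^ al d := by
  have h : (2 : ℝ) ≤ d := by exact_mod_cast hd
  rw [← Real.rpow_natCast x (d - 1), ← Real.rpow_mul hx]
  congr 1
  rw [Nat.cast_sub (by omega), Nat.cast_one, sub_mul, d_be hd, one_mul, al_be]

/-- differences of powers -/
theorem pow_sub_le (x y : ℂ) {m : ℝ} (hx : ‖x‖ ≤ m) (hy : ‖y‖ ≤ m) (n : ℕ) :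
    ‖x ^ n - y ^ n‖ ≤ n * m ^ (n - 1) * ‖x - y‖ := by
  have h := Commute.geom_sum₂_mul (Commute.all x y) n
  rw [← h, norm_mul]
  apply mul_le_mul_of_nonneg_right _ (norm_nonneg _)
  calc ‖∑ i ∈ Finset.range n, x ^ i * y ^ (n - 1 - i)‖
      ≤ ∑ i ∈ Finset.range n, ‖x ^ i * y ^ (n - 1 - i)‖ := norm_sum_le _ _
    _ ≤ ∑ i ∈ Finset.range n, m ^ (n - 1) := by
        apply Finset.sum_le_sum
        intro i hi
        rw [Finset.mem_range] at hi
        rw [norm_mul, norm_pow, norm_pow]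
        have hm : 0 ≤ m := (norm_nonneg _).trans hx
        calc ‖x‖ ^ i * ‖y‖ ^ (n - 1 - i) ≤ m ^ i * m ^ (n - 1 - i) := by gcongr
          _ = m ^ (n - 1) := by rw [← pow_add]; congr 1; omega
    _ = _ := by rw [Finset.sum_const, Finset.card_range, nsmul_eq_mul]

variable {C0 c0 θ τ A : ℝ}

/-- The data of a hit at time `k`. -/
structure HitAt (d : ℕ) (c w : ℂ) (R τ : ℝ) (k : ℕ) (g : ℂ → ℂ) : Prop where
  diff : DifferentiableOn ℂ g (ball w (RR R τ k))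
  inv : ∀ x ∈ ball w (RR R τ k), (f d c)^[k] (g x) = x
  mem : zz d c k ∈ ball w (RR R τ (k + 1))
  val : g (zz d c k) = c

theorem HitAt.univ {c w : ℂ} {R : ℝ} {k : ℕ} {g : ℂ → ℂ} (H : HitAt d c w R τ k g) :
    Univ g w (RR R τ k) := univ_branch H.diff H.inv

theorem HitAt.deriv_val (G : MG C0 c0 θ τ A) {c w : ℂ} {R : ℝ} (hR : 0 < R) {k : ℕ} {g : ℂ → ℂ}
    (H : HitAt d c w R τ k g) : Pd d c k * ‖deriv g (zz d c k)‖ = 1 := by
  have h := branch_deriv H.diff H.inv (G.RR_ball hR k w H.mem)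
  rw [H.val] at h
  exact h

theorem mem_small (G : MG C0 c0 θ τ A) {R : ℝ} (hR : 0 < R) {w y : ℂ} (hy : ‖y - w‖ ≤ R / 8)
    (k : ℕ) : y ∈ ball w (RR R τ k) := by
  rw [mem_ball, dist_eq_norm]
  have := G.RR_gt hR k
  linarith

theorem QQ_pos (G : MG C0 c0 θ τ A) (k : ℕ) : 1 ≤ A * θ ^ k := by
  have h1 : 1 ≤ θ ^ k := one_le_pow₀ G.th.le
  have h2 := G.A1
  nlinarith

theorem HitAt.est (G : MG C0 c0 θ τ A) (K : KC C0 c0) {c w : ℂ} {R : ℝ} (hR : 0 < R) {k : ℕ}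
    {g : ℂ → ℂ} (H : HitAt d c w R τ k g) (hP : 0 < Pd d c k) {y : ℂ} (hy : ‖y - w‖ ≤ R / 8)
    {h : ℂ} (hh : h ^ d = g y - c) :
    ‖deriv g y‖ ≤ A * θ ^ k / Pd d c k ∧ 1 / (A * θ ^ k * Pd d c k) ≤ ‖deriv g y‖ ∧
    ‖h‖ ^ d ≤ A * θ ^ k / Pd d c k * ‖y - zz d c k‖ ∧
    ‖h‖ ^ d ≤ 3 * R * (A * θ ^ k) / Pd d c k ∧
    ‖y - zz d c k‖ ≤ (A * θ ^ k) ^ 2 * Pd d c k * ‖h‖ ^ d := by
  have hQ := QQ_pos G k
  have hQ0 : 0 < A * θ ^ k := by linarith
  have hyk := mem_small G hR hy (k + 1)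
  have hd := H.deriv_val G hR
  have h1 := G.dist K hR H.univ hyk H.mem
  have h2 := G.dist K hR H.univ H.mem hyk
  have hdz : ‖deriv g (zz d c k)‖ = 1 / Pd d c k := by
    rw [eq_div_iff hP.ne']
    linarith
  rw [hdz] at h1 h2
  have e1 : ‖h‖ ^ d = ‖g y - g (zz d c k)‖ := by rw [← norm_pow, hh, H.val]
  have h3 := G.upper K hR H.univ hyk H.mem
  rw [← e1, hdz] at h3
  have h4 := G.lower K hR H.univ H.mem hyk
  rw [norm_sub_rev (g (zz d c k)), ← e1] at h4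
  have h5 : 1 / (A * θ ^ k * Pd d c k) ≤ ‖deriv g y‖ := by
    rw [div_le_iff₀ (by positivity)]
    rw [div_le_iff₀ hP] at h2
    linarith
  have h6 : ‖h‖ ^ d ≤ A * θ ^ k / Pd d c k * ‖y - zz d c k‖ := by
    refine h3.trans (le_of_eq ?_)
    ring
  have h7 : ‖y - zz d c k‖ ≤ 3 * R := by
    have h8 := H.mem
    rw [mem_ball, dist_eq_norm] at h8
    have h9 := G.RR_le hR (k + 1)
    calc ‖y - zz d c k‖ = ‖(y - w) - (zz d c k - w)‖ := by congr 1; ring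
      _ ≤ ‖y - w‖ + ‖zz d c k - w‖ := norm_sub_le _ _
      _ ≤ _ := by linarith
  refine ⟨h1.trans (le_of_eq (by ring)), h5, h6, ?_, ?_⟩
  · refine h6.trans ?_
    calc A * θ ^ k / Pd d c k * ‖y - zz d c k‖ ≤ A * θ ^ k / Pd d c k * (3 * R) := by gcongr
      _ = _ := by ring
  · have h8 : 1 / (A * θ ^ k * Pd d c k) * ‖zz d c k - y‖ ≤ A * θ ^ k * ‖h‖ ^ d :=
      (mul_le_mul_of_nonneg_right h5 (norm_nonneg _)).trans h4
    rw [norm_sub_rev, div_mul_eq_mul_div, one_mul, div_le_iff₀ (by positivity)] at h8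
    linarith

/-- the prefactor -/
theorem HitAt.pre (hd : 2 ≤ d) (G : MG C0 c0 θ τ A) (K : KC C0 c0) {c w : ℂ} {R : ℝ} (hR : 0 < R)
    {k : ℕ} {g : ℂ → ℂ} (H : HitAt d c w R τ k g) (hP : 0 < Pd d c k) {y : ℂ}
    (hy : ‖y - w‖ ≤ R / 8) (hyk : y ≠ zz d c k) {h : ℂ} (hh : h ^ d = g y - c) : 0 < ‖h‖ ∧
    ‖deriv g y‖ ^ 2 / ((d : ℝ) ^ 2 * ‖h‖ ^ (2 * (d - 1))) ≤
      (A * θ ^ k) ^ 6 / (Pd d c k ^ be d * ‖y - zz d c k‖ ^ al d) := by
  set Q : ℝ := A * θ ^ k with hQ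
  have hQ1 : 1 ≤ Q := QQ_pos G k
  have hQ0 : 0 < Q := by linarith
  have hdR : (2 : ℝ) ≤ d := by exact_mod_cast hd
  obtain ⟨E1, E2, E3, E4, E5⟩ := H.est G K hR hP hy hh
  rw [← hQ] at E1 E2 E3 E4 E5
  have hyk0 : 0 < ‖y - zz d c k‖ := norm_pos_iff.mpr (sub_ne_zero.mpr hyk)
  have hh0 : 0 < ‖h‖ := by
    rcases (norm_nonneg h).eq_or_lt with h1 | h1
    · rw [← h1, zero_pow (by omega), mul_zero] at E5
      linarith
    · exact h1
  refine ⟨hh0, ?_⟩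
  set P := Pd d c k with hPdef
  have h1 : ‖y - zz d c k‖ ^ al d ≤ Q ^ 4 * P ^ al d * ‖h‖ ^ (2 * (d - 1)) := by
    calc ‖y - zz d c k‖ ^ al d ≤ (Q ^ 2 * P * ‖h‖ ^ d) ^ al d :=
          Real.rpow_le_rpow hyk0.le E5 (al_pos hd).le
      _ = (Q ^ 2) ^ al d * P ^ al d * (‖h‖ ^ d) ^ al d := by
          rw [Real.mul_rpow (by positivity) (by positivity),
            Real.mul_rpow (by positivity) (by positivity)]
      _ = (Q ^ 2) ^ al d * P ^ al d * ‖h‖ ^ (2 * (d - 1)) := by rw [pow_al hd hh0.le]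
      _ ≤ (Q ^ 2) ^ 2 * P ^ al d * ‖h‖ ^ (2 * (d - 1)) := by
          gcongr
          exact rpow_al_le hd (one_le_pow₀ hQ1)
      _ = _ := by ring
  have h2 : ‖deriv g y‖ ^ 2 ≤ Q ^ 2 / P ^ 2 := by
    rw [← div_pow]
    gcongr
  have hPa := rpow_al_be d hP
  have hPb : 0 < P ^ be d := Real.rpow_pos_of_pos hP _
  have hya : 0 < ‖y - zz d c k‖ ^ al d := Real.rpow_pos_of_pos hyk0 _
  rw [div_le_div_iff₀ (by positivity) (by positivity)]
  calc ‖deriv g y‖ ^ 2 * (P ^ be d * ‖y - zz d c k‖ ^ al d)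
      ≤ Q ^ 2 / P ^ 2 * (P ^ be d * (Q ^ 4 * P ^ al d * ‖h‖ ^ (2 * (d - 1)))) := by gcongr
    _ = Q ^ 6 * ((P ^ al d * P ^ be d) / P ^ 2) * (1 * ‖h‖ ^ (2 * (d - 1))) := by ring
    _ = Q ^ 6 * (1 * ‖h‖ ^ (2 * (d - 1))) := by
        rw [hPa, div_self (by positivity), mul_one]
    _ ≤ Q ^ 6 * ((d : ℝ) ^ 2 * ‖h‖ ^ (2 * (d - 1))) := by
        gcongr
        nlinarith

/-- a constant depending on the degree -/
noncomputable def LA (d : ℕ) : ℝ := 9 * 4 ^ d * (d * 2 ^ (d - 1)) ^ 2 * d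

theorem LA_pos (hd : 2 ≤ d) : 0 < LA d := by
  have hdR : (2 : ℝ) ≤ d := by exact_mod_cast hd
  unfold LA
  positivity

theorem one_le_LA (hd : 2 ≤ d) : 1 ≤ LA d := by
  have hdR : (2 : ℝ) ≤ d := by exact_mod_cast hd
  unfold LA
  have h1 : (1 : ℝ) ≤ 4 ^ d := one_le_pow₀ (by norm_num)
  have h2 : (1 : ℝ) ≤ 2 ^ (d - 1) := one_le_pow₀ (by norm_num)
  have h3 : (1 : ℝ) ≤ d * 2 ^ (d - 1) := by nlinarith
  have h4 : (1 : ℝ) ≤ (d * 2 ^ (d - 1)) ^ 2 := one_le_pow₀ h3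
  have h5 : (1 : ℝ) ≤ 9 * 4 ^ d := by linarith
  have h6 : (1 : ℝ) ≤ 9 * 4 ^ d * (d * 2 ^ (d - 1)) ^ 2 := one_le_mul_of_one_le_of_one_le h5 h4
  exact one_le_mul_of_one_le_of_one_le h6 (by linarith)

/-- **Transport of a singularity by a hitting branch.** -/
theorem HitAt.transport (hd : 2 ≤ d) (G : MG C0 c0 θ τ A) (K : KC C0 c0) {c : ℂ} {R : ℝ}
    (hR : 0 < R) {k : ℕ}
    {g : ℂ → ℂ} (H : HitAt d c 0 R τ k g) (hP : ∀ j, 0 < Pd d c j) {y : ℂ} (hy : ‖y‖ ≤ R / 8)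
    (hyk : y ≠ zz d c k) {h : ℂ} (hh : h ^ d = g y - c) (i : ℕ) (hzi : zz d c i ≠ 0)
    (hhi : h ≠ zz d c i) :
    (‖deriv g y‖ ^ 2 / ((d : ℝ) ^ 2 * ‖h‖ ^ (2 * (d - 1))) / ‖h - zz d c i‖ ^ al d ≤
      LA d * (A * θ ^ k) ^ 12 / (‖zz d c i‖ ^ al d * (Pd d c k ^ be d * ‖y - zz d c k‖ ^ al d))) ∨
    (‖zz d c (k + 1 + i)‖ < 2 * R ∧ (y ≠ zz d c (k + 1 + i) →
      ‖deriv g y‖ ^ 2 / ((d : ℝ) ^ 2 * ‖h‖ ^ (2 * (d - 1))) / ‖h - zz d c i‖ ^ al d ≤
      LA d * (A * θ ^ k) ^ 12 * (Pd d c i / Pd d c (k + 1 + i)) ^ be d /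
        ‖y - zz d c (k + 1 + i)‖ ^ al d)) := by
  have hdR : (2 : ℝ) ≤ d := by exact_mod_cast hd
  have hal := al_pos hd
  set Q : ℝ := A * θ ^ k with hQ
  have hQ1 : 1 ≤ Q := QQ_pos G k
  have hQ0 : 0 < Q := by linarith
  have hPk := hP k
  obtain ⟨E1, E2, E3, E4, E5⟩ := H.est G K hR hPk (by rwa [sub_zero]) hh
  obtain ⟨hh0, hpre⟩ := H.pre hd G K hR hPk (y := y) (by rwa [sub_zero]) hyk hh
  rw [← hQ] at E1 E2 E3 E4 E5 hpre
  set P := Pd d c k with hPdef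
  have hyk0 : 0 < ‖y - zz d c k‖ := norm_pos_iff.mpr (sub_ne_zero.mpr hyk)
  have hzi0 : 0 < ‖zz d c i‖ := norm_pos_iff.mpr hzi
  have ha0 : 0 < ‖h - zz d c i‖ := norm_pos_iff.mpr (sub_ne_zero.mpr hhi)
  set D₁ : ℝ := d * 2 ^ (d - 1) with hD₁
  have h2d : (1 : ℝ) ≤ 2 ^ (d - 1) := one_le_pow₀ (by norm_num)
  have hD₁2 : 2 ≤ D₁ := by rw [hD₁]; nlinarith
  have hD₁0 : 0 < D₁ := by linarith
  have h2d' : (1 : ℝ) ≤ 2 ^ d := one_le_pow₀ (by norm_num)
  -- the two far cases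
  have hfar : ‖zz d c i‖ ≤ 3 * 2 ^ d * D₁ * Q ^ 3 * ‖h - zz d c i‖ →
      ‖deriv g y‖ ^ 2 / ((d : ℝ) ^ 2 * ‖h‖ ^ (2 * (d - 1))) / ‖h - zz d c i‖ ^ al d ≤
      LA d * Q ^ 12 / (‖zz d c i‖ ^ al d * (P ^ be d * ‖y - zz d c k‖ ^ al d)) := by
    intro hE
    set E : ℝ := 3 * 2 ^ d * D₁ * Q ^ 3 with hEdef
    have hQ3 : 1 ≤ Q ^ 3 := one_le_pow₀ hQ1
    have hE1 : 1 ≤ E := by
      rw [hEdef]
      have h1 : 1 ≤ 3 * (2 : ℝ) ^ d := by linarith
      have h2 : 1 ≤ 3 * (2 : ℝ) ^ d * D₁ := one_le_mul_of_one_le_of_one_le h1 (by linarith)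
      exact one_le_mul_of_one_le_of_one_le h2 hQ3
    have h1 : ‖zz d c i‖ ^ al d ≤ E ^ 2 * ‖h - zz d c i‖ ^ al d := by
      calc ‖zz d c i‖ ^ al d ≤ (E * ‖h - zz d c i‖) ^ al d :=
            Real.rpow_le_rpow hzi0.le hE hal.le
        _ = E ^ al d * ‖h - zz d c i‖ ^ al d := Real.mul_rpow (by linarith) ha0.le
        _ ≤ _ := by
            gcongr
            exact rpow_al_le hd hE1
    have hza : 0 < ‖zz d c i‖ ^ al d := Real.rpow_pos_of_pos hzi0 _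
    have haa : 0 < ‖h - zz d c i‖ ^ al d := Real.rpow_pos_of_pos ha0 _
    have hya : 0 < ‖y - zz d c k‖ ^ al d := Real.rpow_pos_of_pos hyk0 _
    have hPb : 0 < P ^ be d := Real.rpow_pos_of_pos hPk _
    calc ‖deriv g y‖ ^ 2 / ((d : ℝ) ^ 2 * ‖h‖ ^ (2 * (d - 1))) / ‖h - zz d c i‖ ^ al d
        ≤ Q ^ 6 / (P ^ be d * ‖y - zz d c k‖ ^ al d) / (‖zz d c i‖ ^ al d / E ^ 2) := by
          gcongr
          rw [div_le_iff₀ (by positivity)]
          linarith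
      _ = Q ^ 6 * E ^ 2 / (‖zz d c i‖ ^ al d * (P ^ be d * ‖y - zz d c k‖ ^ al d)) := by
          field_simp
      _ = (9 * 4 ^ d * D₁ ^ 2 * 1) * Q ^ 12 /
          (‖zz d c i‖ ^ al d * (P ^ be d * ‖y - zz d c k‖ ^ al d)) := by
          congr 1
          rw [hEdef, show (4 : ℝ) = 2 ^ 2 by norm_num, ← pow_mul]
          ring
      _ ≤ (9 * 4 ^ d * D₁ ^ 2 * d) * Q ^ 12 /
          (‖zz d c i‖ ^ al d * (P ^ be d * ‖y - zz d c k‖ ^ al d)) := by
          gcongr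
          linarith
      _ = _ := rfl
  by_cases hcase : ‖zz d c i‖ / 2 ≤ ‖h - zz d c i‖
  · left
    apply hfar
    have hQ3 : 1 ≤ Q ^ 3 := one_le_pow₀ hQ1
    have h1 : 2 ≤ 3 * 2 ^ d * D₁ * Q ^ 3 := by
      have h2 : 2 ≤ 3 * 2 ^ d * D₁ := by nlinarith
      nlinarith
    nlinarith
  · rw [not_le] at hcase
    -- sizes
    have hhl : ‖zz d c i‖ / 2 ≤ ‖h‖ := by
      have h1 : ‖zz d c i‖ ≤ ‖h‖ + ‖h - zz d c i‖ := by
        calc ‖zz d c i‖ = ‖h - (h - zz d c i)‖ := by congr 1; ring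
          _ ≤ _ := norm_sub_le _ _
      linarith
    have hhu : ‖h‖ ≤ 2 * ‖zz d c i‖ := by
      calc ‖h‖ = ‖(h - zz d c i) + zz d c i‖ := by congr 1; ring
        _ ≤ ‖h - zz d c i‖ + ‖zz d c i‖ := norm_add_le _ _
        _ ≤ _ := by linarith
    have hprod : ‖g y - zz d c (i + 1)‖ ≤ D₁ * ‖zz d c i‖ ^ (d - 1) * ‖h - zz d c i‖ := by
      have h1 : g y - zz d c (i + 1) = h ^ d - zz d c i ^ d := by
        rw [zz_succ, hh]
        ring
      rw [h1]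
      have h2 := pow_sub_le h (zz d c i) (m := 2 * ‖zz d c i‖) hhu (by linarith) d
      refine h2.trans (le_of_eq ?_)
      rw [mul_pow, hD₁]
      ring
    by_cases hin : ∃ x ∈ ball (0 : ℂ) (RR R τ (k + 1)), g x = zz d c (i + 1)
    · right
      obtain ⟨x, hx, hgx⟩ := hin
      have hxk := G.RR_ball hR k 0 hx
      have hxz : x = zz d c (k + 1 + i) := by
        have h1 := H.inv x hxk
        rw [hgx, zz_add] at h1
        rw [← h1]
        congr 1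
        omega
      have hx2 : ‖zz d c (k + 1 + i)‖ < 2 * R := by
        rw [← hxz]
        rw [mem_ball_zero_iff] at hx
        exact hx.trans_le (G.RR_le hR (k + 1))
      refine ⟨hx2, fun hyx => ?_⟩
      rw [← hxz] at hyx ⊢
      have hyx0 : 0 < ‖y - x‖ := norm_pos_iff.mpr (sub_ne_zero.mpr hyx)
      -- lower bound
      have hyk' := mem_small G hR (w := 0) (y := y) (by rwa [sub_zero]) (k + 1)
      have h1 := G.lower K hR H.univ hx hyk'
      rw [hgx, norm_sub_rev (zz d c (i + 1)), norm_sub_rev x, ← hQ] at h1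
      set Z : ℝ := ‖zz d c i‖ ^ (d - 1) with hZ
      have hZ0 : 0 < Z := by positivity
      have h2 : ‖y - x‖ ≤ Q ^ 2 * D₁ * (P * Z) * ‖h - zz d c i‖ := by
        have h3 : 1 / (Q * P) * ‖y - x‖ ≤ Q * (D₁ * Z * ‖h - zz d c i‖) :=
          (mul_le_mul_of_nonneg_right E2 (norm_nonneg _)).trans
            (h1.trans (mul_le_mul_of_nonneg_left hprod hQ0.le))
        rw [div_mul_eq_mul_div, one_mul, div_le_iff₀ (by positivity)] at h3
        linarith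
      -- the derivative at the singularity
      have h4 := branch_deriv H.diff H.inv hxk
      rw [hgx] at h4
      have h5 : 1 / (Q * P) ≤ ‖deriv g x‖ := by
        have h6 := G.dist K hR H.univ H.mem hx
        have h7 := H.deriv_val G hR
        rw [← hQ] at h6
        rw [div_le_iff₀ (by positivity)]
        calc (1 : ℝ) = P * ‖deriv g (zz d c k)‖ := h7.symm
          _ ≤ P * (Q * ‖deriv g x‖) := by gcongr
          _ = _ := by ring
      have h6 : ‖deriv ((f d c)^[k]) (zz d c (i + 1))‖ ≤ Q * P := by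
        have h7 : 0 < ‖deriv g x‖ := lt_of_lt_of_le (by positivity) h5
        have h8 : ‖deriv ((f d c)^[k]) (zz d c (i + 1))‖ = 1 / ‖deriv g x‖ := by
          rw [eq_div_iff h7.ne']
          exact h4
        rw [h8, div_le_iff₀ h7]
        rw [div_le_iff₀ (by positivity)] at h5
        linarith
      have hPi := hP i
      have hPl := hP (k + 1 + i)
      have h7 : Pd d c (k + 1 + i) ≤ (Q * d) * (P * Z) * Pd d c i := by
        rw [show k + 1 + i = k + (i + 1) by ring, Pd_add, Pd_succ]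
        calc ‖deriv ((f d c)^[k]) (zz d c (i + 1))‖ * (d * ‖zz d c i‖ ^ (d - 1) * Pd d c i)
            ≤ (Q * P) * (d * ‖zz d c i‖ ^ (d - 1) * Pd d c i) := by gcongr
          _ = _ := by rw [hZ]; ring
      set Y : ℝ := P * Z with hY
      have hY0 : 0 < Y := by positivity
      -- `Y ^ (-b)`
      have h8 : (1 : ℝ) ≤ (Q * d) * (Y ^ be d * (Pd d c i / Pd d c (k + 1 + i)) ^ be d) := by
        have h9 : 1 ≤ (Q * d) * Y * (Pd d c i / Pd d c (k + 1 + i)) := by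
          rw [mul_div_assoc', le_div_iff₀ hPl, one_mul]
          exact h7
        have hQd : 1 ≤ Q * d := by nlinarith
        have h10 : (1 : ℝ) ≤ ((Q * d) * Y * (Pd d c i / Pd d c (k + 1 + i))) ^ be d :=
          Real.one_le_rpow h9 (be_pos hd).le
        rw [Real.mul_rpow (by positivity) (by positivity),
          Real.mul_rpow (by positivity) (by positivity)] at h10
        have h11 := rpow_be_le hd hQd
        calc (1 : ℝ) ≤ (Q * d) ^ be d * Y ^ be d * (Pd d c i / Pd d c (k + 1 + i)) ^ be d := h10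
          _ ≤ (Q * d) * Y ^ be d * (Pd d c i / Pd d c (k + 1 + i)) ^ be d := by gcongr
          _ = _ := by ring
      have hYal := rpow_al_be d hY0
      have hYb : 0 < Y ^ be d := Real.rpow_pos_of_pos hY0 _
      have hYa : 0 < Y ^ al d := Real.rpow_pos_of_pos hY0 _
      have haa : 0 < ‖h - zz d c i‖ ^ al d := Real.rpow_pos_of_pos ha0 _
      have hxa : 0 < ‖y - x‖ ^ al d := Real.rpow_pos_of_pos hyx0 _
      have hQD : 1 ≤ Q ^ 2 * D₁ := by
        have := one_le_pow₀ hQ1 (n := 2)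
        nlinarith
      have h9 : ‖y - x‖ ^ al d ≤ (Q ^ 2 * D₁) ^ 2 * Y ^ al d * ‖h - zz d c i‖ ^ al d := by
        calc ‖y - x‖ ^ al d ≤ (Q ^ 2 * D₁ * Y * ‖h - zz d c i‖) ^ al d :=
              Real.rpow_le_rpow hyx0.le h2 hal.le
          _ = (Q ^ 2 * D₁) ^ al d * Y ^ al d * ‖h - zz d c i‖ ^ al d := by
              rw [Real.mul_rpow (by positivity) ha0.le, Real.mul_rpow (by positivity) hY0.le]
          _ ≤ _ := by
              gcongr
              exact rpow_al_le hd hQD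
      -- the lower bound of `h`
      have h10 : Z ^ 2 ≤ 4 ^ d * ‖h‖ ^ (2 * (d - 1)) := by
        have h11 : ‖zz d c i‖ ≤ 2 * ‖h‖ := by linarith
        calc Z ^ 2 ≤ ((2 * ‖h‖) ^ (d - 1)) ^ 2 := by
              rw [hZ]
              gcongr
          _ = 4 ^ (d - 1) * ‖h‖ ^ (2 * (d - 1)) := by
              rw [mul_pow, mul_pow, ← pow_mul, ← pow_mul, mul_comm (d - 1) 2, pow_mul]
              norm_num
          _ ≤ _ := by
              gcongr
              · norm_num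
              · omega
      have h12 : ‖deriv g y‖ ^ 2 ≤ Q ^ 2 / P ^ 2 := by
        rw [← div_pow]
        gcongr
      set W : ℝ := (Pd d c i / Pd d c (k + 1 + i)) ^ be d with hW
      have hW0 : 0 < W := by positivity
      rw [div_div, div_le_div_iff₀ (by positivity) hxa]
      have hH0 : 0 < ‖h‖ ^ (2 * (d - 1)) := by positivity
      set HH : ℝ := ‖h‖ ^ (2 * (d - 1)) with hHH
      set a' := ‖h - zz d c i‖ ^ al d with ha'
      calc ‖deriv g y‖ ^ 2 * ‖y - x‖ ^ al d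
          ≤ Q ^ 2 / P ^ 2 * ((Q ^ 2 * D₁) ^ 2 * Y ^ al d * a') := by gcongr
        _ = Q ^ 2 / P ^ 2 * ((Q ^ 2 * D₁) ^ 2 * (Y ^ al d * Y ^ be d) / Y ^ be d * a') := by
            field_simp
        _ = Q ^ 6 * D₁ ^ 2 * Z ^ 2 * a' / Y ^ be d := by
            rw [hYal, hY]
            field_simp
        _ ≤ Q ^ 6 * D₁ ^ 2 * (4 ^ d * HH) * a' / Y ^ be d := by gcongr
        _ ≤ Q ^ 6 * D₁ ^ 2 * (4 ^ d * HH) * a' * ((Q * d) * W) := by
            rw [div_le_iff₀ hYb]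
            have h13 : 0 ≤ Q ^ 6 * D₁ ^ 2 * (4 ^ d * HH) * a' := by positivity
            calc Q ^ 6 * D₁ ^ 2 * (4 ^ d * HH) * a' = Q ^ 6 * D₁ ^ 2 * (4 ^ d * HH) * a' * 1 := by
                  ring
              _ ≤ Q ^ 6 * D₁ ^ 2 * (4 ^ d * HH) * a' * ((Q * d) * (Y ^ be d * W)) := by
                  gcongr
              _ = _ := by ring
        _ = (1 * 4 ^ d * D₁ ^ 2 * d) * Q ^ 7 * W * (1 * HH * a') := by ring
        _ ≤ (9 * 4 ^ d * D₁ ^ 2 * d) * Q ^ 12 * W * ((d : ℝ) ^ 2 * HH * a') := by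
            have h14 : Q ^ 7 ≤ Q ^ 12 := pow_le_pow_right₀ hQ1 (by norm_num)
            gcongr
            · norm_num
            · nlinarith
        _ = _ := rfl
    · left
      push Not at hin
      apply hfar
      have h1 := G.omit K hR H.univ (by rwa [sub_zero]) hin
      rw [← hQ] at h1
      set Z : ℝ := ‖zz d c i‖ ^ (d - 1) with hZ
      have hZ0 : 0 < Z := by positivity
      have h2 : R ≤ Q ^ 2 * P * (D₁ * Z * ‖h - zz d c i‖) := by
        have h3 : 1 / (Q * P) * R ≤ Q * (D₁ * Z * ‖h - zz d c i‖) :=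
          (mul_le_mul_of_nonneg_right E2 hR.le).trans
            (h1.trans (mul_le_mul_of_nonneg_left hprod hQ0.le))
        rw [div_mul_eq_mul_div, one_mul, div_le_iff₀ (by positivity)] at h3
        linarith
      have h4 : ‖zz d c i‖ ^ d * P ≤ 2 ^ d * (3 * R * Q) := by
        have h9 : ‖h‖ ^ d * P ≤ 3 * R * Q := by
          have := mul_le_mul_of_nonneg_right E4 hPk.le
          calc ‖h‖ ^ d * P ≤ 3 * R * Q / P * P := this
            _ = _ := by field_simp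
        have h10 : ‖zz d c i‖ ^ d ≤ 2 ^ d * ‖h‖ ^ d := by
          rw [← mul_pow]
          gcongr
          linarith
        calc ‖zz d c i‖ ^ d * P ≤ 2 ^ d * ‖h‖ ^ d * P := by gcongr
          _ = 2 ^ d * (‖h‖ ^ d * P) := by ring
          _ ≤ _ := by gcongr
      have h5 : ‖zz d c i‖ * (Z * P) ≤ 3 * 2 ^ d * D₁ * Q ^ 3 * ‖h - zz d c i‖ * (Z * P) := by
        have h6 : ‖zz d c i‖ ^ d = ‖zz d c i‖ * Z := by
          rw [hZ, ← pow_succ']
          congr 1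
          omega
        calc ‖zz d c i‖ * (Z * P) = ‖zz d c i‖ ^ d * P := by rw [h6]; ring
          _ ≤ 2 ^ d * (3 * R * Q) := h4
          _ ≤ 2 ^ d * (3 * (Q ^ 2 * P * (D₁ * Z * ‖h - zz d c i‖)) * Q) := by gcongr
          _ = _ := by ring
      exact le_of_mul_le_mul_right h5 (by positivity)

end Pool.Agent.Y298.SH.CD
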