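import Mathlib
import Pool.Agent.Y298.CD.Hit

/-!
# The majorant of the Green function near the critical point (all degrees)
-/

set_option autoImplicit false

open Set Filter Metric MeasureTheory

namespace Pool.Agent.Y298.SH.CD

open Pool.Agent.TH279.MD Pool.Agent.Y298.SH
open Pool.Agent.Y298.SH.CE (MG RR tree)
open Pool.Agent.W746.LD (Univ KC exists_KC)

variable {d : ℕ}

/-- the weights -/
noncomputable def qq (d : ℕ) (c : ℂ) (t : ℝ) (i : ℕ) : ℝ := t ^ i / Pd d c i ^ be d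

/-- the singular terms -/
noncomputable def tt (d : ℕ) (c : ℂ) (t R : ℝ) (i : ℕ) (y : ℂ) : ENNReal :=
  if ‖zz d c i‖ < 2 * R then
    ENNReal.ofReal (qq d c t i) * (ENNReal.ofReal (‖y - zz d c i‖ ^ al d))⁻¹ else 0

/-- the singular part of the majorant -/
noncomputable def Ps (d : ℕ) (c : ℂ) (t R : ℝ) (y : ℂ) : ENNReal := ∑' i, tt d c t R i y

variable {C0 c0 θ τ A : ℝ}

theorem tt_le_Ps (c : ℂ) (t R : ℝ) (i : ℕ) (y : ℂ) : tt d c t R i y ≤ Ps d c t R y :=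
  ENNReal.le_tsum i

theorem qq_pos {c : ℂ} {t : ℝ} (ht : 0 < t) (hP : ∀ j, 0 < Pd d c j) (i : ℕ) : 0 < qq d c t i := by
  have h1 := Real.rpow_pos_of_pos (hP i) (be d)
  unfold qq
  positivity

theorem tt_self (hd : 2 ≤ d) {c : ℂ} {t R : ℝ} (ht : 0 < t) (hP : ∀ j, 0 < Pd d c j) {i : ℕ}
    (hi : ‖zz d c i‖ < 2 * R) : tt d c t R i (zz d c i) = ⊤ := by
  unfold tt
  rw [if_pos hi, sub_self, norm_zero, Real.zero_rpow (al_pos hd).ne', ENNReal.ofReal_zero,
    ENNReal.inv_zero, ENNReal.mul_top]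
  exact (ENNReal.ofReal_pos.mpr (qq_pos ht hP i)).ne'

theorem tt_eq {c : ℂ} {t R : ℝ} {i : ℕ} (hi : ‖zz d c i‖ < 2 * R) {y : ℂ} (hy : y ≠ zz d c i)
    (hq : 0 ≤ qq d c t i) :
    tt d c t R i y = ENNReal.ofReal (qq d c t i / ‖y - zz d c i‖ ^ al d) := by
  unfold tt
  have h1 : 0 < ‖y - zz d c i‖ := norm_pos_iff.mpr (sub_ne_zero.mpr hy)
  have h2 : 0 < ‖y - zz d c i‖ ^ al d := Real.rpow_pos_of_pos h1 _
  rw [if_pos hi, ← ENNReal.ofReal_inv_of_pos h2, ← ENNReal.ofReal_mul hq]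
  rfl

theorem HitAt.mem2 (G : MG C0 c0 θ τ A) {c : ℂ} {R : ℝ} (hR : 0 < R) {k : ℕ} {g : ℂ → ℂ}
    (H : HitAt d c 0 R τ k g) : ‖zz d c k‖ < 2 * R := by
  have := H.mem
  rw [mem_ball_zero_iff] at this
  exact this.trans_le (G.RR_le hR (k + 1))

/-- the weight of one root -/
noncomputable def pf (d : ℕ) (g : ℂ → ℂ) (y h : ℂ) : ENNReal :=
  ENNReal.ofReal (‖deriv g y‖ ^ 2) * ENNReal.ofReal (1 / ((d : ℝ) ^ 2 * ‖h‖ ^ (2 * (d - 1))))

theorem pf_eq (g : ℂ → ℂ) (y h : ℂ) : pf d g y h =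
    ENNReal.ofReal (‖deriv g y‖ ^ 2 / ((d : ℝ) ^ 2 * ‖h‖ ^ (2 * (d - 1)))) := by
  unfold pf
  rw [← ENNReal.ofReal_mul (by positivity)]
  congr 1
  ring

/-- the constant term -/
theorem HitAt.const_term (hd : 2 ≤ d) (G : MG C0 c0 θ τ A) (K : KC C0 c0) {c : ℂ} {R t : ℝ}
    (hR : 0 < R)
    (ht : 1 ≤ t) {k : ℕ} {g : ℂ → ℂ} (H : HitAt d c 0 R τ k g) (hP : ∀ j, 0 < Pd d c j) {y : ℂ}
    (hy : ‖y‖ ≤ R / 8) {h : ℂ} (hh : h ^ d = g y - c) :
    pf d g y h ≤ ENNReal.ofReal ((A * θ ^ k) ^ 6 / t ^ k) * tt d c t R k y := by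
  have ht0 : 0 < t := by linarith
  have hm := H.mem2 G hR
  have hQ1 : 1 ≤ A * θ ^ k := QQ_pos G k
  have hQ0 : 0 < A * θ ^ k := by linarith
  rcases eq_or_ne y (zz d c k) with hyk | hyk
  · have h1 : tt d c t R k y = ⊤ := by rw [hyk]; exact tt_self hd ht0 hP hm
    rw [h1, ENNReal.mul_top]
    · exact le_top
    · exact (ENNReal.ofReal_pos.mpr (by positivity)).ne'
  have hPk := hP k
  have hyk0 : 0 < ‖y - zz d c k‖ := norm_pos_iff.mpr (sub_ne_zero.mpr hyk)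
  have hq0 := qq_pos ht0 hP k
  rw [tt_eq hm hyk hq0.le, pf_eq, ← ENNReal.ofReal_mul (by positivity)]
  apply ENNReal.ofReal_le_ofReal
  obtain ⟨-, h1⟩ := H.pre hd G K hR hPk (by rwa [sub_zero]) hyk hh
  refine h1.trans (le_of_eq ?_)
  have hPb : 0 < Pd d c k ^ be d := Real.rpow_pos_of_pos hPk _
  have hya : 0 < ‖y - zz d c k‖ ^ al d := Real.rpow_pos_of_pos hyk0 _
  unfold qq
  field_simp

/-- the singular terms -/
theorem HitAt.sing_term (hd : 2 ≤ d) (G : MG C0 c0 θ τ A) (K : KC C0 c0) {c : ℂ} {R t : ℝ}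
    (hR : 0 < R)
    (ht : 1 ≤ t) {k : ℕ} {g : ℂ → ℂ} (H : HitAt d c 0 R τ k g) (hP : ∀ j, 0 < Pd d c j)
    (hz : ∀ j, zz d c j ≠ 0) {y : ℂ}
    (hy : ‖y‖ ≤ R / 8) {h : ℂ} (hh : h ^ d = g y - c) (i : ℕ) :
    pf d g y h * tt d c t R i h ≤
      ENNReal.ofReal (LA d * (A * θ ^ k) ^ 12 / t ^ k) *
        (if ‖zz d c i‖ < 2 * R then ENNReal.ofReal (qq d c t i / ‖zz d c i‖ ^ al d) else 0) *
          tt d c t R k y +
      ENNReal.ofReal (LA d * (A * θ ^ k) ^ 12 / t ^ k) * tt d c t R (k + 1 + i) y := by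
  have ht0 : 0 < t := by linarith
  have hLA := LA_pos hd
  have hm := H.mem2 G hR
  have hQ1 : 1 ≤ A * θ ^ k := QQ_pos G k
  have hQ0 : 0 < A * θ ^ k := by linarith
  by_cases hi : ‖zz d c i‖ < 2 * R
  swap
  · have h1 : tt d c t R i h = 0 := if_neg hi
    rw [h1, mul_zero]
    exact bot_le
  rw [if_pos hi]
  have hPi := hP i
  have hPk := hP k
  have hPl := hP (k + 1 + i)
  have hzi0 : 0 < ‖zz d c i‖ := norm_pos_iff.mpr (hz i)
  have hzia : 0 < ‖zz d c i‖ ^ al d := Real.rpow_pos_of_pos hzi0 _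
  have hqi : 0 < qq d c t i := qq_pos ht0 hP i
  rcases eq_or_ne y (zz d c k) with hyk | hyk
  · have h1 : tt d c t R k y = ⊤ := by rw [hyk]; exact tt_self hd ht0 hP hm
    rw [h1, ENNReal.mul_top, top_add]
    · exact le_top
    · apply mul_ne_zero
      · exact (ENNReal.ofReal_pos.mpr (by positivity)).ne'
      · exact (ENNReal.ofReal_pos.mpr (by positivity)).ne'
  have htop : ∀ (h1 : ‖zz d c (k + 1 + i)‖ < 2 * R), y = zz d c (k + 1 + i) →
      pf d g y h * tt d c t R i h ≤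
      ENNReal.ofReal (LA d * (A * θ ^ k) ^ 12 / t ^ k) *
        ENNReal.ofReal (qq d c t i / ‖zz d c i‖ ^ al d) * tt d c t R k y +
      ENNReal.ofReal (LA d * (A * θ ^ k) ^ 12 / t ^ k) * tt d c t R (k + 1 + i) y := by
    intro h1 h2
    have h3 : tt d c t R (k + 1 + i) y = ⊤ := by
      rw [h2]
      exact tt_self hd ht0 hP h1
    rw [h3, ENNReal.mul_top, add_top]
    · exact le_top
    · exact (ENNReal.ofReal_pos.mpr (by positivity)).ne'
  rcases eq_or_ne h (zz d c i) with hhi | hhi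
  · have hyb := mem_small G hR (w := 0) (y := y) (by rwa [sub_zero]) k
    have h1 : y = zz d c (k + 1 + i) := by
      have h2 := H.inv y hyb
      have h3 : g y = zz d c (i + 1) := by
        rw [zz_succ, ← hhi, hh]
        ring
      rw [h3, zz_add] at h2
      rw [← h2]
      congr 1
      omega
    exact htop (by rw [← h1]; linarith) h1
  have hyk0 : 0 < ‖y - zz d c k‖ := norm_pos_iff.mpr (sub_ne_zero.mpr hyk)
  have hhi0 : 0 < ‖h - zz d c i‖ := norm_pos_iff.mpr (sub_ne_zero.mpr hhi)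
  have hyka : 0 < ‖y - zz d c k‖ ^ al d := Real.rpow_pos_of_pos hyk0 _
  have hhia : 0 < ‖h - zz d c i‖ ^ al d := Real.rpow_pos_of_pos hhi0 _
  have hPkb : 0 < Pd d c k ^ be d := Real.rpow_pos_of_pos hPk _
  have hPib : 0 < Pd d c i ^ be d := Real.rpow_pos_of_pos hPi _
  have hPlb : 0 < Pd d c (k + 1 + i) ^ be d := Real.rpow_pos_of_pos hPl _
  rcases H.transport hd G K hR hP hy hyk hh i (hz i) hhi with h1 | ⟨h1, h3⟩
  · refine le_trans ?_ (le_add_of_nonneg_right bot_le)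
    have hq0 := qq_pos ht0 hP k
    rw [tt_eq hi hhi hqi.le, tt_eq hm hyk hq0.le, pf_eq, ← ENNReal.ofReal_mul (by positivity),
      ← ENNReal.ofReal_mul (by positivity), ← ENNReal.ofReal_mul (by positivity)]
    apply ENNReal.ofReal_le_ofReal
    calc ‖deriv g y‖ ^ 2 / ((d : ℝ) ^ 2 * ‖h‖ ^ (2 * (d - 1))) *
          (qq d c t i / ‖h - zz d c i‖ ^ al d)
        = (‖deriv g y‖ ^ 2 / ((d : ℝ) ^ 2 * ‖h‖ ^ (2 * (d - 1))) / ‖h - zz d c i‖ ^ al d) *
          qq d c t i := by ring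
      _ ≤ (LA d * (A * θ ^ k) ^ 12 / (‖zz d c i‖ ^ al d *
          (Pd d c k ^ be d * ‖y - zz d c k‖ ^ al d))) * qq d c t i := by gcongr
      _ = _ := by
          have : qq d c t k = t ^ k / Pd d c k ^ be d := rfl
          rw [this]
          field_simp
  · rcases eq_or_ne y (zz d c (k + 1 + i)) with h2 | h2
    · exact htop h1 h2
    replace h3 := h3 h2
    refine le_trans ?_ (le_add_of_nonneg_left bot_le)
    have hq0 := qq_pos ht0 hP (k + 1 + i)
    have hyl0 : 0 < ‖y - zz d c (k + 1 + i)‖ := norm_pos_iff.mpr (sub_ne_zero.mpr h2)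
    have hyla : 0 < ‖y - zz d c (k + 1 + i)‖ ^ al d := Real.rpow_pos_of_pos hyl0 _
    rw [tt_eq hi hhi hqi.le, tt_eq h1 h2 hq0.le, pf_eq, ← ENNReal.ofReal_mul (by positivity),
      ← ENNReal.ofReal_mul (by positivity)]
    apply ENNReal.ofReal_le_ofReal
    calc ‖deriv g y‖ ^ 2 / ((d : ℝ) ^ 2 * ‖h‖ ^ (2 * (d - 1))) *
          (qq d c t i / ‖h - zz d c i‖ ^ al d)
        = (‖deriv g y‖ ^ 2 / ((d : ℝ) ^ 2 * ‖h‖ ^ (2 * (d - 1))) / ‖h - zz d c i‖ ^ al d) *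
          qq d c t i := by ring
      _ ≤ (LA d * (A * θ ^ k) ^ 12 * (Pd d c i / Pd d c (k + 1 + i)) ^ be d /
          ‖y - zz d c (k + 1 + i)‖ ^ al d) * qq d c t i := by gcongr
      _ = LA d * (A * θ ^ k) ^ 12 * t ^ i /
          (Pd d c (k + 1 + i) ^ be d * ‖y - zz d c (k + 1 + i)‖ ^ al d) := by
          rw [Real.div_rpow hPi.le hPl.le]
          unfold qq
          field_simp
      _ ≤ LA d * (A * θ ^ k) ^ 12 * (t ^ (k + 1 + i) / t ^ k) /
          (Pd d c (k + 1 + i) ^ be d * ‖y - zz d c (k + 1 + i)‖ ^ al d) := by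
          gcongr
          rw [le_div_iff₀ (by positivity), ← pow_add]
          exact pow_le_pow_right₀ ht (by omega)
      _ = _ := by
          unfold qq
          field_simp

/-- one root -/
theorem HitAt.one_sign (hd : 2 ≤ d) (G : MG C0 c0 θ τ A) (K : KC C0 c0) {c : ℂ} {R t : ℝ}
    (hR : 0 < R)
    (ht : 1 ≤ t) {k : ℕ} {g : ℂ → ℂ} (H : HitAt d c 0 R τ k g) (hP : ∀ j, 0 < Pd d c j)
    (hz : ∀ j, zz d c j ≠ 0)
    (hsum : ∑' i, (if ‖zz d c i‖ < 2 * R then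
      ENNReal.ofReal (qq d c t i / ‖zz d c i‖ ^ al d) else 0) ≤ 1)
    {y : ℂ} (hy : ‖y‖ ≤ R / 8) {h : ℂ} (hh : h ^ d = g y - c) :
    pf d g y h * (1 + Ps d c t R h) ≤
      ENNReal.ofReal (3 * LA d * (A * θ ^ k) ^ 12 / t ^ k) * Ps d c t R y := by
  have ht0 : 0 < t := by linarith
  have hLA := LA_pos hd
  have hQ1 : 1 ≤ A * θ ^ k := QQ_pos G k
  have hQ0 : 0 < A * θ ^ k := by linarith
  rw [mul_add, mul_one]
  set X : ENNReal := ENNReal.ofReal (LA d * (A * θ ^ k) ^ 12 / t ^ k) with hX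
  have h1 : pf d g y h ≤ X * Ps d c t R y := by
    refine (H.const_term hd G K hR ht hP hy hh).trans ?_
    gcongr
    · rw [hX]
      apply ENNReal.ofReal_le_ofReal
      gcongr
      have e6 : (A * θ ^ k) ^ 6 ≤ (A * θ ^ k) ^ 12 := pow_le_pow_right₀ hQ1 (by norm_num)
      have := one_le_LA hd
      nlinarith [pow_pos hQ0 12]
    · exact tt_le_Ps c t R k y
  have h2 : pf d g y h * Ps d c t R h ≤ X * Ps d c t R y + X * Ps d c t R y := by
    have h3 : pf d g y h * Ps d c t R h = ∑' i, pf d g y h * tt d c t R i h := by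
      unfold Ps
      rw [ENNReal.tsum_mul_left]
    rw [h3]
    refine (ENNReal.tsum_le_tsum fun i => H.sing_term hd G K hR ht hP hz hy hh i).trans ?_
    rw [ENNReal.tsum_add, ENNReal.tsum_mul_right, ENNReal.tsum_mul_left, ENNReal.tsum_mul_left,
      ← hX]
    refine add_le_add ?_ (mul_le_mul_right ?_ _)
    · calc X * (∑' i, (if ‖zz d c i‖ < 2 * R then
            ENNReal.ofReal (qq d c t i / ‖zz d c i‖ ^ al d) else 0)) * tt d c t R k y
          ≤ X * 1 * Ps d c t R y := by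
            gcongr
            exact tt_le_Ps c t R k y
        _ = _ := by rw [mul_one]
    · unfold Ps
      exact ENNReal.tsum_comp_le_tsum_of_injective (f := fun i => k + 1 + i)
        (fun a b hab => by simpa using hab) (fun i => tt d c t R i y)
  calc _ ≤ X * Ps d c t R y + (X * Ps d c t R y + X * Ps d c t R y) := add_le_add h1 h2
    _ = (3 * X) * Ps d c t R y := by ring
    _ = _ := by
        rw [hX, ← ENNReal.ofReal_ofNat 3, ← ENNReal.ofReal_mul (by norm_num)]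
        congr 2
        ring

/-- the degree constant of the hitting terms -/
noncomputable def LB (d : ℕ) : ℝ := 3 * d * LA d

theorem LB_pos (hd : 2 ≤ d) : 0 < LB d := by
  have := LA_pos hd
  have hdR : (2 : ℝ) ≤ d := by exact_mod_cast hd
  unfold LB
  positivity

/-- **The bound of a hitting term.** -/
theorem HitAt.bound (hd : 2 ≤ d) (G : MG C0 c0 θ τ A) (K : KC C0 c0) {c : ℂ} {R t : ℝ} (hR : 0 < R)
    (ht : 1 ≤ t) {k : ℕ} {g : ℂ → ℂ} (H : HitAt d c 0 R τ k g) (hP : ∀ j, 0 < Pd d c j)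
    (hz : ∀ j, zz d c j ≠ 0)
    (hsum : ∑' i, (if ‖zz d c i‖ < 2 * R then
      ENNReal.ofReal (qq d c t i / ‖zz d c i‖ ^ al d) else 0) ≤ 1)
    (hsmall : 3 * R * (A * θ ^ k) / Pd d c k ≤ (R / 8) ^ d) {κ : ENNReal} {S : ℂ → ENNReal}
    (hS : ∀ v, ‖v‖ ≤ R / 8 → S v ≤ κ * (1 + Ps d c t R v))
    {y : ℂ} (hy : ‖y‖ ≤ R / 8) :
    ENNReal.ofReal (‖deriv g y‖ ^ 2) * LE d c S (g y) ≤
      κ * (ENNReal.ofReal (LB d * (A * θ ^ k) ^ 12 / t ^ k) * Ps d c t R y) := by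
  have hQ1 : 1 ≤ A * θ ^ k := QQ_pos G k
  have hQ0 : 0 < A * θ ^ k := by linarith
  have ht0 : 0 < t := by linarith
  have hLA := LA_pos hd
  set h : ℂ := rt d (g y - c) with hh'
  have hh : h ^ d = g y - c := rt_pow hd _
  obtain ⟨E1, E2, E3, E4, E5⟩ := H.est G K hR (hP k) (y := y) (by rwa [sub_zero]) hh
  have hhs : ‖h‖ ≤ R / 8 := by
    have h1 : ‖h‖ ^ d ≤ (R / 8) ^ d := E4.trans hsmall
    exact (pow_le_pow_iff_left₀ (norm_nonneg _) (by positivity) (by omega)).mp h1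
  rw [LE_root hd hh]
  have h1 : ∀ ζ ∈ RU d, S (ζ * h) * pf d g y h ≤
      κ * (ENNReal.ofReal (3 * LA d * (A * θ ^ k) ^ 12 / t ^ k) * Ps d c t R y) := by
    intro ζ hζ
    have e1 : ‖ζ * h‖ = ‖h‖ := by rw [norm_mul, RU_norm hd hζ, one_mul]
    have e2 : (ζ * h) ^ d = g y - c := by rw [mul_pow, (mem_RU hd).mp hζ, one_mul, hh]
    have h3 := H.one_sign hd G K hR ht hP hz hsum hy e2
    have e3 : pf d g y (ζ * h) = pf d g y h := by
      unfold pf
      rw [e1]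
    rw [e3] at h3
    calc S (ζ * h) * pf d g y h ≤ κ * (1 + Ps d c t R (ζ * h)) * pf d g y h := by
          gcongr
          exact hS _ (by rwa [e1])
      _ = κ * (pf d g y h * (1 + Ps d c t R (ζ * h))) := by ring
      _ ≤ _ := by gcongr
  calc ENNReal.ofReal (‖deriv g y‖ ^ 2) * ((∑ ζ ∈ RU d, S (ζ * h)) *
        ENNReal.ofReal (1 / ((d : ℝ) ^ 2 * ‖h‖ ^ (2 * (d - 1)))))
      = ∑ ζ ∈ RU d, S (ζ * h) * pf d g y h := by
        rw [← Finset.sum_mul]
        unfold pf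
        ring
    _ ≤ ∑ ζ ∈ RU d, κ * (ENNReal.ofReal (3 * LA d * (A * θ ^ k) ^ 12 / t ^ k) * Ps d c t R y) :=
        Finset.sum_le_sum h1
    _ = κ * ((d : ENNReal) * ENNReal.ofReal (3 * LA d * (A * θ ^ k) ^ 12 / t ^ k) *
          Ps d c t R y) := by
        rw [Finset.sum_const, card_RU hd, nsmul_eq_mul]
        ring
    _ = _ := by
        rw [← ENNReal.ofReal_natCast, ← ENNReal.ofReal_mul (by positivity)]
        congr 3
        unfold LB
        ring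

/-- the partial sums of the Green function -/
noncomputable def SU (d : ℕ) (c : ℂ) (M : ℕ) (x : ℂ) : ENNReal := ∑ n ∈ Finset.range M, UU d c n x

theorem LE_sum {c : ℂ} {ι : Type*} (s : Finset ι) (φ : ι → ℂ → ENNReal) (w : ℂ) :
    LE d c (fun y => ∑ i ∈ s, φ i y) w = ∑ i ∈ s, LE d c (φ i) w := by
  unfold LE
  rw [← Finset.sum_mul, Finset.sum_comm]

theorem UU_succ (d : ℕ) (c : ℂ) (n : ℕ) (x : ℂ) : UU d c (n + 1) x = LE d c (UU d c n) x := by
  unfold UU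
  rw [Function.iterate_succ_apply']

theorem UU_zero (d : ℕ) (c x : ℂ) : UU d c 0 x = 1 := rfl

theorem SU_succ (d : ℕ) (c : ℂ) (M : ℕ) (x : ℂ) : SU d c (M + 1) x = 1 + LE d c (SU d c M) x := by
  unfold SU
  rw [Finset.sum_range_succ', LE_sum, add_comm]
  congr 1
  apply Finset.sum_congr rfl
  intro n _
  exact UU_succ d c n x

/-- distortion at the small ball -/
theorem small_dist (G : MG C0 c0 θ τ A) (K : KC C0 c0) {c w : ℂ} {R : ℝ} (hR : 0 < R) {k : ℕ}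
    {g : ℂ → ℂ} (hg : DifferentiableOn ℂ g (ball w (RR R τ k)))
    (hgk : ∀ x ∈ ball w (RR R τ k), (f d c)^[k] (g x) = x) {x x' : ℂ} (hx : ‖x - w‖ ≤ R / 8)
    (hx' : ‖x' - w‖ ≤ R / 8) : ‖deriv g x‖ ^ 2 ≤ C0 ^ 4 * ‖deriv g x'‖ ^ 2 := by
  have hu : Univ g w R := (univ_branch hg hgk).mono (ball_subset_ball (G.RR_gt hR k).le)
  have h1 := (K.kdist g w R hR hu x (by linarith)).1
  have h2 := (K.kdist g w R hR hu x' (by linarith)).2
  have hC := K.one_le
  calc ‖deriv g x‖ ^ 2 ≤ (C0 * (C0 * ‖deriv g x'‖)) ^ 2 := by gcongr; exact h1.trans (by gcongr)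
    _ = _ := by ring

/-- **The majorant.** -/
theorem majorant (hd : 2 ≤ d) (G : MG C0 c0 θ τ A) (K : KC C0 c0) {c : ℂ} {R t : ℝ} (hR : 0 < R)
    (ht : 1 ≤ t) (hP : ∀ j, 0 < Pd d c j) (hz : ∀ j, zz d c j ≠ 0)
    (hsum : ∑' i, (if ‖zz d c i‖ < 2 * R then
      ENNReal.ofReal (qq d c t i / ‖zz d c i‖ ^ al d) else 0) ≤ 1)
    (hsmall : ∀ k, ‖zz d c k‖ < 2 * R → 3 * R * (A * θ ^ k) / Pd d c k ≤ (R / 8) ^ d)
    (heps : ∑' k, (if ‖zz d c k‖ < 2 * R then
      ENNReal.ofReal (LB d * (A * θ ^ k) ^ 12 / t ^ k) else 0) ≤ 1)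
    {x' : ℂ} (hx' : ‖x'‖ ≤ R / 8) (M : ℕ) : ∀ y : ℂ, ‖y‖ ≤ R / 8 →
    SU d c M y ≤ (ENNReal.ofReal (C0 ^ 4) * ∑' j, UU d c j x') * (1 + Ps d c t R y) := by
  have hC := K.one_le
  set κ : ENNReal := ENNReal.ofReal (C0 ^ 4) * ∑' j, UU d c j x' with hκ
  induction M using Nat.strong_induction_on with
  | _ M ih =>
    intro y hy
    obtain ⟨ι, _, g, -, -, -, -, hmain⟩ := tree (d := d) hd c 0 x' (RR R τ)
      (G.RR_pos hR) (fun k => (G.RR_anti hR k).le) (S := SU d c) (SU_succ d c)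
      (fun k y => κ * ((if ‖zz d c k‖ < 2 * R then
        ENNReal.ofReal (LB d * (A * θ ^ k) ^ 12 / t ^ k) else 0) * Ps d c t R y))
      {y | ‖y‖ ≤ R / 8}
      (fun k y hy => mem_small G hR (by rwa [sub_zero]) k)
      (fun k => mem_small G hR (by rwa [sub_zero]) k) (C0 ^ 4)
      (fun k g hg hgk x hx => small_dist G K hR hg hgk (by rwa [sub_zero]) (by rwa [sub_zero]))
      (by positivity) M (by
        intro k hk g hg hgk hmem hval x hx
        have H : HitAt d c 0 R τ k g := ⟨hg, hgk, hmem, hval⟩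
        have h2 := H.mem2 G hR
        beta_reduce
        rw [if_pos h2]
        exact H.bound hd G K hR ht hP hz hsum (hsmall k h2) (ih (M - (k + 1)) (by omega)) hx)
      M le_rfl
    refine (hmain y hy).trans ?_
    have e1 : ∀ x, SU d c (M - M) x = 0 := by
      intro x
      rw [Nat.sub_self]
      rfl
    simp only [e1, mul_zero, Finset.sum_const_zero, add_zero]
    rw [mul_add, mul_one]
    gcongr
    · rw [hκ]
      gcongr
      exact ENNReal.sum_le_tsum _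
    · rw [← Finset.mul_sum, ← Finset.sum_mul]
      calc κ * ((∑ k ∈ Finset.range M, if ‖zz d c k‖ < 2 * R then
            ENNReal.ofReal (LB d * (A * θ ^ k) ^ 12 / t ^ k) else 0) * Ps d c t R y)
          ≤ κ * (1 * Ps d c t R y) := by
            gcongr
            exact (ENNReal.sum_le_tsum _).trans heps
        _ = _ := by rw [one_mul]

end Pool.Agent.Y298.SH.CD
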