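import Mathlib
import Pool.Agent.Y298.CD.Major
import Pool.Agent.Y298.CE.Def

/-!
# Collet-Eckmann parameters in all degrees: choice of the constants
-/

set_option autoImplicit false

open Set Filter Metric MeasureTheory

namespace Pool.Agent.Y298.SH.CD

open Pool.Agent.TH279.MD Pool.Agent.Y298.SH
open Pool.Agent.Y298.SH.CE (MG RR exists_MG tail_geom)
open Pool.Agent.W746.LD (Univ KC exists_KC)

/-- The Collet-Eckmann condition with explicit constants. -/
structure CEp (d : ℕ) (C₁ lam : ℝ) (c : ℂ) : Prop where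
  hd : 2 ≤ d
  bd : ∀ j, ‖zz d c j‖ ≤ 2
  C1 : 1 ≤ C₁
  lam1 : 1 < lam
  exp : ∀ n, lam ^ n ≤ C₁ * Pd d c n

variable {d : ℕ} {C₁ lam : ℝ} {c : ℂ}

theorem CEp.Pd_pos (h : CEp d C₁ lam c) (n : ℕ) : 0 < Pd d c n := by
  have h1 := h.exp n
  have h2 : 0 < lam ^ n := pow_pos (by linarith [h.lam1]) n
  have h3 := h.C1
  by_contra hcon
  have h4 : Pd d c n ≤ 0 := not_lt.mp hcon
  nlinarith

theorem CEp.zz_ne (h : CEp d C₁ lam c) (n : ℕ) : zz d c n ≠ 0 := by
  intro h0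
  have h1 := h.Pd_pos (n + 1)
  have hd := h.hd
  rw [Pd_succ, h0, norm_zero, zero_pow (by omega)] at h1
  simp at h1

/-- finitely many orbit points stay away from zero -/
theorem CEp.away (h : CEp d C₁ lam c) (k₀ : ℕ) :
    ∃ r : ℝ, 0 < r ∧ ∀ k, ‖zz d c k‖ < r → k₀ ≤ k := by
  induction k₀ with
  | zero => exact ⟨1, one_pos, fun k _ => Nat.zero_le k⟩
  | succ k₀ ih =>
    obtain ⟨r, hr, H⟩ := ih
    have h1 : 0 < ‖zz d c k₀‖ := norm_pos_iff.mpr (h.zz_ne k₀)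
    refine ⟨min r ‖zz d c k₀‖, lt_min hr h1, fun k hk => ?_⟩
    have h2 := H k (hk.trans_le (min_le_left _ _))
    have h3 : k ≠ k₀ := by
      rintro rfl
      exact absurd (hk.trans_le (min_le_right _ _)) (lt_irrefl _)
    omega

/-- the degree constant for small scales -/
noncomputable def LC (d : ℕ) : ℝ := 3 * d * 16 ^ d

theorem LC_pos (hd : 2 ≤ d) : 0 < LC d := by
  have hdR : (2 : ℝ) ≤ d := by exact_mod_cast hd
  unfold LC
  positivity

/-- The constants for the majorant. -/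
structure Mj (d : ℕ) (C0 c0 θ τ A t : ℝ) (c : ℂ) (R₀ : ℝ) : Prop where
  G : MG C0 c0 θ τ A
  R0 : 0 < R₀
  t1 : 1 ≤ t
  hsum : ∀ R, 0 < R → R ≤ R₀ →
    ∑' i, (if ‖zz d c i‖ < 2 * R then
      ENNReal.ofReal (qq d c t i / ‖zz d c i‖ ^ al d) else 0) ≤ 1
  sum_all : ∃ X : ℝ, ∑' i, ENNReal.ofReal (qq d c t i / ‖zz d c i‖ ^ al d) ≤ ENNReal.ofReal X
  heps : ∀ R, 0 < R → R ≤ R₀ →
    ∑' k, (if ‖zz d c k‖ < 2 * R then
      ENNReal.ofReal (LB d * (A * θ ^ k) ^ 12 / t ^ k) else 0) ≤ 1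
  hsmall : ∀ k, ‖zz d c k‖ < 2 * R₀ → LC d * (A * θ ^ k) ≤ Pd d c (k + 1)
  hall : ∃ Y : ℝ, 0 < Y ∧ ∀ k, A * θ ^ k ≤ Y * Pd d c k
  hroot : ∃ Z r : ℝ, 0 < Z ∧ 0 < r ∧ r < 1 ∧ ∀ k, A * θ ^ k / Pd d c k ≤ Z * r ^ k

theorem CEp.exists_Mj (h : CEp d C₁ lam c) {C0 c0 : ℝ} (K : KC C0 c0) :
    ∃ θ τ A t R₀ : ℝ, Mj d C0 c0 θ τ A t c R₀ := by
  have hd := h.hd
  have hdR : (2 : ℝ) ≤ d := by exact_mod_cast hd
  have hl := h.lam1
  have hl0 : 0 < lam := by linarith
  have hC1 := h.C1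
  have hb0 := be_pos hd
  have hb1 := be_le_one hd
  have hLB := LB_pos hd
  have hLC := LC_pos hd
  set θ : ℝ := lam ^ (be d / 26 : ℝ) with hθ
  have hθ1 : 1 < θ := Real.one_lt_rpow hl (by positivity)
  have hθ0 : 0 < θ := by linarith
  have hθ26 : θ ^ 26 = lam ^ be d := by
    rw [hθ, ← Real.rpow_natCast, ← Real.rpow_mul hl0.le]
    congr 1
    push_cast
    ring
  have hθlam : θ < lam := by
    calc θ < lam ^ (1 : ℝ) := by
          rw [hθ]
          apply Real.rpow_lt_rpow_of_exponent_lt hl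
          linarith
      _ = lam := Real.rpow_one lam
  obtain ⟨τ, A, G⟩ := exists_MG K hθ1
  have hA := G.A1
  set t : ℝ := θ ^ 13 with ht
  have ht1 : 1 < t := one_lt_pow₀ hθ1 (by norm_num)
  have htt : t * t = lam ^ be d := by rw [ht, ← pow_add]; exact hθ26
  have hqb : ∀ i, qq d c t i / ‖zz d c i‖ ^ al d ≤ d * C₁ * (1 / t) ^ i := by
    intro i
    have h1 := h.exp (i + 1)
    have h2 := h.Pd_pos i
    have h2' := h.Pd_pos (i + 1)
    have h3 : 0 < ‖zz d c i‖ := norm_pos_iff.mpr (h.zz_ne i)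
    have h3a : 0 < ‖zz d c i‖ ^ al d := Real.rpow_pos_of_pos h3 _
    have h2b : 0 < Pd d c i ^ be d := Real.rpow_pos_of_pos h2 _
    have h4 : Pd d c (i + 1) ^ be d ≤ d * (‖zz d c i‖ ^ al d * Pd d c i ^ be d) := by
      rw [Pd_succ, Real.mul_rpow (by positivity) h2.le, Real.mul_rpow (by positivity) (by positivity),
        pow_rpow_be hd h3.le]
      have h5 : (d : ℝ) ^ be d ≤ d := rpow_be_le hd (by linarith)
      calc (d : ℝ) ^ be d * ‖zz d c i‖ ^ al d * Pd d c i ^ be d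
          ≤ d * ‖zz d c i‖ ^ al d * Pd d c i ^ be d := by gcongr
        _ = _ := by ring
    have h6 : (t * t) ^ i ≤ C₁ * Pd d c (i + 1) ^ be d := by
      rw [htt]
      calc (lam ^ be d) ^ i = (lam ^ i) ^ be d := by
            rw [← Real.rpow_natCast, ← Real.rpow_natCast, ← Real.rpow_mul hl0.le,
              ← Real.rpow_mul hl0.le, mul_comm]
        _ ≤ (C₁ * Pd d c (i + 1)) ^ be d := by
            apply Real.rpow_le_rpow (by positivity) _ hb0.le
            exact (pow_le_pow_right₀ hl.le (by omega)).trans h1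
        _ = C₁ ^ be d * Pd d c (i + 1) ^ be d := Real.mul_rpow (by linarith) h2'.le
        _ ≤ _ := by
            gcongr
            exact rpow_be_le hd hC1
    unfold qq
    rw [div_div, one_div, inv_pow, ← div_eq_mul_inv, div_le_div_iff₀ (by positivity) (by positivity)]
    calc t ^ i * t ^ i = (t * t) ^ i := by rw [mul_pow]
      _ ≤ C₁ * Pd d c (i + 1) ^ be d := h6
      _ ≤ C₁ * (d * (‖zz d c i‖ ^ al d * Pd d c i ^ be d)) := by gcongr
      _ = _ := by ring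
  have hr0 : 0 < 1 / t := by positivity
  have hr1 : 1 / t < 1 := by rw [div_lt_one (by positivity)]; exact ht1
  have hs0 : 0 < 1 / θ := by positivity
  have hs1 : 1 / θ < 1 := by rw [div_lt_one (by positivity)]; exact hθ1
  obtain ⟨k₁, hk₁⟩ := tail_geom (B := d * C₁) (r := 1 / t) (ε := 1) (by positivity) hr0 hr1 one_pos
  obtain ⟨k₂, hk₂⟩ := tail_geom (B := LB d * A ^ 12) (r := 1 / θ) (ε := 1) (by positivity) hs0 hs1
    one_pos
  have hθl : 0 < θ / lam := by positivity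
  have hθl1 : θ / lam < 1 := by
    rw [div_lt_one hl0]
    exact hθlam
  obtain ⟨k₃, hk₃⟩ := exists_pow_lt_of_lt_one (by positivity : 0 < 1 / (LC d * A * C₁)) hθl1
  obtain ⟨r, hr, hrk⟩ := h.away (max k₁ (max k₂ k₃))
  have hQ : ∀ k, A * θ ^ k / Pd d c k ≤ A * C₁ * (θ / lam) ^ k := by
    intro k
    have h1 := h.exp k
    have h2 := h.Pd_pos k
    rw [div_pow, div_le_iff₀ h2]
    calc A * θ ^ k = A * (θ ^ k / lam ^ k) * lam ^ k := by field_simp
      _ ≤ A * (θ ^ k / lam ^ k) * (C₁ * Pd d c k) := by gcongr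
      _ = _ := by ring
  refine ⟨θ, τ, A, t, r / 2, G, by positivity, ht1.le, ?_, ?_, ?_, ?_, ?_, ?_⟩
  · intro R hR hRr
    rw [← ENNReal.ofReal_one]
    refine hk₁ _ (fun i hi => ?_) _ (fun i _ => hqb i)
    exact (le_max_left _ _).trans (hrk i (by linarith))
  · refine ⟨d * C₁ * (1 - 1 / t)⁻¹, ?_⟩
    refine (ENNReal.tsum_le_tsum fun i => ENNReal.ofReal_le_ofReal (hqb i)).trans ?_
    rw [← ENNReal.ofReal_tsum_of_nonneg (fun n => by positivity)
      ((summable_geometric_of_lt_one hr0.le hr1).mul_left _), tsum_mul_left,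
      tsum_geometric_of_lt_one hr0.le hr1]
  · intro R hR hRr
    rw [← ENNReal.ofReal_one]
    refine hk₂ _ (fun i hi => ?_) _ (fun i _ => ?_)
    · exact (le_max_left _ _).trans ((le_max_right _ _).trans (hrk i (by linarith)))
    · apply le_of_eq
      rw [ht, one_div, inv_pow]
      field_simp
      ring
  · intro k hk
    have h1 := (le_max_right _ _).trans ((le_max_right _ _).trans (hrk k (by linarith)))
    have h2 := h.exp (k + 1)
    have h3 : (θ / lam) ^ k ≤ 1 / (LC d * A * C₁) :=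
      (pow_le_pow_of_le_one hθl.le hθl1.le h1).trans hk₃.le
    rw [div_pow, div_le_div_iff₀ (by positivity) (by positivity), one_mul] at h3
    have h4 : lam ^ k ≤ lam ^ (k + 1) := pow_le_pow_right₀ hl.le (by omega)
    have h5 : C₁ * (LC d * (A * θ ^ k)) ≤ C₁ * Pd d c (k + 1) := by
      calc C₁ * (LC d * (A * θ ^ k)) = θ ^ k * (LC d * A * C₁) := by ring
        _ ≤ lam ^ k := h3
        _ ≤ lam ^ (k + 1) := h4
        _ ≤ _ := h2
    exact le_of_mul_le_mul_left h5 (by positivity)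
  · refine ⟨A * C₁, by positivity, fun k => ?_⟩
    have h1 := hQ k
    have h2 := h.Pd_pos k
    rw [div_le_iff₀ h2] at h1
    refine h1.trans ?_
    have h3 : (θ / lam) ^ k ≤ 1 := pow_le_one₀ hθl.le hθl1.le
    calc A * C₁ * (θ / lam) ^ k * Pd d c k ≤ A * C₁ * 1 * Pd d c k := by gcongr
      _ = _ := by ring
  · exact ⟨A * C₁, θ / lam, by positivity, hθl, hθl1, hQ⟩

theorem Mj.small (hd : 2 ≤ d) {C0 c0 θ τ A t R₀ : ℝ} (J : Mj d C0 c0 θ τ A t c R₀)
    (hP : ∀ j, 0 < Pd d c j) {R : ℝ} (hR : 0 < R) (hRR : R ≤ R₀) (k : ℕ)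
    (hk : ‖zz d c k‖ < 2 * R) : 3 * R * (A * θ ^ k) / Pd d c k ≤ (R / 8) ^ d := by
  have hdR : (2 : ℝ) ≤ d := by exact_mod_cast hd
  have h1 := J.hsmall k (by linarith)
  rw [Pd_succ] at h1
  have h2 := hP k
  rw [div_le_iff₀ h2]
  have hpow : ‖zz d c k‖ ^ (d - 1) ≤ (2 * R) ^ (d - 1) := pow_le_pow_left₀ (norm_nonneg _) hk.le _
  have h3 : LC d * (A * θ ^ k) ≤ d * (2 * R) ^ (d - 1) * Pd d c k := by
    refine h1.trans ?_
    gcongr
  have h4 : R * (2 * R) ^ (d - 1) * 2 = 16 ^ d * (R / 8) ^ d := by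
    rw [← mul_pow, show 16 * (R / 8) = 2 * R by ring]
    calc R * (2 * R) ^ (d - 1) * 2 = (2 * R) ^ (d - 1) * (2 * R) := by ring
      _ = (2 * R) ^ d := by rw [← pow_succ]; congr 1; omega
  have h16 : (0 : ℝ) < 16 ^ d := by positivity
  have h5 : (3 * d * 16 ^ d) * (3 * R * (A * θ ^ k)) ≤
      (3 * d * 16 ^ d) * ((R / 8) ^ d * Pd d c k) := by
    have h6 := mul_le_mul_of_nonneg_left h3 (by positivity : 0 ≤ 3 * R)
    unfold LC at h6
    calc (3 * d * 16 ^ d) * (3 * R * (A * θ ^ k)) = 3 * R * (3 * d * 16 ^ d * (A * θ ^ k)) := by ring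
      _ ≤ 3 * R * (d * (2 * R) ^ (d - 1) * Pd d c k) := h6
      _ = (3 / 2) * d * (R * (2 * R) ^ (d - 1) * 2) * Pd d c k := by ring
      _ = (3 / 2) * d * (16 ^ d * (R / 8) ^ d) * Pd d c k := by rw [h4]
      _ ≤ 3 * d * (16 ^ d * (R / 8) ^ d) * Pd d c k := by
          gcongr
          norm_num
      _ = _ := by ring
  exact le_of_mul_le_mul_left h5 (by positivity)

end Pool.Agent.Y298.SH.CD
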