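import Mathlib
import Pool.Agent.Y298.CD.Def

/-!
# Summability outside the filled Julia set; bounds of the truncated iterates (all degrees)
-/

set_option autoImplicit false

open Set Filter Metric MeasureTheory

namespace Pool.Agent.Y298.SH.CD

open Pool.Agent.TH279.MD Pool.Agent.Y298.SH
open Pool.Agent.Y298.SH.CE (MG RR fam')
open Pool.Agent.W746.LD (Univ KC exists_KC)

variable {d : ℕ}

/-- points with unbounded orbit -/
def Esc (d : ℕ) (c x : ℂ) : Prop := ∃ n, 2 < ‖(f d c)^[n] x‖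

theorem Esc.grow (hd : 2 ≤ d) {c x : ℂ} (hc : ‖c‖ ≤ 2) (hx : 2 < ‖x‖) (n : ℕ) :
    2 + 2 ^ n * (‖x‖ - 2) ≤ ‖(f d c)^[n] x‖ := by
  induction n with
  | zero => simp
  | succ n ih =>
    rw [Function.iterate_succ_apply', pow_succ]
    set v := (f d c)^[n] x
    have h1 : (0 : ℝ) < 2 ^ n * (‖x‖ - 2) := by
      have : 0 < ‖x‖ - 2 := by linarith
      positivity
    have h2 := sq_le_f hd (c := c) (z := v) (by linarith)
    nlinarith

theorem Esc.far (hd : 2 ≤ d) {c x : ℂ} (hc : ‖c‖ ≤ 2) (hx : Esc d c x) (M : ℝ) :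
    ∃ N, ∀ n, N ≤ n → M < ‖(f d c)^[n] x‖ := by
  obtain ⟨n₀, hn₀⟩ := hx
  set v := (f d c)^[n₀] x with hv
  have hv0 : 0 < ‖v‖ - 2 := by linarith
  obtain ⟨m, hm⟩ := pow_unbounded_of_one_lt (M / (‖v‖ - 2)) (one_lt_two : (1 : ℝ) < 2)
  rw [div_lt_iff₀ hv0] at hm
  refine ⟨n₀ + m, fun n hn => ?_⟩
  have h1 := Esc.grow hd hc hn₀ (n - n₀)
  rw [← Function.iterate_add_apply, Nat.sub_add_cancel (by omega)] at h1
  have h2 : (2 : ℝ) ^ m ≤ 2 ^ (n - n₀) := pow_le_pow_right₀ (by norm_num) (by omega)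
  nlinarith

theorem Esc.ne (hd : 2 ≤ d) {c x : ℂ} (hb : ∀ j, ‖zz d c j‖ ≤ 2) (hx : Esc d c x) (n : ℕ) :
    (f d c)^[n] x ≠ 0 := by
  intro h0
  have hc : ‖c‖ ≤ 2 := hb 0
  obtain ⟨N, hN⟩ := hx.far hd hc 2
  have h1 := hN (N + (n + 1)) (by omega)
  rw [Function.iterate_add_apply, Function.iterate_succ_apply', h0] at h1
  have h2 : f d c 0 = c := by
    unfold f
    rw [zero_pow (by omega), zero_add]
  rw [h2] at h1
  exact absurd (hb N) (not_le.mpr h1)

theorem LE_ge (hd : 2 ≤ d) (c : ℂ) (φ : ℂ → ENNReal) (y : ℂ) :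
    φ y * ENNReal.ofReal (1 / ((d : ℝ) ^ 2 * ‖y‖ ^ (2 * (d - 1)))) ≤ LE d c φ (f d c y) := by
  have h1 : y ^ d = f d c y - c := by unfold f; ring
  rw [LE_root hd h1]
  gcongr
  have h2 := Finset.single_le_sum (f := fun ζ => φ (ζ * y)) (fun _ _ => bot_le) (one_mem_RU hd)
  simpa using h2

theorem sum_pull (hd : 2 ≤ d) {c y : ℂ} (hy : y ≠ 0) (h : ∑' m, UU d c m (f d c y) ≠ ⊤) :
    ∑' m, UU d c m y ≠ ⊤ := by
  have hy0 : 0 < ‖y‖ := norm_pos_iff.mpr hy
  have hdR : (2 : ℝ) ≤ d := by exact_mod_cast hd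
  intro htop
  apply h
  have h1 : (∑' m, UU d c m y) * ENNReal.ofReal (1 / ((d : ℝ) ^ 2 * ‖y‖ ^ (2 * (d - 1)))) ≤
      ∑' m, UU d c m (f d c y) := by
    rw [← ENNReal.tsum_mul_right]
    refine le_trans ?_ (ENNReal.tsum_comp_le_tsum_of_injective (f := fun m => m + 1)
      (fun a b hab => by simpa using hab) (fun m => UU d c m (f d c y)))
    apply ENNReal.tsum_le_tsum
    intro m
    rw [UU_succ]
    exact LE_ge hd c _ y
  rw [htop, ENNReal.top_mul (ENNReal.ofReal_pos.mpr (by positivity)).ne', top_le_iff] at h1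
  exact h1

/-- **Summability at escaping points.** -/
theorem Esc.sum (hd : 2 ≤ d) {C0 c0 : ℝ} (K : KC C0 c0) {c x : ℂ} (hb : ∀ j, ‖zz d c j‖ ≤ 2)
    (hx : Esc d c x) : ∑' m, UU d c m x ≠ ⊤ := by
  obtain ⟨N, hN⟩ := hx.far hd (hb 0) 6
  have h1 : ∑' m, UU d c m ((f d c)^[N] x) ≠ ⊤ :=
    sum_far K hd (hb 0) hb (hN N le_rfl).le
  have key : ∀ n, ∑' m, UU d c m ((f d c)^[n] x) ≠ ⊤ → ∑' m, UU d c m x ≠ ⊤ := by
    intro n
    induction n with
    | zero => exact fun h => h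
    | succ n ih =>
      intro h
      rw [Function.iterate_succ_apply'] at h
      exact ih (sum_pull hd (hx.ne hd hb n) h)
  exact key N h1

variable {C0 c0 θ τ A : ℝ}

/-- **No hits for the truncated operator.** -/
theorem psi_le (hd : 2 ≤ d) (G : MG C0 c0 θ τ A) (K : KC C0 c0) {c : ℂ} {R δ : ℝ} (hR : 0 < R)
    (hδ : 0 < δ)
    (hP : ∀ j, 0 < Pd d c j) {w : ℂ}
    (hno : ∀ j, zz d c j ∈ ball w (2 * R) → A * θ ^ j / Pd d c j * (2 * R) ≤ δ ^ d) {x : ℂ}
    (hx : ‖x - w‖ ≤ R / 8) (m : ℕ) :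
    ENNReal.ofReal (psi d δ c m w) ≤ ENNReal.ofReal (C0 ^ 2) * UU d c m x := by
  have hC := K.one_le
  obtain ⟨ι, _, g, hg, hgm, hup, hlow⟩ := fam' (d := d) hd c w (RR R τ) (G.RR_pos hR)
    (fun k => (G.RR_anti hR k).le) (fun y => ENNReal.ofReal (chi δ y)) (fun y => by
      rw [← ENNReal.ofReal_one]
      exact ENNReal.ofReal_le_ofReal (chi_le_one _ _)) m (by
        rintro j _ g hg hgj ⟨ζ, hζ, hT⟩ x hx hgx
        have hxz : x = zz d c j := by
          have h1 := hgj x (G.RR_ball hR j w hx)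
          rw [hgx] at h1
          exact h1.symm
        have H : HitAt d c w R τ j g := ⟨hg, hgj, by rwa [← hxz], by rwa [← hxz]⟩
        have h2 : δ < ‖ζ * rt d (g w - c)‖ := by
          by_contra hcon
          rw [chi_zero hδ (not_lt.mp hcon), ENNReal.ofReal_zero] at hT
          exact hT rfl
        rw [norm_mul, RU_norm hd hζ, one_mul] at h2
        have h3 : ‖rt d (g w - c)‖ ^ d = ‖g w - c‖ := by rw [← norm_pow, rt_pow hd]
        have h4 : δ ^ d < ‖g w - c‖ := by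
          rw [← h3]
          exact pow_lt_pow_left₀ h2 hδ.le (by omega)
        have hw : w ∈ ball w (RR R τ (j + 1)) := mem_ball_self (G.RR_pos hR _)
        have h5 := G.upper K hR H.univ hw H.mem
        rw [H.val] at h5
        have h6 := H.deriv_val G hR
        have hPj := hP j
        have h7 : ‖deriv g (zz d c j)‖ = 1 / Pd d c j := by
          rw [eq_div_iff hPj.ne']
          linarith
        have hzm : zz d c j ∈ ball w (2 * R) := ball_subset_ball (G.RR_le hR _) H.mem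
        have h8 := hno j hzm
        rw [mem_ball, dist_eq_norm] at hzm
        have hQ := QQ_pos G j
        rw [h7] at h5
        have h9 : A * θ ^ j * (1 / Pd d c j) * ‖w - zz d c j‖ ≤
            A * θ ^ j / Pd d c j * (2 * R) := by
          rw [mul_one_div, norm_sub_rev]
          have : 0 ≤ A * θ ^ j / Pd d c j := div_nonneg (by linarith) hPj.le
          exact mul_le_mul_of_nonneg_left hzm.le this
        linarith)
  rw [← LT_iter_ofReal hd hδ]
  have hxb : x ∈ ball w (RR R τ m) := mem_small G hR hx m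
  refine (hup _).trans ?_
  unfold UU
  refine le_trans ?_ (mul_le_mul_right (hlow (fun _ => 1) x hxb) _)
  rw [Finset.mul_sum]
  apply Finset.sum_le_sum
  intro i _
  rw [← mul_assoc, ← ENNReal.ofReal_mul (by positivity)]
  gcongr
  have hu : Univ (g i) w R :=
    (univ_branch (hg i) (hgm i)).mono (ball_subset_ball (G.RR_gt hR m).le)
  have h1 := (K.kdist (g i) w R hR hu x (by linarith)).2
  calc ‖deriv (g i) w‖ ^ 2 ≤ (C0 * ‖deriv (g i) x‖) ^ 2 := by gcongr
    _ = _ := by ring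

end Pool.Agent.Y298.SH.CD
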