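import Mathlib
import Pool.Agent.Y298.CD.Out

/-!
# Integral bounds near boundary points of the filled Julia set (all degrees)
-/

set_option autoImplicit false

open Set Filter Metric MeasureTheory

namespace Pool.Agent.Y298.SH.CD

open Pool.Agent.TH279.MD Pool.Agent.Y298.SH
open Pool.Agent.Y298.SH.CE (MG RR tree)
open Pool.Agent.W746.LD (Univ KC exists_KC)

variable {d : ℕ} {C0 c0 θ τ A t R₀ C₁ lam : ℝ} {c : ℂ}

/-- real `d`-th roots -/
noncomputable def dr (d : ℕ) (X : ℝ) : ℝ := X ^ ((d : ℝ)⁻¹)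

theorem dr_nonneg {X : ℝ} (hX : 0 ≤ X) : 0 ≤ dr d X := Real.rpow_nonneg hX _

theorem dr_pow (hd : 2 ≤ d) {X : ℝ} (hX : 0 ≤ X) : dr d X ^ d = X :=
  Real.rpow_inv_natCast_pow hX (by omega)

theorem le_dr_iff (hd : 2 ≤ d) {x X : ℝ} (hx : 0 ≤ x) (hX : 0 ≤ X) : x ≤ dr d X ↔ x ^ d ≤ X := by
  conv_rhs => rw [← dr_pow hd hX]
  exact (pow_le_pow_iff_left₀ hx (dr_nonneg hX) (by omega)).symm

theorem dr_le_iff (hd : 2 ≤ d) {x X : ℝ} (hx : 0 ≤ x) (hX : 0 ≤ X) : dr d X ≤ x ↔ X ≤ x ^ d := by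
  conv_rhs => rw [← dr_pow hd hX]
  exact (pow_le_pow_iff_left₀ (dr_nonneg hX) hx (by omega)).symm

theorem CEp.c_le (h : CEp d C₁ lam c) : ‖c‖ ≤ 2 := h.bd 0

/-- there are escaping points near every point of the critical orbit -/
theorem CEp.esc_near (h : CEp d C₁ lam c) (k : ℕ) {s : ℝ} (hs : 0 < s) :
    ∃ y ∈ ball (zz d c k) s, Esc d c y := by
  by_contra hcon
  push Not at hcon
  have hb : ∀ n, ∀ y ∈ ball (zz d c k) s, ‖(f d c)^[n] y‖ ≤ 2 := by
    intro n y hy
    have h1 := hcon y hy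
    unfold Esc at h1
    push Not at h1
    exact h1 n
  have hPk := h.Pd_pos k
  have hC1 := h.C1
  obtain ⟨n, hn⟩ := pow_unbounded_of_one_lt (C₁ * (4 / s * Pd d c k)) h.lam1
  have h1 := cauchy_iter (d := d) (c := c) hs (n := n) (hb n)
  have h2 := Pd_add d c n k
  have h3 := h.exp (n + k)
  have h4 : lam ^ n ≤ lam ^ (n + k) := pow_le_pow_right₀ h.lam1.le (by omega)
  have h5 : Pd d c (n + k) ≤ 4 / s * Pd d c k := by
    rw [h2]
    exact mul_le_mul_of_nonneg_right h1 hPk.le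
  nlinarith

theorem Esc_f {c y : ℂ} (h : Esc d c (f d c y)) : Esc d c y := by
  obtain ⟨n, hn⟩ := h
  exact ⟨n + 1, by rwa [Function.iterate_succ_apply]⟩

theorem Esc_iter {c y : ℂ} (m : ℕ) (h : Esc d c ((f d c)^[m] y)) : Esc d c y := by
  obtain ⟨n, hn⟩ := h
  exact ⟨n + m, by rwa [Function.iterate_add_apply]⟩

theorem f_rt (hd : 2 ≤ d) (c w : ℂ) : f d c (rt d (w - c)) = w := by
  unfold f
  rw [rt_pow hd]
  ring

/-- there are escaping points near the critical point -/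
theorem CEp.esc_zero (h : CEp d C₁ lam c) {s : ℝ} (hs : 0 < s) :
    ∃ y ∈ ball (0 : ℂ) s, Esc d c y := by
  have hd := h.hd
  obtain ⟨w, hw, hwe⟩ := h.esc_near 0 (s := s ^ d) (by positivity)
  rw [zz_zero, mem_ball, dist_eq_norm] at hw
  refine ⟨rt d (w - c), ?_, ?_⟩
  · rw [mem_ball_zero_iff]
    have h1 : ‖rt d (w - c)‖ ^ d = ‖w - c‖ := by rw [← norm_pow, rt_pow hd]
    rw [← h1] at hw
    exact (pow_lt_pow_iff_left₀ (norm_nonneg _) hs.le (by omega)).mp hw
  · apply Esc_f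
    rwa [f_rt hd]

theorem LE_iter_ge (hd : 2 ≤ d) (c : ℂ) (φ : ℂ → ENNReal) (k : ℕ) (y : ℂ)
    (hy : deriv ((f d c)^[k]) y ≠ 0) :
    φ y * ENNReal.ofReal (1 / ‖deriv ((f d c)^[k]) y‖ ^ 2) ≤ (LE d c)^[k] φ ((f d c)^[k] y) := by
  have hdR : (2 : ℝ) ≤ d := by exact_mod_cast hd
  induction k generalizing φ y with
  | zero => simp
  | succ k ih =>
    have h1 : deriv ((f d c)^[k + 1]) y = deriv ((f d c)^[k]) (f d c y) * (d * y ^ (d - 1)) := by
      have := deriv_iter_add d c k 1 y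
      rw [Function.iterate_one, deriv_f] at this
      rw [this]
    have h2 : deriv ((f d c)^[k]) (f d c y) ≠ 0 := by
      intro h0
      rw [h1, h0, zero_mul] at hy
      exact hy rfl
    have hy0 : y ≠ 0 := by
      rintro rfl
      rw [h1, zero_pow (by omega), mul_zero, mul_zero] at hy
      exact hy rfl
    have h3 := ih (LE d c φ) (f d c y) h2
    rw [Function.iterate_succ_apply, Function.iterate_succ_apply]
    refine le_trans ?_ h3
    have hy1 : 0 < ‖y‖ := norm_pos_iff.mpr hy0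
    have hd1 : 0 < ‖deriv ((f d c)^[k]) (f d c y)‖ := norm_pos_iff.mpr h2
    calc φ y * ENNReal.ofReal (1 / ‖deriv ((f d c)^[k + 1]) y‖ ^ 2)
        = (φ y * ENNReal.ofReal (1 / ((d : ℝ) ^ 2 * ‖y‖ ^ (2 * (d - 1))))) *
            ENNReal.ofReal (1 / ‖deriv ((f d c)^[k]) (f d c y)‖ ^ 2) := by
          rw [mul_assoc, ← ENNReal.ofReal_mul (by positivity), h1, norm_mul, norm_mul, norm_pow,
            Complex.norm_natCast]
          congr 2
          rw [mul_comm 2 (d - 1), pow_mul]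
          field_simp
      _ ≤ _ := by
          gcongr
          exact LE_ge hd c φ y

/-- bathtub bound for the kernel -/
theorem inv_int (hd : 2 ≤ d) : ∃ C : ℝ, 0 < C ∧ ∀ (z y : ℂ) (ρ : ℝ), 0 ≤ ρ →
    ∫⁻ x in closedBall y ρ, (ENNReal.ofReal (‖x - z‖ ^ al d))⁻¹ ≤ ENNReal.ofReal (C * ρ ^ be d) := by
  obtain ⟨C, hC, H⟩ := Pool.Agent.TH279.MD.area_rpow (al d) (al_pos hd) (al_lt hd)
  have hb := be_pos hd
  refine ⟨C * Real.pi ^ (be d / 2), by positivity, ?_⟩
  intro z y ρ hρ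
  have h1 := H z (closedBall y ρ) (ρ ^ 2 * Real.pi) measurableSet_closedBall (by positivity) (by
    rw [Complex.volume_closedBall, ENNReal.ofReal_mul (by positivity), ← ENNReal.ofReal_pow hρ]
    gcongr
    rw [← NNReal.coe_real_pi, ENNReal.ofReal_coe_nnreal])
  have h2 : (ρ ^ 2 * Real.pi) ^ ((1 : ℝ) - al d / 2) = ρ ^ be d * Real.pi ^ (be d / 2) := by
    have h0 : (1 : ℝ) - al d / 2 = be d / 2 := by rw [al_be]; ring
    rw [h0, Real.mul_rpow (by positivity) Real.pi_pos.le, ← Real.rpow_natCast ρ 2,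
      ← Real.rpow_mul hρ]
    congr 2
    push_cast
    ring
  rw [h2] at h1
  have h3 : ∫⁻ x in closedBall y ρ, (ENNReal.ofReal (‖x - z‖ ^ al d))⁻¹ =
      ∫⁻ x in closedBall y ρ, ENNReal.ofReal (1 / ‖x - z‖ ^ al d) := by
    apply lintegral_congr_ae
    have h4 : ∀ᵐ x : ℂ, x ≠ z := by
      rw [ae_iff]
      simp
    filter_upwards [ae_restrict_of_ae h4] with x hx
    have h5 : 0 < ‖x - z‖ := norm_pos_iff.mpr (sub_ne_zero.mpr hx)
    have h6 : 0 < ‖x - z‖ ^ al d := Real.rpow_pos_of_pos h5 _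
    rw [one_div, ENNReal.ofReal_inv_of_pos h6]
  rw [h3]
  refine h1.trans (ENNReal.ofReal_le_ofReal (le_of_eq ?_))
  ring

theorem measurable_tt (d : ℕ) (c : ℂ) (t R : ℝ) (i : ℕ) : Measurable (tt d c t R i) := by
  unfold tt
  by_cases h : ‖zz d c i‖ < 2 * R
  · simp only [if_pos h]
    exact ((ENNReal.measurable_ofReal.comp
      ((continuous_id.sub continuous_const).norm.measurable.pow_const _)).inv).const_mul _
  · simp only [if_neg h]
    exact measurable_const

theorem measurable_Ps (d : ℕ) (c : ℂ) (t R : ℝ) : Measurable (Ps d c t R) :=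
  Measurable.ennreal_tsum fun i => measurable_tt d c t R i

theorem measurable_SU (d : ℕ) (c : ℂ) (M : ℕ) : Measurable (SU d c M) := by
  unfold SU
  exact Finset.measurable_fun_sum _ fun n _ => measurable_LE_iter n measurable_const

/-- integral of the majorant over balls around the critical point -/
theorem Mj.int_Ps (h : CEp d C₁ lam c) (J : Mj d C0 c0 θ τ A t c R₀) : ∃ C : ℝ, 0 < C ∧
    ∀ R : ℝ, ∀ ρ : ℝ, 0 ≤ ρ → ρ ≤ 1 →
      ∫⁻ x in closedBall (0 : ℂ) ρ, (1 + Ps d c t R x) ≤ ENNReal.ofReal (C * ρ ^ be d) := by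
  have hd := h.hd
  obtain ⟨Ci, hCi, HC⟩ := inv_int hd
  obtain ⟨X, hX⟩ := J.sum_all
  have ht0 : 0 < t := lt_of_lt_of_le one_pos J.t1
  have hb := be_pos hd
  refine ⟨4 + 4 * (|X| + 1) * Ci, by positivity, ?_⟩
  intro R ρ hρ hρ1
  rw [lintegral_add_left measurable_const]
  have hρb : 0 ≤ ρ ^ be d := Real.rpow_nonneg hρ _
  have h1 : ∫⁻ x in closedBall (0 : ℂ) ρ, (1 : ENNReal) ≤ ENNReal.ofReal (4 * ρ ^ be d) := by
    rw [lintegral_one, Measure.restrict_apply_univ, Complex.volume_closedBall,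
      ENNReal.ofReal_mul (by norm_num), ← ENNReal.ofReal_pow hρ]
    have h2 : (NNReal.pi : ENNReal) ≤ ENNReal.ofReal 4 := by
      rw [← ENNReal.ofReal_coe_nnreal, NNReal.coe_real_pi]
      exact ENNReal.ofReal_le_ofReal Real.pi_le_four
    rw [mul_comm]
    gcongr
    have h3 : ρ ^ (2 : ℝ) ≤ ρ ^ be d :=
      Real.rpow_le_rpow_of_exponent_ge' hρ hρ1 hb.le (by linarith [be_le_one hd])
    rwa [Real.rpow_two] at h3
  have h2 : ∫⁻ x in closedBall (0 : ℂ) ρ, Ps d c t R x ≤
      ENNReal.ofReal (4 * (|X| + 1) * (Ci * ρ ^ be d)) := by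
    unfold Ps
    rw [lintegral_tsum (fun i => (measurable_tt d c t R i).aemeasurable)]
    have h3 : ∀ i, ∫⁻ x in closedBall (0 : ℂ) ρ, tt d c t R i x ≤
        (ENNReal.ofReal 4 * ENNReal.ofReal (qq d c t i / ‖zz d c i‖ ^ al d)) *
          ENNReal.ofReal (Ci * ρ ^ be d) := by
      intro i
      unfold tt
      by_cases hi : ‖zz d c i‖ < 2 * R
      · simp only [if_pos hi]
        rw [lintegral_const_mul' _ _ ENNReal.ofReal_ne_top]
        refine mul_le_mul' ?_ (HC _ _ _ hρ)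
        rw [← ENNReal.ofReal_mul (by norm_num)]
        apply ENNReal.ofReal_le_ofReal
        have h4 : 0 < ‖zz d c i‖ := norm_pos_iff.mpr (h.zz_ne i)
        have h4a : 0 < ‖zz d c i‖ ^ al d := Real.rpow_pos_of_pos h4 _
        have h5 := h.bd i
        have h6 := qq_pos ht0 h.Pd_pos i
        have h7 : ‖zz d c i‖ ^ al d ≤ 4 := by
          calc ‖zz d c i‖ ^ al d ≤ 2 ^ al d := Real.rpow_le_rpow h4.le h5 (al_pos hd).le
            _ ≤ 2 ^ 2 := rpow_al_le hd (by norm_num)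
            _ = 4 := by norm_num
        rw [mul_div_assoc', le_div_iff₀ h4a]
        nlinarith
      · simp only [if_neg hi, lintegral_zero]
        exact bot_le
    refine (ENNReal.tsum_le_tsum h3).trans ?_
    rw [ENNReal.tsum_mul_right, ENNReal.tsum_mul_left]
    calc ENNReal.ofReal 4 * (∑' i, ENNReal.ofReal (qq d c t i / ‖zz d c i‖ ^ al d)) *
          ENNReal.ofReal (Ci * ρ ^ be d)
        ≤ ENNReal.ofReal 4 * ENNReal.ofReal (|X| + 1) * ENNReal.ofReal (Ci * ρ ^ be d) := by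
          gcongr
          refine hX.trans (ENNReal.ofReal_le_ofReal ?_)
          linarith [le_abs_self X]
      _ = _ := by
          rw [← ENNReal.ofReal_mul (by norm_num), ← ENNReal.ofReal_mul (by positivity)]
  calc _ ≤ ENNReal.ofReal (4 * ρ ^ be d) + ENNReal.ofReal (4 * (|X| + 1) * (Ci * ρ ^ be d)) :=
        add_le_add h1 h2
    _ = _ := by
        rw [← ENNReal.ofReal_add (by positivity) (by positivity)]
        congr 1
        ring

/-- **Local integrability of the Green function near the boundary.** -/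
theorem Mj.tree_int (h : CEp d C₁ lam c) (K : KC C0 c0) (J : Mj d C0 c0 θ τ A t c R₀) :
    ∃ R₁ : ℝ, 0 < R₁ ∧ ∀ w x' : ℂ, ‖x' - w‖ ≤ R₁ / 8 → Esc d c x' →
      ∃ C : ENNReal, C ≠ ⊤ ∧ ∀ M, ∫⁻ x in closedBall w (R₁ / 8), SU d c M x ≤ C := by
  have hd := h.hd
  have hdR : (2 : ℝ) ≤ d := by exact_mod_cast hd
  have hb := be_pos hd
  have hP := h.Pd_pos
  have G := J.G
  have hR₀ := J.R0
  obtain ⟨Y, hY0, hY⟩ := J.hall
  obtain ⟨Z, r, hZ, hr0, hr1, hroot⟩ := J.hroot
  obtain ⟨CP, hCP, HP⟩ := J.int_Ps h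
  obtain ⟨x₀, hx₀, hx₀e⟩ := h.esc_zero (s := R₀ / 8) (by positivity)
  rw [mem_ball_zero_iff] at hx₀
  set κ : ENNReal := ENNReal.ofReal (C0 ^ 4) * ∑' j, UU d c j x₀ with hκ
  have hκt : κ ≠ ⊤ := ENNReal.mul_ne_top ENNReal.ofReal_ne_top (hx₀e.sum hd K h.bd)
  have hmaj : ∀ M y, ‖y‖ ≤ R₀ / 8 → SU d c M y ≤ κ * (1 + Ps d c t R₀ y) := fun M =>
    majorant hd G K hR₀ J.t1 hP h.zz_ne (J.hsum R₀ hR₀ le_rfl)
      (fun k hk => J.small hd hP hR₀ le_rfl k hk)
      (J.heps R₀ hR₀ le_rfl) hx₀.le M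
  set R₁ : ℝ := min 1 (min (1 / (3 * Y)) ((R₀ / 8) ^ d / (3 * Y))) with hR₁
  have hR₁0 : 0 < R₁ := by positivity
  have hR₁1 : 3 * R₁ * Y ≤ 1 := by
    have : R₁ ≤ 1 / (3 * Y) := (min_le_right _ _).trans (min_le_left _ _)
    rw [le_div_iff₀ (by positivity)] at this
    linarith
  have hR₁2 : 3 * R₁ * Y ≤ (R₀ / 8) ^ d := by
    have : R₁ ≤ (R₀ / 8) ^ d / (3 * Y) := (min_le_right _ _).trans (min_le_right _ _)
    rw [le_div_iff₀ (by positivity)] at this
    linarith
  set ρ : ℕ → ℝ := fun k => dr d (3 * R₁ * (A * θ ^ k) / Pd d c k) with hρ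
  have hQ := QQ_pos G
  have harg0 : ∀ k, 0 ≤ 3 * R₁ * (A * θ ^ k) / Pd d c k := fun k => by
    have := hP k
    have := hQ k
    positivity
  have hargY : ∀ k, 3 * R₁ * (A * θ ^ k) / Pd d c k ≤ 3 * R₁ * Y := by
    intro k
    rw [div_le_iff₀ (hP k)]
    have := hY k
    nlinarith
  have hρ1 : ∀ k, ρ k ≤ 1 := fun k => by
    rw [hρ]
    beta_reduce
    rw [dr_le_iff hd zero_le_one (harg0 k), one_pow]
    exact (hargY k).trans hR₁1
  have hρ2 : ∀ k, ρ k ≤ R₀ / 8 := fun k => by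
    rw [hρ]
    beta_reduce
    rw [dr_le_iff hd (by positivity) (harg0 k)]
    exact (hargY k).trans hR₁2
  have hρ0 : ∀ k, 0 ≤ ρ k := fun k => dr_nonneg (harg0 k)
  -- the functions
  set S' : ℂ → ENNReal := fun v => ∑' n, UU d c n v with hS'
  have hS'm : Measurable S' := Measurable.ennreal_tsum fun n => measurable_LE_iter n measurable_const
  have hS'b : ∀ v, ‖v‖ ≤ R₀ / 8 → S' v ≤ κ * (1 + Ps d c t R₀ v) := by
    intro v hv
    rw [hS']
    beta_reduce
    rw [ENNReal.tsum_eq_iSup_nat]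
    exact iSup_le fun M => hmaj M v hv
  set D : ℕ → Set ℂ := fun k => closedBall c (3 * R₁ * (A * θ ^ k) / Pd d c k) with hD
  set B : ℕ → ℂ → ENNReal := fun k => (LE d c)^[k] ((D k).indicator (LE d c S')) with hB
  have hBm : ∀ k, Measurable (B k) := fun k =>
    measurable_LE_iter k ((measurable_LE hS'm).indicator measurableSet_closedBall)
  have hBint : ∀ k, ∫⁻ x, B k x ≤ κ * ENNReal.ofReal (CP * ρ k ^ be d) := by
    intro k
    have h1 := dual_iter (d := d) hd c k (S := univ) MeasurableSet.univ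
      (ψ := (D k).indicator (LE d c S')) ((measurable_LE hS'm).indicator measurableSet_closedBall)
    rw [preimage_univ, setLIntegral_univ, setLIntegral_univ,
      lintegral_indicator measurableSet_closedBall,
      ← dualE hd c measurableSet_closedBall hS'm] at h1
    rw [hB]
    beta_reduce
    rw [← h1]
    have h2 : f d c ⁻¹' D k = closedBall 0 (ρ k) := by
      ext y
      have h3 : f d c y - c = y ^ d := by unfold f; ring
      rw [mem_preimage, hD, mem_closedBall, mem_closedBall, dist_eq_norm, dist_zero_right, h3,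
        norm_pow, hρ]
      beta_reduce
      rw [le_dr_iff hd (norm_nonneg _) (harg0 k)]
    rw [h2]
    calc ∫⁻ x in closedBall 0 (ρ k), S' x
        ≤ ∫⁻ x in closedBall 0 (ρ k), κ * (1 + Ps d c t R₀ x) := by
          apply setLIntegral_mono' measurableSet_closedBall
          intro x hx
          rw [mem_closedBall_zero_iff] at hx
          exact hS'b x (hx.trans (hρ2 k))
      _ = κ * ∫⁻ x in closedBall 0 (ρ k), (1 + Ps d c t R₀ x) := lintegral_const_mul' _ _ hκt
      _ ≤ _ := by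
          gcongr
          exact HP R₀ (ρ k) (hρ0 k) (hρ1 k)
  have hsumB : ∑' k, κ * ENNReal.ofReal (CP * ρ k ^ be d) ≠ ⊤ := by
    rw [ENNReal.tsum_mul_left]
    apply ENNReal.mul_ne_top hκt
    set e : ℝ := (d : ℝ)⁻¹ * be d with he
    have he0 : 0 < e := by positivity
    have h1 : ∀ k, CP * ρ k ^ be d ≤ CP * (3 * R₁ * Z) ^ e * (r ^ e) ^ k := by
      intro k
      have h2 : ρ k ^ be d = (3 * R₁ * (A * θ ^ k) / Pd d c k) ^ e := by
        rw [hρ]
        beta_reduce
        unfold dr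
        rw [← Real.rpow_mul (harg0 k)]
      rw [h2, mul_assoc CP]
      gcongr
      have h3 : (3 * R₁ * Z) ^ e * (r ^ e) ^ k = (3 * R₁ * Z * r ^ k) ^ e := by
        have h4 : (r ^ e) ^ k = (r ^ k) ^ e := by
          rw [← Real.rpow_natCast (r ^ e) k,
            ← Real.rpow_natCast r k, ← Real.rpow_mul hr0.le, ← Real.rpow_mul hr0.le, mul_comm e]
        rw [h4, ← Real.mul_rpow (by positivity) (by positivity)]
      rw [h3]
      apply Real.rpow_le_rpow (harg0 k) _ he0.le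
      have := hroot k
      calc 3 * R₁ * (A * θ ^ k) / Pd d c k = 3 * R₁ * (A * θ ^ k / Pd d c k) := by ring
        _ ≤ 3 * R₁ * (Z * r ^ k) := by gcongr
        _ = _ := by ring
    have hre0 : 0 < r ^ e := Real.rpow_pos_of_pos hr0 _
    have hre1 : r ^ e < 1 := Real.rpow_lt_one hr0.le hr1 he0
    refine ne_top_of_le_ne_top ?_ (ENNReal.tsum_le_tsum fun k => ENNReal.ofReal_le_ofReal (h1 k))
    rw [← ENNReal.ofReal_tsum_of_nonneg (fun n => by positivity)
      ((summable_geometric_of_lt_one hre0.le hre1).mul_left _)]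
    exact ENNReal.ofReal_ne_top
  refine ⟨R₁, hR₁0, ?_⟩
  intro w x' hx' hx'e
  have hx's := hx'e.sum hd K h.bd
  have hC := K.one_le
  refine ⟨(ENNReal.ofReal (C0 ^ 4) * ∑' j, UU d c j x') * volume (closedBall w (R₁ / 8)) +
    ∑' k, κ * ENNReal.ofReal (CP * ρ k ^ be d), ?_, ?_⟩
  · apply ENNReal.add_ne_top.mpr
    refine ⟨ENNReal.mul_ne_top (ENNReal.mul_ne_top ENNReal.ofReal_ne_top hx's) ?_, hsumB⟩
    exact (isCompact_closedBall _ _).measure_lt_top.ne
  intro M
  have hpt : ∀ x ∈ closedBall w (R₁ / 8), SU d c M x ≤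
      ENNReal.ofReal (C0 ^ 4) * ∑' j, UU d c j x' + ∑' k, B k x := by
    intro x hx
    rw [mem_closedBall, dist_eq_norm] at hx
    obtain ⟨ι, _, g, -, -, -, -, hmain⟩ := tree (d := d) hd c w x' (RR R₁ τ)
      (G.RR_pos hR₁0) (fun k => (G.RR_anti hR₁0 k).le) (S := SU d c) (SU_succ d c)
      B {x | ‖x - w‖ ≤ R₁ / 8}
      (fun k y hy => mem_small G hR₁0 hy k)
      (fun k => mem_small G hR₁0 hx' k) (C0 ^ 4)
      (fun k g hg hgk x hx => small_dist G K hR₁0 hg hgk hx hx')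
      (by positivity) M (by
        intro k hk g hg hgk hmem hval y hy
        have H : HitAt d c w R₁ τ k g := ⟨hg, hgk, hmem, hval⟩
        have hyb := mem_small G hR₁0 hy k
        obtain ⟨E1, E2, E3, E4, E5⟩ := H.est G K hR₁0 (hP k) hy
          (h := rt d (g y - c)) (rt_pow hd _)
        have h1 : g y ∈ D k := by
          rw [hD, mem_closedBall, dist_eq_norm]
          rw [← norm_pow, rt_pow hd] at E4
          exact E4
        have h2 := branch_deriv hg hgk hyb
        have h3 : deriv ((f d c)^[k]) (g y) ≠ 0 := by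
          intro h0
          rw [h0, norm_zero, zero_mul] at h2
          exact zero_ne_one h2
        have h4 := LE_iter_ge hd c ((D k).indicator (LE d c S')) k (g y) h3
        rw [hgk y hyb, indicator_of_mem h1] at h4
        refine le_trans ?_ h4
        rw [mul_comm]
        have h5 : ‖deriv g y‖ ^ 2 = 1 / ‖deriv ((f d c)^[k]) (g y)‖ ^ 2 := by
          have h6 : 0 < ‖deriv ((f d c)^[k]) (g y)‖ := norm_pos_iff.mpr h3
          rw [eq_div_iff (by positivity), ← mul_pow, mul_comm, h2, one_pow]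
        rw [h5]
        gcongr
        apply LE_mono
        intro v
        exact ENNReal.sum_le_tsum _)
      M le_rfl
    refine (hmain x hx).trans ?_
    have e1 : ∀ x, SU d c (M - M) x = 0 := by
      intro x
      rw [Nat.sub_self]
      rfl
    simp only [e1, mul_zero, Finset.sum_const_zero, add_zero]
    gcongr
    · exact ENNReal.sum_le_tsum _
    · exact ENNReal.sum_le_tsum _
  calc ∫⁻ x in closedBall w (R₁ / 8), SU d c M x
      ≤ ∫⁻ x in closedBall w (R₁ / 8), (ENNReal.ofReal (C0 ^ 4) * ∑' j, UU d c j x' +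
          ∑' k, B k x) := setLIntegral_mono' measurableSet_closedBall hpt
    _ = (ENNReal.ofReal (C0 ^ 4) * ∑' j, UU d c j x') * volume (closedBall w (R₁ / 8)) +
          ∫⁻ x in closedBall w (R₁ / 8), ∑' k, B k x := by
        rw [lintegral_add_left measurable_const, setLIntegral_const]
    _ ≤ _ := by
        gcongr
        rw [lintegral_tsum (fun k => (hBm k).aemeasurable)]
        apply ENNReal.tsum_le_tsum
        intro k
        exact (setLIntegral_le_lintegral _ _).trans (hBint k)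

end Pool.Agent.Y298.SH.CD
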