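import Mathlib
import Pool.Agent.Y298.CD.Lay
import Pool.Agent.Y298.CE.Hole

/-!
# The filled Julia set of a Collet-Eckmann parameter has empty interior and zero area
-/

set_option autoImplicit false

open Set Filter Metric MeasureTheory

namespace Pool.Agent.Y298.SH.CD

open Pool.Agent.TH279.MD Pool.Agent.Y298.SH
open Pool.Agent.Y298.SH.CE (MG RR tree grow_pt lint_biUnion)
open Pool.Agent.W746.LD (Univ KC exists_KC)

variable {d : ℕ}

/-- the inverse branch through a given point -/
theorem branch_at (hd : 2 ≤ d) {c : ℂ} {y : ℂ} {r : ℝ} (hr : 0 < r) (n : ℕ)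
    (hno : ∀ k < n, zz d c k ∉ ball y r) : ∀ x : ℂ, (f d c)^[n] x = y →
    ∃ g : ℂ → ℂ, DifferentiableOn ℂ g (ball y r) ∧ (∀ v ∈ ball y r, (f d c)^[n] (g v) = v) ∧
      g y = x := by
  induction n with
  | zero =>
    intro x hx
    exact ⟨fun v => v, differentiableOn_id, fun v _ => rfl, hx.symm⟩
  | succ n ih =>
    intro x hx
    rw [Function.iterate_succ_apply] at hx
    obtain ⟨g, hg1, hg2, hg3⟩ := ih (fun k hk => hno k (by omega)) _ hx
    have hgc : ∀ v ∈ ball y r, g v ≠ c := by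
      intro v hv hgv
      apply hno n (by omega)
      have := hg2 v hv
      rw [hgv] at this
      unfold zz
      rw [this]
      exact hv
    obtain ⟨h, hh1, hh2, hh3⟩ := exists_root_ball hd hr (hg1.sub_const c)
      (fun v hv => sub_ne_zero.mpr (hgc v hv))
    have hyb : y ∈ ball y r := mem_ball_self hr
    have h1 : h y ^ d = x ^ d := by
      rw [hh2 y hyb, hg3]
      unfold f
      ring
    have h0 := hh3 y hyb
    have hω : (x / h y) ^ d = 1 := by
      rw [div_pow, h1, div_self]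
      rw [← h1]
      exact pow_ne_zero d h0
    refine ⟨fun v => (x / h y) * h v, hh1.const_mul _, ?_, ?_⟩
    · intro v hv
      beta_reduce
      rw [Function.iterate_succ_apply]
      have h2 : f d c (x / h y * h v) = g v := by
        unfold f
        rw [mul_pow, hω, one_mul, hh2 v hv]
        ring
      rw [h2, hg2 v hv]
    · beta_reduce
      field_simp

variable {C₁ lam : ℝ} {c : ℂ}

/-- **The filled Julia set has empty interior.** -/
theorem CEp.esc_dense (h : CEp d C₁ lam c) (x : ℂ) {s : ℝ} (hs : 0 < s) :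
    ∃ y ∈ ball x s, Esc d c y := by
  by_contra hcon
  push Not at hcon
  have hd := h.hd
  obtain ⟨C0, c0, K⟩ := exists_KC
  obtain ⟨θ, τ, A, t, R₀, J⟩ := h.exists_Mj K
  obtain ⟨R₁, hR₁, HT⟩ := J.tree_int h K
  have hc0 := K.pos
  set Ω : Set ℂ := {x | ∃ s > 0, ∀ y ∈ ball x s, ¬ Esc d c y} with hΩ
  have hxΩ : x ∈ Ω := ⟨s, hs, hcon⟩
  have hΩo : IsOpen Ω := by
    rw [Metric.isOpen_iff]
    rintro v ⟨s, hs, hv⟩
    refine ⟨s / 2, by positivity, fun u hu => ⟨s / 2, by positivity, fun y hy => hv y ?_⟩⟩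
    rw [mem_ball] at *
    linarith [dist_triangle y u v]
  have hcl : IsClosed Ωᶜ := hΩo.isClosed_compl
  have h0 : (0 : ℂ) ∈ Ωᶜ := by
    rintro ⟨s, hs, hv⟩
    obtain ⟨y, hy, hye⟩ := h.esc_zero hs
    exact hv y hy hye
  have hne : Ωᶜ.Nonempty := ⟨0, h0⟩
  have hzΩ : ∀ k, zz d c k ∉ Ω := by
    rintro k ⟨s, hs, hv⟩
    obtain ⟨y, hy, hye⟩ := h.esc_near k hs
    exact hv y hy hye
  set T : ℂ → ℝ := fun y => infDist y Ωᶜ with hT
  have hTpos : ∀ y ∈ Ω, 0 < T y := fun y hy =>
    (hcl.notMem_iff_infDist_pos hne).mp (fun h => h hy)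
  have hTball : ∀ y : ℂ, ball y (T y) ⊆ Ω := by
    intro y z hz
    by_contra hzn
    have h1 : T y ≤ dist y z := infDist_le_dist_of_mem hzn
    rw [mem_ball, dist_comm] at hz
    linarith
  have hTlip : ∀ y z : ℂ, T y ≤ T z + dist y z := fun y z => infDist_le_infDist_add_dist
  have hmemΩ : ∀ v ∈ Ω, ¬ Esc d c v := by
    rintro v ⟨s, hs, hv⟩
    exact hv v (mem_ball_self hs)
  have hbd : ∀ n, ∀ y ∈ Ω, ‖(f d c)^[n] y‖ ≤ 2 := by
    intro n y hy
    have h1 := hmemΩ y hy
    unfold Esc at h1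
    push Not at h1
    exact h1 n
  have hpre : ∀ n, ∀ u : ℂ, (f d c)^[n] u ∈ Ω → u ∈ Ω := by
    rintro n u ⟨s, hs, hv⟩
    have h1 := (continuous_fn d c n).continuousAt (x := u)
    obtain ⟨δ, hδ, h2⟩ := Metric.continuousAt_iff.mp h1 s hs
    refine ⟨δ, hδ, fun y hy hye => ?_⟩
    apply hv _ (h2 hy)
    obtain ⟨N, hN⟩ := hye.far hd h.c_le 2
    exact ⟨N, by rw [← Function.iterate_add_apply]; exact hN _ (by omega)⟩
  set R' : ℝ := R₁ / 16 with hR'
  have hR'0 : 0 < R' := by positivity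
  set L : Set ℂ := {w | ‖w‖ ≤ 2 ∧ T w < R'} with hL
  have hTc : Continuous T := continuous_infDist_pt _
  have hLm : MeasurableSet L :=
    (measurableSet_le measurable_norm measurable_const).inter
      (measurableSet_lt hTc.measurable measurable_const)
  -- local bounds
  have hloc : ∀ w : ℂ, ∃ C : ENNReal, C ≠ ⊤ ∧ ∀ M, ∫⁻ x in L ∩ ball w R', SU d c M x ≤ C := by
    intro w
    by_cases hA : ∃ x' : ℂ, ‖x' - w‖ ≤ R₁ / 8 ∧ Esc d c x'
    · obtain ⟨x', hx'1, hx'2⟩ := hA
      obtain ⟨C, hC, H⟩ := HT w x' hx'1 hx'2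
      refine ⟨C, hC, fun M => (lintegral_mono_set ?_).trans (H M)⟩
      refine inter_subset_right.trans (ball_subset_closedBall.trans (closedBall_subset_closedBall ?_))
      rw [hR']
      linarith
    · push Not at hA
      refine ⟨0, by simp, fun M => ?_⟩
      have hemp : L ∩ ball w R' = ∅ := by
        rw [eq_empty_iff_forall_notMem]
        rintro v ⟨⟨-, hv1⟩, hv2⟩
        rw [mem_ball] at hv2
        have h1 : ball v R' ⊆ Ω := by
          intro u hu
          rw [mem_ball] at hu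
          have hd : dist u w < R₁ / 8 := by
            have := dist_triangle u v w
            rw [hR'] at *
            linarith
          refine ⟨R₁ / 8 - dist u w, by linarith, fun y hy => hA y ?_⟩
          rw [mem_ball] at hy
          rw [← dist_eq_norm]
          linarith [dist_triangle y u w]
        have h2 : R' ≤ T v := by
          rw [hT]
          beta_reduce
          rw [le_infDist hne]
          intro z hz
          by_contra hlt
          rw [not_le] at hlt
          exact hz (h1 (by rw [mem_ball, dist_comm]; exact hlt))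
        linarith
      rw [hemp]
      simp
  choose CL hCL1 hCL2 using hloc
  obtain ⟨F, hF⟩ := (isCompact_closedBall (0 : ℂ) 2).elim_finite_subcover (fun w : ℂ => ball w R')
    (fun w => isOpen_ball) (fun w _ => mem_iUnion.mpr ⟨w, mem_ball_self hR'0⟩)
  set CC : ENNReal := ∑ w ∈ F, CL w with hCC
  have hCCt : CC ≠ ⊤ := ENNReal.sum_ne_top.mpr fun w _ => hCL1 w
  have hLint : ∀ M, ∫⁻ x in L, SU d c M x ≤ CC := by
    intro M
    have h1 : L ⊆ ⋃ w ∈ F, L ∩ ball w R' := by
      intro v hv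
      have h2 := hF (mem_closedBall_zero_iff.mpr hv.1)
      simp only [mem_iUnion] at h2 ⊢
      obtain ⟨w, hw, hvw⟩ := h2
      exact ⟨w, hw, hv, hvw⟩
    calc ∫⁻ x in L, SU d c M x ≤ ∫⁻ x in ⋃ w ∈ F, L ∩ ball w R', SU d c M x := lintegral_mono_set h1
      _ ≤ ∑ w ∈ F, ∫⁻ x in L ∩ ball w R', SU d c M x := lint_biUnion F _ _
      _ ≤ _ := Finset.sum_le_sum fun w _ => hCL2 w M
  have hvol : ∀ ε : ENNReal, ε ≠ 0 → ∃ n, volume ((f d c)^[n] ⁻¹' L) < ε := by
    intro ε hε
    by_contra hcon2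
    push Not at hcon2
    have h1 : ∀ M : ℕ, (M : ENNReal) * ε ≤ CC := by
      intro M
      calc (M : ENNReal) * ε = ∑ n ∈ Finset.range M, ε := by simp
        _ ≤ ∑ n ∈ Finset.range M, volume ((f d c)^[n] ⁻¹' L) :=
            Finset.sum_le_sum fun n _ => hcon2 n
        _ = ∑ n ∈ Finset.range M, ∫⁻ x in L, UU d c n x :=
            Finset.sum_congr rfl fun n _ => vol_iter hd c n hLm
        _ = ∫⁻ x in L, SU d c M x := by
            unfold SU
            rw [lintegral_finsetSum (Finset.range M) (f := fun n x => UU d c n x)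
              (fun n _ => measurable_LE_iter n measurable_const)]
        _ ≤ CC := hLint M
    have h2 : CC / ε ≠ ⊤ := ENNReal.div_ne_top hCCt hε
    obtain ⟨M, hM⟩ := ENNReal.exists_nat_gt h2
    rcases eq_or_ne ε ⊤ with rfl | hεt
    · have h3 := h1 1
      rw [Nat.cast_one, one_mul, top_le_iff] at h3
      exact hCCt h3
    · have h3 := h1 M
      rw [← ENNReal.le_div_iff_mul_le (Or.inl hε) (Or.inl hεt)] at h3
      exact absurd h3 (not_le.mpr hM)
  -- expansion
  set b : ℝ := c0 * R' / 2 with hb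
  have hb0 : 0 < b := by positivity
  have hexp : ∀ n, ∀ v ∈ Ω, R' ≤ T ((f d c)^[n] v) → b ≤ ‖deriv ((f d c)^[n]) v‖ * T v := by
    intro n v hv hvT
    have hTv := hTpos v hv
    obtain ⟨a, ha, hda⟩ := (infDist_lt_iff (s := Ωᶜ) (x := v) hne (r := 2 * T v)).mp
      (by change T v < 2 * T v; linarith)
    set y := (f d c)^[n] v with hy
    have hsub : ball y R' ⊆ Ω := (ball_subset_ball hvT).trans (hTball y)
    obtain ⟨g, hg1, hg2, hg3⟩ := branch_at hd (c := c) (y := y) hR'0 n
      (fun k _ hk => hzΩ k (hsub hk)) v rfl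
    have hu := univ_branch hg1 hg2
    have hom : ∀ w ∈ ball y R', g w ≠ a := by
      intro w hw hgw
      apply ha
      rw [← hgw]
      exact hpre n (g w) (by rw [hg2 w hw]; exact hsub hw)
    have h1 := K.komit g y R' hR'0 hu a hom
    have h2 := branch_deriv hg1 hg2 (mem_ball_self hR'0)
    rw [hg3] at h1 h2
    rw [dist_eq_norm] at hda
    have h3 : 0 < ‖deriv g y‖ := by
      rcases (norm_nonneg (deriv g y)).eq_or_lt with h4 | h4
      · rw [← h4, mul_zero] at h2
        exact absurd h2 zero_ne_one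
      · exact h4
    have h4 : 0 ≤ ‖deriv ((f d c)^[n]) v‖ := norm_nonneg _
    have h5 : c0 * R' ≤ ‖deriv ((f d c)^[n]) v‖ * ‖v - a‖ := by
      calc c0 * R' = c0 * R' * (‖deriv ((f d c)^[n]) v‖ * ‖deriv g y‖) := by rw [h2, mul_one]
        _ = ‖deriv ((f d c)^[n]) v‖ * (c0 * R' * ‖deriv g y‖) := by ring
        _ ≤ _ := mul_le_mul_of_nonneg_left h1 h4
    have h6 : ‖deriv ((f d c)^[n]) v‖ * ‖v - a‖ ≤ ‖deriv ((f d c)^[n]) v‖ * (2 * T v) :=
      mul_le_mul_of_nonneg_left hda.le h4
    rw [hb]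
    linarith
  -- the chain
  set η : ℝ := min 1 (b / 64) with hη
  have hη0 : 0 < η := by positivity
  have hη1 : η ≤ 1 := min_le_left _ _
  have hηb : 64 * η ≤ b := by
    have : η ≤ b / 64 := min_le_right _ _
    linarith
  obtain ⟨N, hN⟩ := exists_nat_gt (4 / η)
  rw [div_lt_iff₀ hη0] at hN
  set t₀ : ℝ := T x / 2 with ht₀
  have ht₀0 : 0 < t₀ := by have := hTpos x hxΩ; positivity
  set ρ : ℝ := η / 16 * (t₀ / 2 ^ N) with hρ
  have hρ0 : 0 < ρ := by positivity
  obtain ⟨n, hn⟩ := hvol (volume (ball (0 : ℂ) ρ)) (measure_ball_pos _ _ hρ0).ne'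
  have hfind : ∀ y : ℂ, ball y ρ ⊆ Ω → ∃ y' ∈ ball y ρ, R' ≤ T ((f d c)^[n] y') := by
    intro y hy
    by_contra hcon3
    push Not at hcon3
    have h1 : ball y ρ ⊆ (f d c)^[n] ⁻¹' L := fun y' hy' => ⟨hbd n y' (hy hy'), hcon3 y' hy'⟩
    have h2 := measure_mono (μ := volume) h1
    rw [Complex.volume_ball] at h2
    rw [Complex.volume_ball] at hn
    exact absurd h2 (not_le.mpr hn)
  have hchain : ∀ j ≤ N, ∃ v ∈ Ω, R' ≤ T ((f d c)^[n] v) ∧ t₀ / 2 ^ j ≤ T v ∧
      j * (η / 2) ≤ ‖(f d c)^[n] v‖ := by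
    intro j
    induction j with
    | zero =>
      intro _
      have h1 : ρ ≤ t₀ := by
        rw [hρ]
        have h2 : t₀ / 2 ^ N ≤ t₀ := div_le_self ht₀0.le (one_le_pow₀ (by norm_num))
        have h3 : η / 16 ≤ 1 := by linarith
        calc η / 16 * (t₀ / 2 ^ N) ≤ 1 * t₀ := mul_le_mul h3 h2 (by positivity) (by norm_num)
          _ = t₀ := one_mul _
      have h2 : ball x ρ ⊆ Ω := (ball_subset_ball (by linarith)).trans (hTball x)
      obtain ⟨v, hv1, hv2⟩ := hfind x h2
      refine ⟨v, h2 hv1, hv2, ?_, by simp⟩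
      have h3 := hTlip x v
      rw [mem_ball, dist_comm] at hv1
      rw [pow_zero, div_one]
      linarith
    | succ j ih =>
      intro hj
      obtain ⟨v, hv1, hv2, hv3, hv4⟩ := ih (by omega)
      have hTv := hTpos v hv1
      set F : ℂ → ℂ := (f d c)^[n] with hF'
      have hFd : Differentiable ℂ F := differentiable_fn d c n
      have hE := hexp n v hv1 hv2
      obtain ⟨y, hy1, hy2⟩ : ∃ y ∈ ball v (T v / 4), ‖F v‖ + η < ‖F y‖ := by
        by_contra hcon4
        push Not at hcon4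
        have h1 := grow_pt hFd (by positivity : 0 < T v / 4) hη0 hcon4
        rw [le_div_iff₀ (by positivity)] at h1
        linarith
      have hρT : ρ ≤ η * T v / 16 := by
        rw [hρ]
        have h1 : t₀ / 2 ^ N ≤ T v := by
          refine le_trans ?_ hv3
          apply div_le_div_of_nonneg_left ht₀0.le (by positivity)
          exact pow_le_pow_right₀ (by norm_num) (by omega)
        calc η / 16 * (t₀ / 2 ^ N) ≤ η / 16 * T v := by gcongr
          _ = _ := by ring
      have hρT8 : ρ ≤ T v / 8 := by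
        refine hρT.trans ?_
        nlinarith
      rw [mem_ball] at hy1
      have hyb : ball y ρ ⊆ ball v (T v / 2) := by
        intro z hz
        rw [mem_ball] at *
        linarith [dist_triangle z y v]
      have hhalf : ball v (T v / 2) ⊆ Ω := (ball_subset_ball (by linarith)).trans (hTball v)
      obtain ⟨y', hy'1, hy'2⟩ := hfind y (hyb.trans hhalf)
      have hlip : ‖F y' - F y‖ ≤ 8 / T v * ‖y' - y‖ := by
        have hconv : Convex ℝ (ball v (T v / 2)) := convex_ball _ _
        refine hconv.norm_image_sub_le_of_norm_deriv_le (𝕜 := ℂ) (f := F) (C := 8 / T v) ?_ ?_ ?_ ?_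
        · intro z _
          exact hFd z
        · intro z hz
          have h1 := cauchy_iter (d := d) (c := c) (x := z) (s := T v / 2) (by positivity) (n := n)
            (fun u hu => hbd n u (hTball v (by
              rw [mem_ball] at *
              linarith [dist_triangle u z v])))
          have h2 : 4 / (T v / 2) = 8 / T v := by field_simp; norm_num
          rwa [h2] at h1
        · exact hyb (mem_ball_self hρ0)
        · exact hyb hy'1
      have hy'd : ‖y' - y‖ ≤ ρ := by
        rw [mem_ball, dist_eq_norm] at hy'1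
        exact hy'1.le
      have h3 : ‖F y' - F y‖ ≤ η / 2 := by
        refine hlip.trans ?_
        calc 8 / T v * ‖y' - y‖ ≤ 8 / T v * (η * T v / 16) := by
              gcongr
              exact hy'd.trans hρT
          _ = η / 2 := by field_simp; norm_num
      have h4 : ‖F y‖ ≤ ‖F y'‖ + ‖F y' - F y‖ := by
        calc ‖F y‖ = ‖F y' - (F y' - F y)‖ := by congr 1; ring
          _ ≤ _ := norm_sub_le _ _
      refine ⟨y', hhalf (hyb hy'1), hy'2, ?_, ?_⟩
      · have h5 := hTlip v y'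
        have h6 := hyb hy'1
        rw [mem_ball, dist_comm] at h6
        rw [pow_succ, ← div_div]
        linarith
      · push_cast
        linarith
  obtain ⟨v, hv1, -, -, hv4⟩ := hchain N le_rfl
  have h5 := hbd n v hv1
  linarith

theorem Esc_iff (hd : 2 ≤ d) {c : ℂ} (hc : ‖c‖ ≤ 2) (n : ℕ) (x : ℂ) :
    Esc d c ((f d c)^[n] x) ↔ Esc d c x := by
  refine ⟨Esc_iter n, fun h => ?_⟩
  obtain ⟨N, hN⟩ := h.far hd hc 2
  exact ⟨N, by rw [← Function.iterate_add_apply]; exact hN _ (by omega)⟩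

theorem isOpen_Esc (d : ℕ) (c : ℂ) : IsOpen {x | Esc d c x} := by
  have h1 : {x | Esc d c x} = ⋃ n : ℕ, {x | 2 < ‖(f d c)^[n] x‖} := by
    ext x
    simp [Esc]
  rw [h1]
  exact isOpen_iUnion fun n => isOpen_lt continuous_const (continuous_fn d c n).norm

/-- **The filled Julia set has zero area.** -/
theorem CEp.vol_esc (h : CEp d C₁ lam c) : volume {x | ¬ Esc d c x} = 0 := by
  have hd := h.hd
  obtain ⟨C0, c0, K⟩ := exists_KC
  obtain ⟨θ, τ, A, t, R₀, J⟩ := h.exists_Mj K
  obtain ⟨R₁, hR₁, HT⟩ := J.tree_int h K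
  set L : Set ℂ := {x | ¬ Esc d c x} with hL
  have hLm : MeasurableSet L := (isOpen_Esc d c).measurableSet.compl
  have hLb : L ⊆ closedBall 0 2 := by
    intro x hx
    rw [mem_closedBall_zero_iff]
    by_contra hcon
    exact hx ⟨0, by simpa using not_le.mp hcon⟩
  have hpre : ∀ n, (f d c)^[n] ⁻¹' L = L := by
    intro n
    ext x
    rw [mem_preimage, hL, mem_setOf_eq, mem_setOf_eq, Esc_iff hd h.c_le]
  have hloc : ∀ w : ℂ, ∃ C : ENNReal, C ≠ ⊤ ∧ ∀ M, ∫⁻ x in closedBall w (R₁ / 8), SU d c M x ≤ C := by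
    intro w
    obtain ⟨x', hx', hx'e⟩ := h.esc_dense w (s := R₁ / 8) (by positivity)
    rw [mem_ball, dist_eq_norm] at hx'
    exact HT w x' hx'.le hx'e
  choose CL hCL1 hCL2 using hloc
  obtain ⟨F, hF⟩ := (isCompact_closedBall (0 : ℂ) 2).elim_finite_subcover
    (fun w : ℂ => ball w (R₁ / 8))
    (fun w => isOpen_ball) (fun w _ => mem_iUnion.mpr ⟨w, mem_ball_self (by positivity)⟩)
  set CC : ENNReal := ∑ w ∈ F, CL w with hCC
  have hCCt : CC ≠ ⊤ := ENNReal.sum_ne_top.mpr fun w _ => hCL1 w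
  have hLint : ∀ M, ∫⁻ x in L, SU d c M x ≤ CC := by
    intro M
    have h1 : L ⊆ ⋃ w ∈ F, closedBall w (R₁ / 8) := by
      intro v hv
      have h2 := hF (hLb hv)
      simp only [mem_iUnion] at h2 ⊢
      obtain ⟨w, hw, hvw⟩ := h2
      exact ⟨w, hw, ball_subset_closedBall hvw⟩
    calc ∫⁻ x in L, SU d c M x ≤ ∫⁻ x in ⋃ w ∈ F, closedBall w (R₁ / 8), SU d c M x :=
          lintegral_mono_set h1
      _ ≤ ∑ w ∈ F, ∫⁻ x in closedBall w (R₁ / 8), SU d c M x := lint_biUnion F _ _
      _ ≤ _ := Finset.sum_le_sum fun w _ => hCL2 w M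
  have h1 : ∀ M : ℕ, (M : ENNReal) * volume L ≤ CC := by
    intro M
    calc (M : ENNReal) * volume L = ∑ n ∈ Finset.range M, volume L := by simp
      _ = ∑ n ∈ Finset.range M, volume ((f d c)^[n] ⁻¹' L) := by simp only [hpre]
      _ = ∑ n ∈ Finset.range M, ∫⁻ x in L, UU d c n x :=
          Finset.sum_congr rfl fun n _ => vol_iter hd c n hLm
      _ = ∫⁻ x in L, SU d c M x := by
          unfold SU
          rw [lintegral_finsetSum (Finset.range M) (f := fun n x => UU d c n x)
            (fun n _ => measurable_LE_iter n measurable_const)]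
      _ ≤ CC := hLint M
  by_contra hne
  have hLt : volume L ≠ ⊤ :=
    ne_top_of_le_ne_top (isCompact_closedBall (0 : ℂ) 2).measure_lt_top.ne (measure_mono hLb)
  have h2 : CC / volume L ≠ ⊤ := ENNReal.div_ne_top hCCt hne
  obtain ⟨M, hM⟩ := ENNReal.exists_nat_gt h2
  have h3 := h1 M
  rw [← ENNReal.le_div_iff_mul_le (Or.inl hne) (Or.inl hLt)] at h3
  exact absurd h3 (not_le.mpr hM)

end Pool.Agent.Y298.SH.CD
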