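import Mathlib
import Pool.Agent.Y298.CD.Hole
import Pool.Agent.Y298.CE.PsiCE

/-!
# The truncated iterates at a Collet-Eckmann parameter (all degrees)
-/

set_option autoImplicit false

open Set Filter Metric MeasureTheory

namespace Pool.Agent.Y298.SH.CD

open Pool.Agent.TH279.MD Pool.Agent.Y298.SH
open Pool.Agent.Y298.SH.CE (MG RR psi_small_of vol_ball_ge)
open Pool.Agent.W746.LD (Univ KC exists_KC)

variable {d : ℕ} {C₁ lam : ℝ} {c : ℂ}

theorem CEp.psi_tendsto (h : CEp d C₁ lam c) {δ : ℝ} (hδ : 0 < δ) (w : ℂ) :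
    Tendsto (fun m => psi d δ c m w) atTop (nhds 0) := by
  have hd := h.hd
  obtain ⟨C0, c0, K⟩ := exists_KC
  obtain ⟨θ, τ, A, t, R₀, J⟩ := h.exists_Mj K
  obtain ⟨Y, hY0, hY⟩ := J.hall
  set R : ℝ := δ ^ d / (2 * Y) with hR
  have hR0 : 0 < R := by positivity
  obtain ⟨x, hx, hxe⟩ := h.esc_dense w (s := R / 8) (by positivity)
  rw [mem_ball, dist_eq_norm] at hx
  have h1 := psi_le hd J.G K hR0 hδ h.Pd_pos (w := w) (by
    intro j _
    have h2 := hY j
    have h3 := h.Pd_pos j
    have h4 : A * θ ^ j / Pd d c j ≤ Y := by rwa [div_le_iff₀ h3]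
    calc A * θ ^ j / Pd d c j * (2 * R) ≤ Y * (2 * R) := by gcongr
      _ = δ ^ d := by rw [hR]; field_simp) hx.le
  have h2 : Tendsto (fun m => ENNReal.ofReal (C0 ^ 2) * UU d c m x) atTop (nhds 0) := by
    have := ENNReal.Tendsto.const_mul (ENNReal.tendsto_atTop_zero_of_tsum_ne_top
      (hxe.sum hd K h.bd)) (a := ENNReal.ofReal (C0 ^ 2)) (Or.inr ENNReal.ofReal_ne_top)
    simpa using this
  have h3 : Tendsto (fun m => ENNReal.ofReal (psi d δ c m w)) atTop (nhds 0) :=
    tendsto_of_tendsto_of_tendsto_of_le_of_le tendsto_const_nhds h2 (fun _ => bot_le) h1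
  have h4 := (ENNReal.tendsto_toReal ENNReal.zero_ne_top).comp h3
  refine h4.congr ?_
  intro m
  simp only [Function.comp]
  rw [ENNReal.toReal_ofReal (psi_nonneg hδ c m w)]

theorem CEp.psi_small (h : CEp d C₁ lam c) {δ : ℝ} (hδ : 0 < δ) {r : ℝ} (hr : 4 ≤ r) {ε : ℝ}
    (hε : 0 < ε) : ∃ m : ℕ, 1 ≤ m ∧ ∀ w : ℂ, ‖w‖ ≤ r → psi d δ c m w ≤ ε :=
  psi_small_of h.hd (h.c_le.trans (by norm_num)) hδ (h.psi_tendsto hδ) hr hε

/-- **Uniform bound of the truncated Green sums near the critical point.** -/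
theorem CEp.psi_sum (h : CEp d C₁ lam c) : ∃ ρ₀ Γ : ℝ, 0 < ρ₀ ∧ 0 ≤ Γ ∧ ∀ δ : ℝ, 0 < δ →
    2 * δ ≤ ρ₀ → ∀ m : ℕ, ∀ y : ℂ, ‖y‖ ≤ 2 * δ → ∑ j ∈ Finset.range m, psi d δ c j y ≤ Γ := by
  have hd := h.hd
  have hdR : (2 : ℝ) ≤ d := by exact_mod_cast hd
  have hal := al_pos hd
  obtain ⟨C0, c0, K⟩ := exists_KC
  obtain ⟨θ, τ, A, t, R₀, J⟩ := h.exists_Mj K
  have ht0 : 0 < t := lt_of_lt_of_le one_pos J.t1
  have hP := h.Pd_pos
  have G := J.G
  have hR₀ := J.R0
  obtain ⟨X, hX⟩ := J.sum_all
  obtain ⟨Ci, hCi, HC⟩ := inv_int hd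
  obtain ⟨x₀, hx₀, hx₀e⟩ := h.esc_zero (s := R₀ / 8) (by positivity)
  rw [mem_ball_zero_iff] at hx₀
  set κ : ENNReal := ENNReal.ofReal (C0 ^ 4) * ∑' j, UU d c j x₀ with hκ
  have hκt : κ ≠ ⊤ := ENNReal.mul_ne_top ENNReal.ofReal_ne_top (hx₀e.sum hd K h.bd)
  have hmaj : ∀ M y, ‖y‖ ≤ R₀ / 8 → SU d c M y ≤ κ * (1 + Ps d c t R₀ y) := fun M =>
    majorant hd G K hR₀ J.t1 hP h.zz_ne (J.hsum R₀ hR₀ le_rfl)
      (fun k hk => J.small hd hP hR₀ le_rfl k hk)
      (J.heps R₀ hR₀ le_rfl) hx₀.le M
  have hC := K.one_le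
  set D : ENNReal := ENNReal.ofReal (C0 ^ 2) * (κ * (1 + ENNReal.ofReal (16 + 4096 * Ci) *
    ENNReal.ofReal X)) with hD
  have hDt : D ≠ ⊤ := by
    apply ENNReal.mul_ne_top ENNReal.ofReal_ne_top
    apply ENNReal.mul_ne_top hκt
    apply ENNReal.add_ne_top.mpr
    exact ⟨ENNReal.one_ne_top, ENNReal.mul_ne_top ENNReal.ofReal_ne_top ENNReal.ofReal_ne_top⟩
  refine ⟨R₀ / 32, D.toReal, by positivity, ENNReal.toReal_nonneg, ?_⟩
  intro δ hδ hδ2 m y hy
  set ρ : ℝ := δ / 16 with hρ
  have hρ0 : 0 < ρ := by positivity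
  -- comparison on a small ball
  have h1 : ∀ x ∈ closedBall y ρ, ENNReal.ofReal (∑ j ∈ Finset.range m, psi d δ c j y) ≤
      ENNReal.ofReal (C0 ^ 2) * (κ * (1 + Ps d c t R₀ x)) := by
    intro x hx
    rw [mem_closedBall, dist_eq_norm] at hx
    have hx2 : ‖x‖ ≤ R₀ / 8 := by
      have : ‖x‖ ≤ ‖y‖ + ‖x - y‖ := by
        calc ‖x‖ = ‖y + (x - y)‖ := by congr 1; ring
          _ ≤ _ := norm_add_le _ _
      linarith
    rw [ENNReal.ofReal_sum_of_nonneg (fun j _ => psi_nonneg hδ c j y)]
    calc ∑ j ∈ Finset.range m, ENNReal.ofReal (psi d δ c j y)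
        ≤ ∑ j ∈ Finset.range m, ENNReal.ofReal (C0 ^ 2) * UU d c j x := by
          apply Finset.sum_le_sum
          intro j _
          refine psi_le hd G K (R := δ / 2) (by positivity) hδ hP (w := y) ?_ (by linarith) j
          intro i hi
          rw [mem_ball, dist_eq_norm] at hi
          have h2 : ‖zz d c i‖ < 3 * δ := by
            have : ‖zz d c i‖ ≤ ‖y‖ + ‖zz d c i - y‖ := by
              calc ‖zz d c i‖ = ‖y + (zz d c i - y)‖ := by congr 1; ring
                _ ≤ _ := norm_add_le _ _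
            linarith
          have h3 := J.hsmall i (by linarith)
          rw [Pd_succ] at h3
          have h4 := hP i
          have hpow : ‖zz d c i‖ ^ (d - 1) ≤ (3 * δ) ^ (d - 1) :=
            pow_le_pow_left₀ (norm_nonneg _) h2.le _
          have h5 : LC d * (A * θ ^ i) ≤ d * (3 * δ) ^ (d - 1) * Pd d c i := by
            refine h3.trans ?_
            gcongr
          rw [div_mul_eq_mul_div, div_le_iff₀ h4]
          have h6 : δ * (3 * δ) ^ (d - 1) ≤ 16 ^ d * δ ^ d := by
            have h7 : δ * δ ^ (d - 1) = δ ^ d := by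
              rw [← pow_succ']; congr 1; omega
            have h8 : (3 : ℝ) ^ (d - 1) ≤ 16 ^ d := by
              calc (3 : ℝ) ^ (d - 1) ≤ 3 ^ d := pow_le_pow_right₀ (by norm_num) (by omega)
                _ ≤ 16 ^ d := by gcongr; norm_num
            calc δ * (3 * δ) ^ (d - 1) = 3 ^ (d - 1) * (δ * δ ^ (d - 1)) := by
                  rw [mul_pow]; ring
              _ ≤ _ := by rw [h7]; gcongr
          have h16 : (0 : ℝ) < 16 ^ d := by positivity
          have h9 : (3 * d * 16 ^ d) * (A * θ ^ i * (2 * (δ / 2))) ≤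
              (3 * d * 16 ^ d) * (δ ^ d * Pd d c i) := by
            have h10 := mul_le_mul_of_nonneg_right h5 hδ.le
            unfold LC at h10
            calc (3 * d * 16 ^ d) * (A * θ ^ i * (2 * (δ / 2)))
                = 3 * d * 16 ^ d * (A * θ ^ i) * δ := by ring
              _ ≤ d * (3 * δ) ^ (d - 1) * Pd d c i * δ := h10
              _ = d * (δ * (3 * δ) ^ (d - 1)) * Pd d c i := by ring
              _ ≤ d * (16 ^ d * δ ^ d) * Pd d c i := by gcongr
              _ ≤ 3 * d * (16 ^ d * δ ^ d) * Pd d c i := by gcongr; linarith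
              _ = _ := by ring
          exact le_of_mul_le_mul_left h9 (by positivity)
      _ = ENNReal.ofReal (C0 ^ 2) * SU d c m x := by
          unfold SU
          rw [Finset.mul_sum]
      _ ≤ _ := by
          gcongr
          exact hmaj m x hx2
  -- integration
  have hfin : volume (closedBall y ρ) ≠ ⊤ := (isCompact_closedBall _ _).measure_lt_top.ne
  have hv0 : volume (closedBall y ρ) ≠ 0 := (measure_closedBall_pos _ _ hρ0).ne'
  have h2 : ENNReal.ofReal (∑ j ∈ Finset.range m, psi d δ c j y) * volume (closedBall y ρ) ≤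
      D * volume (closedBall y ρ) := by
    have h3 : ∫⁻ x in closedBall y ρ, (1 + Ps d c t R₀ x) ≤
        (1 + ENNReal.ofReal (16 + 4096 * Ci) * ENNReal.ofReal X) * volume (closedBall y ρ) := by
      rw [lintegral_add_left measurable_const, lintegral_one, Measure.restrict_apply_univ, add_mul,
        one_mul]
      gcongr
      unfold Ps
      rw [lintegral_tsum (fun i => (measurable_tt d c t R₀ i).aemeasurable)]
      have h4 : ∀ i, ∫⁻ x in closedBall y ρ, tt d c t R₀ i x ≤
          ENNReal.ofReal (16 + 4096 * Ci) * ENNReal.ofReal (qq d c t i / ‖zz d c i‖ ^ al d) *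
            volume (closedBall y ρ) := by
        intro i
        have hzi : 0 < ‖zz d c i‖ := norm_pos_iff.mpr (h.zz_ne i)
        have hzia : 0 < ‖zz d c i‖ ^ al d := Real.rpow_pos_of_pos hzi _
        have hPi := hP i
        have hq0 := qq_pos ht0 hP i
        unfold tt
        by_cases hi : ‖zz d c i‖ < 2 * R₀
        swap
        · simp only [if_neg hi, lintegral_zero]
          exact bot_le
        simp only [if_pos hi]
        rw [lintegral_const_mul' _ _ ENNReal.ofReal_ne_top]
        by_cases hfar : 4 * δ ≤ ‖zz d c i‖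
        · have h5 : ∫⁻ x in closedBall y ρ, (ENNReal.ofReal (‖x - zz d c i‖ ^ al d))⁻¹ ≤
              ENNReal.ofReal (16 / ‖zz d c i‖ ^ al d) * volume (closedBall y ρ) := by
            rw [← setLIntegral_const]
            apply setLIntegral_mono' measurableSet_closedBall
            intro x hx
            rw [mem_closedBall, dist_eq_norm] at hx
            have h6 : ‖zz d c i‖ ≤ 4 * ‖x - zz d c i‖ := by
              have h7 : ‖zz d c i‖ ≤ ‖x - zz d c i‖ + ‖x - y‖ + ‖y‖ := by
                calc ‖zz d c i‖ = ‖-(x - zz d c i) + (x - y) + y‖ := by congr 1; ring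
                  _ ≤ ‖-(x - zz d c i) + (x - y)‖ + ‖y‖ := norm_add_le _ _
                  _ ≤ (‖-(x - zz d c i)‖ + ‖x - y‖) + ‖y‖ := by gcongr; exact norm_add_le _ _
                  _ = _ := by rw [norm_neg]
              linarith
            have h8 : ‖zz d c i‖ ^ al d ≤ 16 * ‖x - zz d c i‖ ^ al d := by
              calc ‖zz d c i‖ ^ al d ≤ (4 * ‖x - zz d c i‖) ^ al d :=
                    Real.rpow_le_rpow hzi.le h6 hal.le
                _ = 4 ^ al d * ‖x - zz d c i‖ ^ al d := Real.mul_rpow (by norm_num) (norm_nonneg _)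
                _ ≤ 4 ^ 2 * ‖x - zz d c i‖ ^ al d := by
                    gcongr
                    exact rpow_al_le hd (by norm_num)
                _ = _ := by norm_num
            have h9 : 0 < ‖x - zz d c i‖ ^ al d := by
              apply Real.rpow_pos_of_pos
              linarith
            rw [← ENNReal.ofReal_inv_of_pos h9]
            apply ENNReal.ofReal_le_ofReal
            rw [← one_div, div_le_div_iff₀ h9 hzia]
            linarith
          calc ENNReal.ofReal (qq d c t i) *
                ∫⁻ x in closedBall y ρ, (ENNReal.ofReal (‖x - zz d c i‖ ^ al d))⁻¹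
              ≤ ENNReal.ofReal (qq d c t i) * (ENNReal.ofReal (16 / ‖zz d c i‖ ^ al d) *
                volume (closedBall y ρ)) := by gcongr
            _ = ENNReal.ofReal (16 * (qq d c t i / ‖zz d c i‖ ^ al d)) *
                volume (closedBall y ρ) := by
                rw [← mul_assoc, ← ENNReal.ofReal_mul hq0.le]
                congr 2
                ring
            _ ≤ _ := by
                rw [← ENNReal.ofReal_mul (by positivity)]
                gcongr
                linarith
        · rw [not_le] at hfar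
          have h5 := HC (zz d c i) y ρ hρ0.le
          have h6 : ‖zz d c i‖ ≤ 64 * ρ := by
            rw [hρ]
            linarith
          have h7 : ‖zz d c i‖ ^ al d ≤ 4096 * ρ ^ al d := by
            calc ‖zz d c i‖ ^ al d ≤ (64 * ρ) ^ al d := Real.rpow_le_rpow hzi.le h6 hal.le
              _ = 64 ^ al d * ρ ^ al d := Real.mul_rpow (by norm_num) hρ0.le
              _ ≤ 64 ^ 2 * ρ ^ al d := by
                  gcongr
                  exact rpow_al_le hd (by norm_num)
              _ = _ := by norm_num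
          have hρab := rpow_al_be d hρ0
          have hρb : 0 < ρ ^ be d := Real.rpow_pos_of_pos hρ0 _
          have hρa : 0 < ρ ^ al d := Real.rpow_pos_of_pos hρ0 _
          calc ENNReal.ofReal (qq d c t i) *
                ∫⁻ x in closedBall y ρ, (ENNReal.ofReal (‖x - zz d c i‖ ^ al d))⁻¹
              ≤ ENNReal.ofReal (qq d c t i) * ENNReal.ofReal (Ci * ρ ^ be d) := by gcongr
            _ ≤ ENNReal.ofReal (4096 * Ci) *
                ENNReal.ofReal (qq d c t i / ‖zz d c i‖ ^ al d) *
                ENNReal.ofReal (3 * ρ ^ 2) := by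
                rw [← ENNReal.ofReal_mul hq0.le, ← ENNReal.ofReal_mul (by positivity),
                  ← ENNReal.ofReal_mul (by positivity)]
                apply ENNReal.ofReal_le_ofReal
                calc qq d c t i * (Ci * ρ ^ be d)
                    = (qq d c t i / ‖zz d c i‖ ^ al d) * (Ci * ρ ^ be d) * ‖zz d c i‖ ^ al d := by
                      field_simp
                  _ ≤ (qq d c t i / ‖zz d c i‖ ^ al d) * (Ci * ρ ^ be d) * (4096 * ρ ^ al d) := by
                      gcongr
                  _ = (qq d c t i / ‖zz d c i‖ ^ al d) * Ci * 4096 * (ρ ^ al d * ρ ^ be d) := by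
                      ring
                  _ = (qq d c t i / ‖zz d c i‖ ^ al d) * Ci * 4096 * ρ ^ 2 := by rw [hρab]
                  _ ≤ _ := by
                      have h7 : 0 ≤ (qq d c t i / ‖zz d c i‖ ^ al d) * Ci * ρ ^ 2 := by positivity
                      nlinarith
            _ ≤ _ := by
                gcongr
                · linarith
                · exact vol_ball_ge y hρ0.le
      refine (ENNReal.tsum_le_tsum h4).trans ?_
      rw [ENNReal.tsum_mul_right, ENNReal.tsum_mul_left]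
      gcongr
    calc ENNReal.ofReal (∑ j ∈ Finset.range m, psi d δ c j y) * volume (closedBall y ρ)
        = ∫⁻ x in closedBall y ρ, ENNReal.ofReal (∑ j ∈ Finset.range m, psi d δ c j y) := by
          rw [setLIntegral_const]
      _ ≤ ∫⁻ x in closedBall y ρ, ENNReal.ofReal (C0 ^ 2) * (κ * (1 + Ps d c t R₀ x)) :=
          setLIntegral_mono' measurableSet_closedBall h1
      _ = ENNReal.ofReal (C0 ^ 2) * (κ * ∫⁻ x in closedBall y ρ, (1 + Ps d c t R₀ x)) := by
          rw [lintegral_const_mul' _ _ ENNReal.ofReal_ne_top, lintegral_const_mul' _ _ hκt]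
      _ ≤ ENNReal.ofReal (C0 ^ 2) * (κ * ((1 + ENNReal.ofReal (16 + 4096 * Ci) *
            ENNReal.ofReal X) * volume (closedBall y ρ))) := by gcongr
      _ = _ := by
          rw [hD]
          ring
  have h3 : ENNReal.ofReal (∑ j ∈ Finset.range m, psi d δ c j y) ≤ D :=
    (ENNReal.mul_le_mul_iff_left hv0 hfin).mp h2
  exact (ENNReal.ofReal_le_iff_le_toReal hDt).mp h3

end Pool.Agent.Y298.SH.CD
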