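import Mathlib
import Pool.Agent.Y298.CD.PsiCD
import Pool.Agent.Y298.CE.Pass

/-!
# Univalent passages near the critical value (all degrees)
-/

set_option autoImplicit false

open Set Filter Metric MeasureTheory

namespace Pool.Agent.Y298.SH.CD

open Pool.Agent.TH279.MD Pool.Agent.Y298.SH
open Pool.Agent.Y298.SH.CE (MG RR geom_part)
open Pool.Agent.W746.LD (Univ KC exists_KC)

theorem pow_low {b : ℝ} (hb1 : b ≤ 1) (n : ℕ) : 1 - n * b ≤ (1 - b) ^ n := by
  have h := one_add_mul_le_pow (a := -b) (by linarith) n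
  calc 1 - n * b = 1 + n * (-b) := by ring
    _ ≤ (1 + -b) ^ n := h
    _ = _ := by ring

theorem pow_up {b : ℝ} (hb : 0 ≤ b) {n : ℕ} (hnb : n * b ≤ 1 / 2) :
    (1 + b) ^ n ≤ 1 + 2 * (n * b) := by
  rcases Nat.eq_zero_or_pos n with rfl | hn
  · simp
  have hn1 : (1 : ℝ) ≤ n := by exact_mod_cast hn
  have hb1 : b ≤ 1 := by nlinarith
  have h1 := pow_low hb1 n
  have h2 : (1 + b) ^ n * (1 - b) ^ n ≤ 1 := by
    rw [← mul_pow]
    apply pow_le_one₀
    · have : 0 ≤ 1 - b := by linarith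
      positivity
    · nlinarith
  have h3 : 0 < (1 + b) ^ n := by positivity
  have h4 : (1 + b) ^ n * (1 - n * b) ≤ 1 := (mul_le_mul_of_nonneg_left h1 h3.le).trans h2
  set x : ℝ := n * b with hx
  have hx0 : 0 ≤ x := by positivity
  by_contra hcon
  rw [not_le] at hcon
  have h5 : (1 + 2 * x) * (1 - x) < (1 + b) ^ n * (1 - x) :=
    mul_lt_mul_of_pos_right hcon (by linarith)
  nlinarith

/-- lower bound for differences of powers near a point -/
theorem pow_sub_ge {d : ℕ} (hd : 2 ≤ d) {u v z : ℂ} {b : ℝ} (hb : 0 ≤ b) (hdb : d * b ≤ 1 / 2)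
    (hu : ‖u - z‖ ≤ b * ‖z‖) (hv : ‖v - z‖ ≤ b * ‖z‖) :
    d * ‖z‖ ^ (d - 1) * (1 - 2 * d * b) * ‖u - v‖ ≤ ‖u ^ d - v ^ d‖ := by
  have hdR : (2 : ℝ) ≤ d := by exact_mod_cast hd
  have hz0 := norm_nonneg z
  set F : ℂ → ℂ := fun w => w ^ d - (d * z ^ (d - 1)) * w with hF
  have hFd : ∀ w, HasDerivAt F (d * w ^ (d - 1) - d * z ^ (d - 1)) w := by
    intro w
    have h1 := (hasDerivAt_pow d w).sub ((hasDerivAt_id w).const_mul (d * z ^ (d - 1)))
    exact h1.congr_deriv (by ring)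
  have hconv : Convex ℝ (closedBall z (b * ‖z‖)) := convex_closedBall _ _
  have hbound : ∀ w ∈ closedBall z (b * ‖z‖), ‖deriv F w‖ ≤ d * ‖z‖ ^ (d - 1) * (2 * d * b) := by
    intro w hw
    rw [mem_closedBall, dist_eq_norm] at hw
    rw [(hFd w).deriv, ← mul_sub, norm_mul, Complex.norm_natCast, mul_assoc]
    apply mul_le_mul_of_nonneg_left _ (by positivity)
    have hwm : ‖w‖ ≤ ‖z‖ * (1 + b) := by
      calc ‖w‖ = ‖(w - z) + z‖ := by congr 1; ring
        _ ≤ ‖w - z‖ + ‖z‖ := norm_add_le _ _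
        _ ≤ _ := by linarith
    have hzm : ‖z‖ ≤ ‖z‖ * (1 + b) := by nlinarith
    have h1 := pow_sub_le w z hwm hzm (d - 1)
    refine h1.trans ?_
    have h2 : (1 + b) ^ (d - 1 - 1) ≤ 2 := by
      have h3 : ((d - 1 - 1 : ℕ) : ℝ) * b ≤ 1 / 2 := by
        refine le_trans ?_ hdb
        gcongr
        omega
      have := pow_up hb h3
      linarith
    have h4 : ‖z‖ ^ (d - 1 - 1) * ‖z‖ = ‖z‖ ^ (d - 1) := by
      rw [← pow_succ]
      congr 1
      omega
    have h5 : ((d - 1 : ℕ) : ℝ) ≤ d := by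
      have : d - 1 ≤ d := by omega
      exact_mod_cast this
    calc ((d - 1 : ℕ) : ℝ) * (‖z‖ * (1 + b)) ^ (d - 1 - 1) * ‖w - z‖
        ≤ d * (‖z‖ ^ (d - 1 - 1) * 2) * (b * ‖z‖) := by
          rw [mul_pow]
          gcongr
      _ = (‖z‖ ^ (d - 1 - 1) * ‖z‖) * (2 * d * b) := by ring
      _ = _ := by rw [h4]
  have h1 := hconv.norm_image_sub_le_of_norm_deriv_le (𝕜 := ℂ) (f := F)
    (fun w _ => (hFd w).differentiableAt) hbound
    (mem_closedBall.mpr (by rw [dist_eq_norm]; exact hv))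
    (mem_closedBall.mpr (by rw [dist_eq_norm]; exact hu))
  have h2 : F u - F v = (u ^ d - v ^ d) - (d * z ^ (d - 1)) * (u - v) := by
    rw [hF]
    ring
  rw [h2] at h1
  have h3 : ‖(d * z ^ (d - 1)) * (u - v)‖ = d * ‖z‖ ^ (d - 1) * ‖u - v‖ := by
    rw [norm_mul, norm_mul, norm_pow, Complex.norm_natCast]
  have h4 : ‖(d * z ^ (d - 1)) * (u - v)‖ ≤ ‖u ^ d - v ^ d‖ +
      ‖(u ^ d - v ^ d) - (d * z ^ (d - 1)) * (u - v)‖ := by
    calc ‖(d * z ^ (d - 1)) * (u - v)‖
        = ‖(u ^ d - v ^ d) - ((u ^ d - v ^ d) - (d * z ^ (d - 1)) * (u - v))‖ := by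
          congr 1; ring
      _ ≤ _ := norm_sub_le _ _
  rw [h3] at h4
  nlinarith

/-- **Passage lemma.** The constants depend only on `d`, `C₁`, `lam` and `θ`. -/
theorem passage {d : ℕ} (hd : 2 ≤ d) (C₁ lam θ : ℝ) (hC₁ : 1 ≤ C₁) (hlam : 1 < lam) (hθ : 1 < θ) :
    ∃ B Ca : ℝ, 1 ≤ Ca ∧ Ca ≤ B ∧ ∀ c₀ : ℂ, CEp d C₁ lam c₀ → ∀ (c : ℂ) (s : ℝ) (k : ℕ), 0 < s →
      ‖c - c₀‖ ≤ s → (∀ j < k, B * θ ^ j * s * Pd d c₀ j ≤ ‖zz d c₀ j‖) → 
      (∀ x ∈ ball c s, ‖(f d c)^[k] x - zz d c₀ k‖ ≤ Ca * s * Pd d c₀ k) ∧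
      (∀ x ∈ ball c s, Pd d c₀ k / 2 ≤ ‖deriv ((f d c)^[k]) x‖) ∧
      InjOn ((f d c)^[k]) (ball c s) := by
  have hdR : (2 : ℝ) ≤ d := by exact_mod_cast hd
  set SP : ℝ := C₁ * (1 / (1 - 1 / lam)) with hSP
  have hl0 : 0 < lam := by linarith
  have hil : 0 < 1 / lam := by positivity
  have hil1 : 1 / lam < 1 := by rw [div_lt_one hl0]; exact hlam
  have hSP0 : 0 < SP := by
    have : 0 < 1 - 1 / lam := by linarith
    positivity
  set Ca : ℝ := 2 * (1 + SP) with hCa
  have hCa1 : 1 ≤ Ca := by rw [hCa]; linarith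
  have hCa0 : 0 < Ca := by linarith
  have hiθ : 0 < 1 / θ := by positivity
  have hiθ1 : 1 / θ < 1 := by rw [div_lt_one (by linarith)]; exact hθ
  set Sθ : ℝ := 1 / (1 - 1 / θ) with hSθ
  have hSθ0 : 0 < Sθ := by
    have : 0 < 1 - 1 / θ := by linarith
    positivity
  set B : ℝ := Ca * (1 + 4 * d * Sθ) with hB
  have hB0 : 0 < B := by positivity
  refine ⟨B, Ca, hCa1, ?_, ?_⟩
  · rw [hB]
    have : 0 ≤ 4 * d * Sθ := by positivity
    nlinarith
  intro c₀ h c s k hs hc hk
  have hP := h.Pd_pos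
  have hθ0 : 0 < θ := by linarith
  -- the sequences
  set b : ℕ → ℝ := fun i => Ca / (B * θ ^ i) with hb
  have hb0 : ∀ i, 0 < b i := fun i => by positivity
  have hbs : ∀ n, ∑ i ∈ Finset.range n, 2 * d * b i ≤ 1 / 2 := by
    intro n
    have h1 : ∀ i, 2 * d * b i = 2 * d * (Ca / B) * (1 / θ) ^ i := by
      intro i
      rw [hb, one_div, inv_pow]
      field_simp
    simp only [h1]
    rw [← Finset.mul_sum]
    have h2 := geom_part hiθ hiθ1 n
    calc 2 * d * (Ca / B) * ∑ i ∈ Finset.range n, (1 / θ) ^ i ≤ 2 * d * (Ca / B) * Sθ := by gcongr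
      _ = 2 * d * Ca * Sθ / B := by ring
      _ ≤ 1 / 2 := by
          rw [hB, div_le_div_iff₀ (by positivity) (by norm_num)]
          nlinarith
  have hbd : ∀ j, d * b j ≤ 1 / 4 := by
    intro j
    have h1 := hbs (j + 1)
    rw [Finset.sum_range_succ] at h1
    have h2 : 0 ≤ ∑ i ∈ Finset.range j, 2 * d * b i := Finset.sum_nonneg fun i _ => by
      have := hb0 i; positivity
    linarith
  set E : ℕ → ℝ := fun j => Real.exp (∑ i ∈ Finset.range j, 2 * d * b i) with hE
  have hE1 : ∀ j, 1 ≤ E j := fun j => Real.one_le_exp (Finset.sum_nonneg fun i _ => by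
    have := hb0 i; positivity)
  have hE2 : ∀ j, E j ≤ 2 := by
    intro j
    have h1 := hbs j
    have h2 : Real.exp (1 / 2) ≤ 2 := by
      have h3 := Real.exp_one_lt_d9
      have h5 : Real.exp (1 / 2) ^ 2 = Real.exp 1 := by
        rw [← Real.exp_nat_mul]
        norm_num
      have h6 := Real.exp_pos (1 / 2)
      nlinarith
    exact (Real.exp_le_exp.mpr h1).trans h2
  have hE3 : ∀ j, E j * (1 + 2 * d * b j) ≤ E (j + 1) := by
    intro j
    rw [hE]
    beta_reduce
    rw [Finset.sum_range_succ, Real.exp_add]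
    gcongr
    have := Real.add_one_le_exp (2 * d * b j)
    linarith
  set S : ℕ → ℝ := fun j => ∑ i ∈ Finset.range (j + 1), 1 / Pd d c₀ i with hS
  have hS0 : ∀ j, 0 ≤ S j := fun j => Finset.sum_nonneg fun i _ => by
    have := hP i; positivity
  have hSb : ∀ j, S j ≤ SP := by
    intro j
    have h1 : ∀ i, 1 / Pd d c₀ i ≤ C₁ * (1 / lam) ^ i := by
      intro i
      have := h.exp i
      have h2 := hP i
      rw [one_div lam, inv_pow, ← div_eq_mul_inv, div_le_div_iff₀ h2 (by positivity)]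
      linarith
    calc S j ≤ ∑ i ∈ Finset.range (j + 1), C₁ * (1 / lam) ^ i :=
          Finset.sum_le_sum fun i _ => h1 i
      _ = C₁ * ∑ i ∈ Finset.range (j + 1), (1 / lam) ^ i := by rw [Finset.mul_sum]
      _ ≤ SP := by
          rw [hSP]
          gcongr
          exact geom_part hil hil1 _
  have hcoef : ∀ j, s * (1 + S j) * E j * Pd d c₀ j ≤ Ca * s * Pd d c₀ j := by
    intro j
    have := hP j
    have h1 : (1 + S j) * E j ≤ (1 + SP) * 2 :=
      mul_le_mul (by linarith [hSb j]) (hE2 j) (by linarith [hE1 j]) (by linarith)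
    calc s * (1 + S j) * E j * Pd d c₀ j = s * Pd d c₀ j * ((1 + S j) * E j) := by ring
      _ ≤ s * Pd d c₀ j * ((1 + SP) * 2) := by gcongr
      _ = _ := by rw [hCa]; ring
  have hdelta : ∀ j < k, Ca * s * Pd d c₀ j ≤ b j * ‖zz d c₀ j‖ := by
    intro j hj
    have h1 := hk j hj
    rw [hb]
    beta_reduce
    rw [div_mul_eq_mul_div, le_div_iff₀ (by positivity)]
    calc Ca * s * Pd d c₀ j * (B * θ ^ j) = Ca * (B * θ ^ j * s * Pd d c₀ j) := by ring
      _ ≤ _ := by gcongr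
  have hfd : ∀ x : ℂ, f d c x = x ^ d + c := fun x => rfl
  have hd1 : ((d - 1 : ℕ) : ℝ) ≤ d := by
    have : d - 1 ≤ d := by omega
    exact_mod_cast this
  -- closeness
  have I1 : ∀ x ∈ ball c s, ∀ j ≤ k,
      ‖(f d c)^[j] x - zz d c₀ j‖ ≤ s * (1 + S j) * E j * Pd d c₀ j := by
    intro x hx j
    induction j with
    | zero =>
      intro _
      have h1 : S 0 = 1 := by rw [hS]; simp [Pd_zero]
      have h2 : E 0 = 1 := by rw [hE]; simp
      rw [h1, h2, Pd_zero, Function.iterate_zero, id_eq, zz_zero]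
      rw [mem_ball, dist_eq_norm] at hx
      calc ‖x - c₀‖ = ‖(x - c) + (c - c₀)‖ := by congr 1; ring
        _ ≤ ‖x - c‖ + ‖c - c₀‖ := norm_add_le _ _
        _ ≤ _ := by linarith
    | succ j ih =>
      intro hj
      have ih' := ih (by omega)
      have h1 : ‖(f d c)^[j] x - zz d c₀ j‖ ≤ b j * ‖zz d c₀ j‖ :=
        ih'.trans ((hcoef j).trans (hdelta j (by omega)))
      rw [Function.iterate_succ_apply', hfd, zz_succ]
      set u := (f d c)^[j] x
      set z := zz d c₀ j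
      have h2 : u ^ d + c - (z ^ d + c₀) = (u ^ d - z ^ d) + (c - c₀) := by ring
      have hbj := hb0 j
      have hz0 := norm_nonneg z
      have hum : ‖u‖ ≤ ‖z‖ * (1 + b j) := by
        calc ‖u‖ = ‖(u - z) + z‖ := by congr 1; ring
          _ ≤ ‖u - z‖ + ‖z‖ := norm_add_le _ _
          _ ≤ _ := by linarith
      have hzm : ‖z‖ ≤ ‖z‖ * (1 + b j) := by nlinarith
      have h3 := pow_sub_le u z hum hzm d
      have h3' : (1 + b j) ^ (d - 1) ≤ 1 + 2 * d * b j := by
        have h4 : ((d - 1 : ℕ) : ℝ) * b j ≤ 1 / 2 := by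
          have := hbd j
          nlinarith
        have h5 := pow_up hbj.le h4
        nlinarith
      have hPj := hP j
      have hPj1 := hP (j + 1)
      calc ‖u ^ d + c - (z ^ d + c₀)‖ ≤ d * (‖z‖ * (1 + b j)) ^ (d - 1) * ‖u - z‖ + ‖c - c₀‖ := by
            rw [h2]
            exact (norm_add_le _ _).trans (add_le_add h3 le_rfl)
        _ ≤ d * (‖z‖ ^ (d - 1) * (1 + 2 * d * b j)) * (s * (1 + S j) * E j * Pd d c₀ j) + s := by
            have hEj := hE1 j
            have hSj := hS0 j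
            rw [mul_pow]
            gcongr
        _ = s * (1 + S j) * (E j * (1 + 2 * d * b j)) * Pd d c₀ (j + 1) + s := by
            rw [Pd_succ]
            ring
        _ ≤ s * (1 + S j) * E (j + 1) * Pd d c₀ (j + 1) +
            s * (1 / Pd d c₀ (j + 1)) * E (j + 1) * Pd d c₀ (j + 1) := by
            have hSj := hS0 j
            have h4 : s ≤ s * (1 / Pd d c₀ (j + 1)) * E (j + 1) * Pd d c₀ (j + 1) := by
              have h5 : s * (1 / Pd d c₀ (j + 1)) * E (j + 1) * Pd d c₀ (j + 1) =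
                  s * E (j + 1) := by
                field_simp
              rw [h5]
              nlinarith [hE1 (j + 1)]
            have h6 := hE3 j
            gcongr
        _ = s * (1 + S (j + 1)) * E (j + 1) * Pd d c₀ (j + 1) := by
            have h7 : S (j + 1) = S j + 1 / Pd d c₀ (j + 1) := by
              rw [hS]
              beta_reduce
              rw [Finset.sum_range_succ]
            rw [h7]
            ring
  have I1' : ∀ x ∈ ball c s, ∀ j < k, ‖(f d c)^[j] x - zz d c₀ j‖ ≤ b j * ‖zz d c₀ j‖ :=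
    fun x hx j hj => (I1 x hx j hj.le).trans ((hcoef j).trans (hdelta j hj))
  -- derivatives
  have I2 : ∀ x ∈ ball c s, ∀ j ≤ k, (1 - ∑ i ∈ Finset.range j, 2 * d * b i) * Pd d c₀ j ≤
      ‖deriv ((f d c)^[j]) x‖ := by
    intro x hx j
    induction j with
    | zero =>
      intro _
      simp [Pd_zero]
    | succ j ih =>
      intro hj
      have ih' := ih (by omega)
      have h1 := I1' x hx j (by omega)
      rw [add_comm j 1, deriv_iter_add, Function.iterate_one, deriv_f, norm_mul, norm_mul,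
        add_comm 1 j, Finset.sum_range_succ, Pd_succ, norm_pow, Complex.norm_natCast]
      set u := (f d c)^[j] x
      set z := zz d c₀ j
      have hbj := hb0 j
      have hbdj := hbd j
      have hb1 : b j ≤ 1 := by nlinarith
      have h2 : ‖z‖ * (1 - b j) ≤ ‖u‖ := by
        have h3 : ‖z‖ ≤ ‖u‖ + ‖u - z‖ := by
          calc ‖z‖ = ‖u - (u - z)‖ := by congr 1; ring
            _ ≤ _ := norm_sub_le _ _
        linarith
      have hs1 := hbs (j + 1)
      rw [Finset.sum_range_succ] at hs1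
      have hs2 : 0 ≤ ∑ i ∈ Finset.range j, 2 * d * b i := Finset.sum_nonneg fun i _ => by
        have := hb0 i; positivity
      set SS := ∑ i ∈ Finset.range j, 2 * d * b i
      have hPj := hP j
      have hz0 := norm_nonneg z
      have h1b : 0 ≤ 1 - b j := by linarith
      have h3 : ‖z‖ ^ (d - 1) * (1 - 2 * d * b j) ≤ ‖u‖ ^ (d - 1) := by
        have h4 := pow_low hb1 (d - 1)
        have h5 : 1 - 2 * d * b j ≤ (1 - b j) ^ (d - 1) := by
          refine le_trans ?_ h4
          nlinarith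
        calc ‖z‖ ^ (d - 1) * (1 - 2 * d * b j) ≤ ‖z‖ ^ (d - 1) * (1 - b j) ^ (d - 1) := by gcongr
          _ = (‖z‖ * (1 - b j)) ^ (d - 1) := by rw [mul_pow]
          _ ≤ _ := by gcongr
      have h4 : 0 ≤ 1 - 2 * d * b j := by linarith
      have h5 : 0 ≤ 1 - SS := by
        have : 0 ≤ 2 * d * b j := by positivity
        linarith
      have h6 : 0 ≤ 2 * d * b j := by positivity
      calc (1 - (SS + 2 * d * b j)) * (d * ‖z‖ ^ (d - 1) * Pd d c₀ j)
          ≤ ((1 - SS) * (1 - 2 * d * b j)) * (d * ‖z‖ ^ (d - 1) * Pd d c₀ j) := by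
            gcongr
            nlinarith
        _ = (d * (‖z‖ ^ (d - 1) * (1 - 2 * d * b j))) * ((1 - SS) * Pd d c₀ j) := by ring
        _ ≤ (d * ‖u‖ ^ (d - 1)) * ‖deriv ((f d c)^[j]) x‖ := by
            apply mul_le_mul (by gcongr) ih' (by positivity) (by positivity)
  -- injectivity
  have I3 : ∀ x ∈ ball c s, ∀ y ∈ ball c s, ∀ j ≤ k,
      (1 - ∑ i ∈ Finset.range j, 2 * d * b i) * Pd d c₀ j * ‖x - y‖ ≤
        ‖(f d c)^[j] x - (f d c)^[j] y‖ := by
    intro x hx y hy j
    induction j with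
    | zero =>
      intro _
      simp [Pd_zero]
    | succ j ih =>
      intro hj
      have ih' := ih (by omega)
      have h1 := I1' x hx j (by omega)
      have h1' := I1' y hy j (by omega)
      rw [Function.iterate_succ_apply', Function.iterate_succ_apply', hfd, hfd, Pd_succ,
        Finset.sum_range_succ]
      set u := (f d c)^[j] x
      set v := (f d c)^[j] y
      set z := zz d c₀ j
      have hbj := hb0 j
      have hbdj := hbd j
      have h2 := pow_sub_ge hd hbj.le (by linarith : d * b j ≤ 1 / 2) h1 h1'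
      have hs1 := hbs (j + 1)
      rw [Finset.sum_range_succ] at hs1
      have hs2 : 0 ≤ ∑ i ∈ Finset.range j, 2 * d * b i := Finset.sum_nonneg fun i _ => by
        have := hb0 i; positivity
      set SS := ∑ i ∈ Finset.range j, 2 * d * b i
      have hPj := hP j
      have hz0 := norm_nonneg z
      have hxy := norm_nonneg (x - y)
      have h4 : 0 ≤ 1 - 2 * d * b j := by linarith
      have h5 : 0 ≤ 1 - SS := by
        have : 0 ≤ 2 * d * b j := by positivity
        linarith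
      have h7 : 0 ≤ 2 * d * b j := by positivity
      have h6 : u ^ d + c - (v ^ d + c) = u ^ d - v ^ d := by ring
      rw [h6]
      calc (1 - (SS + 2 * d * b j)) * (d * ‖z‖ ^ (d - 1) * Pd d c₀ j) * ‖x - y‖
          ≤ ((1 - SS) * (1 - 2 * d * b j)) * (d * ‖z‖ ^ (d - 1) * Pd d c₀ j) * ‖x - y‖ := by
            gcongr
            nlinarith
        _ = (d * ‖z‖ ^ (d - 1) * (1 - 2 * d * b j)) * ((1 - SS) * Pd d c₀ j * ‖x - y‖) := by ring
        _ ≤ (d * ‖z‖ ^ (d - 1) * (1 - 2 * d * b j)) * ‖u - v‖ := by gcongr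
        _ ≤ _ := h2
  refine ⟨fun x hx => (I1 x hx k le_rfl).trans (hcoef k), ?_, ?_⟩
  · intro x hx
    refine le_trans ?_ (I2 x hx k le_rfl)
    have := hbs k
    have := hP k
    nlinarith
  · intro x hx y hy hxy
    have h1 := I3 x hx y hy k le_rfl
    rw [hxy, sub_self, norm_zero] at h1
    by_contra hne
    have h2 : 0 < ‖x - y‖ := norm_pos_iff.mpr (sub_ne_zero.mpr hne)
    have h3 : 0 < (1 - ∑ i ∈ Finset.range k, 2 * d * b i) * Pd d c₀ k * ‖x - y‖ := by
      have := hbs k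
      have := hP k
      have : 0 < 1 - ∑ i ∈ Finset.range k, 2 * d * b i := by linarith
      positivity
    linarith

end Pool.Agent.Y298.SH.CD
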