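import Mathlib
import Pool.Agent.Y298.CD.Pass
import Pool.Agent.Y298.SH.Final

/-!
# Areas of the filled Julia set near the critical value and near the critical point (all degrees)
-/

set_option autoImplicit false

open Set Filter Metric MeasureTheory

namespace Pool.Agent.Y298.SH.CD

open Pool.Agent.TH279.MD Pool.Agent.Y298.SH
open Pool.Agent.W746.LD (Univ KC exists_KC)
open Pool.Agent.H713R2.AR (KK)

variable {d : ℕ}

theorem KK_iff (d : ℕ) (c z : ℂ) : z ∈ KK d c ↔ f d c z ∈ KK d c := by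
  unfold KK
  rw [mem_setOf_eq, mem_setOf_eq, not_iff_not]
  have h1 : ∀ k, (fun z : ℂ => z ^ d + c)^[k] (f d c z) = (fun z : ℂ => z ^ d + c)^[k + 1] z := by
    intro k
    rw [Function.iterate_succ_apply]
    rfl
  simp only [h1]
  exact (tendsto_add_atTop_iff_nat (f := fun k => (fun z : ℂ => z ^ d + c)^[k] z) 1).symm

theorem KK_iter (d : ℕ) (c z : ℂ) (n : ℕ) : z ∈ KK d c ↔ (f d c)^[n] z ∈ KK d c := by
  induction n with
  | zero => rfl
  | succ n ih => rw [ih, KK_iff, ← Function.iterate_succ_apply' (f d c)]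

theorem KK_pre (d : ℕ) (c : ℂ) : f d c ⁻¹' KK d c = KK d c := by
  ext z
  exact (KK_iff d c z).symm

theorem isCompact_KK (hd : 2 ≤ d) {c : ℂ} (hc : ‖c‖ ≤ 2) : IsCompact (KK d c) := by
  have h0 := Pool.Agent.H713R2.AR.iInter_EE hd hc
  unfold KK
  rw [← h0]
  refine (Pool.Agent.H713R2.AR.isCompact_EE hd hc 0).of_isClosed_subset
    (isClosed_iInter fun j => (Pool.Agent.H713R2.AR.isCompact_EE hd hc j).isClosed)
    (iInter_subset _ 0)

/-- The area of the filled Julia set inside a ball. -/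
noncomputable def va (d : ℕ) (c v : ℂ) (s : ℝ) : ℝ := (volume (KK d c ∩ ball v s)).toReal

/-- The total area. -/
noncomputable def VA (d : ℕ) (c : ℂ) : ℝ := (volume (KK d c)).toReal

theorem vol_ne (hd : 2 ≤ d) {c : ℂ} (hc : ‖c‖ ≤ 2) (S : Set ℂ) : volume (KK d c ∩ S) ≠ ⊤ :=
  ne_top_of_le_ne_top (isCompact_KK hd hc).measure_lt_top.ne (measure_mono inter_subset_left)

theorem va_le (hd : 2 ≤ d) {c : ℂ} (hc : ‖c‖ ≤ 2) (v : ℂ) (s : ℝ) : va d c v s ≤ VA d c :=
  ENNReal.toReal_mono (isCompact_KK hd hc).measure_lt_top.ne (measure_mono inter_subset_left)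

theorem va_nonneg (d : ℕ) (c v : ℂ) (s : ℝ) : 0 ≤ va d c v s := ENNReal.toReal_nonneg

theorem VA_nonneg (d : ℕ) (c : ℂ) : 0 ≤ VA d c := ENNReal.toReal_nonneg

/-- area under a univalent passage -/
theorem va_pass (hd : 2 ≤ d) {c : ℂ} (hc : ‖c‖ ≤ 2) {s P T : ℝ} {k : ℕ} (hP : 0 < P)
    (hinj : InjOn ((f d c)^[k]) (ball c s))
    (hder : ∀ x ∈ ball c s, P / 2 ≤ ‖deriv ((f d c)^[k]) x‖)
    (hsub : ∀ x ∈ ball c s, ‖(f d c)^[k] x‖ < T) : va d c c s ≤ 4 / P ^ 2 * va d c 0 T := by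
  set E := KK d c ∩ ball c s with hE
  have hEm : MeasurableSet E := (isCompact_KK hd hc).measurableSet.inter measurableSet_ball
  have h1 := Pool.Agent.TH136.Tip.lintegral_holo (differentiable_fn d c k) hEm
    (hinj.mono inter_subset_right) (fun _ => 1)
  simp only [mul_one, lintegral_one, Measure.restrict_apply_univ] at h1
  have h2 : (f d c)^[k] '' E ⊆ KK d c ∩ ball 0 T := by
    rintro _ ⟨z, hz, rfl⟩
    refine ⟨(KK_iter d c z k).mp hz.1, ?_⟩
    rw [mem_ball_zero_iff]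
    exact hsub z hz.2
  have h3 : ENNReal.ofReal ((P / 2) ^ 2) * volume E ≤ volume (KK d c ∩ ball 0 T) := by
    calc ENNReal.ofReal ((P / 2) ^ 2) * volume E = ∫⁻ z in E, ENNReal.ofReal ((P / 2) ^ 2) := by
          rw [setLIntegral_const]
      _ ≤ ∫⁻ z in E, ENNReal.ofReal (‖deriv ((f d c)^[k]) z‖ ^ 2) := by
          apply setLIntegral_mono' hEm
          intro z hz
          apply ENNReal.ofReal_le_ofReal
          exact pow_le_pow_left₀ (by positivity) (hder z hz.2) 2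
      _ = volume ((f d c)^[k] '' E) := h1
      _ ≤ _ := measure_mono h2
  have h4 := ENNReal.toReal_mono (vol_ne hd hc _) h3
  rw [ENNReal.toReal_mul, ENNReal.toReal_ofReal (by positivity)] at h4
  unfold va
  rw [div_mul_eq_mul_div, le_div_iff₀ (by positivity)]
  linarith

/-- The integral of the kernel over the filled Julia set near the critical value. -/
noncomputable def II (d : ℕ) (c : ℂ) (ρ : ℝ) : ENNReal :=
  ∫⁻ w in KK d c ∩ ball c ρ, ENNReal.ofReal (1 / (d * ‖w - c‖ ^ al d))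

theorem II_bound (hd : 2 ≤ d) : ∃ C : ℝ, 0 < C ∧ ∀ c : ℂ, ‖c‖ ≤ 2 → ∀ ρ : ℝ,
    II d c ρ ≤ ENNReal.ofReal (C * dr d (va d c c ρ)) := by
  have hdR : (2 : ℝ) ≤ d := by exact_mod_cast hd
  obtain ⟨C, hC, H⟩ := Pool.Agent.TH279.MD.area_rpow (al d) (al_pos hd) (al_lt hd)
  refine ⟨C, hC, ?_⟩
  intro c hc ρ
  have hm : MeasurableSet (KK d c ∩ ball c ρ) :=
    (isCompact_KK hd hc).measurableSet.inter measurableSet_ball
  have h1 := H c (KK d c ∩ ball c ρ) (va d c c ρ) hm (va_nonneg d c c ρ) (by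
    unfold va
    rw [ENNReal.ofReal_toReal (vol_ne hd hc _)])
  have h2 : (1 : ℝ) - al d / 2 = (d : ℝ)⁻¹ := by
    unfold al
    field_simp
    ring
  rw [h2] at h1
  refine le_trans (lintegral_mono fun w => ENNReal.ofReal_le_ofReal ?_) h1
  beta_reduce
  rcases (norm_nonneg (w - c)).eq_or_lt with h3 | h3
  · rw [← h3, Real.zero_rpow (al_pos hd).ne']; simp
  · have h4 : 0 < ‖w - c‖ ^ al d := Real.rpow_pos_of_pos h3 _
    rw [div_le_div_iff₀ (by positivity) h4]
    nlinarith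

theorem II_ne (hd : 2 ≤ d) {c : ℂ} (hc : ‖c‖ ≤ 2) (ρ : ℝ) : II d c ρ ≠ ⊤ := by
  obtain ⟨C, _, H⟩ := II_bound hd
  exact ne_top_of_le_ne_top ENNReal.ofReal_ne_top (H c hc ρ)

theorem II_mono {c : ℂ} {ρ ρ' : ℝ} (h : ρ ≤ ρ') : II d c ρ ≤ II d c ρ' :=
  lintegral_mono_set (inter_subset_inter_right _ (ball_subset_ball h))

theorem II_eq (hd : 2 ≤ d) {c : ℂ} (hc : ‖c‖ ≤ 2) {t : ℝ} (ht : 0 < t) :
    II d c (t ^ d) = volume (KK d c ∩ ball 0 t) := by
  have hdR : (2 : ℝ) ≤ d := by exact_mod_cast hd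
  have hm : MeasurableSet (KK d c ∩ ball c (t ^ d)) :=
    (isCompact_KK hd hc).measurableSet.inter measurableSet_ball
  have h1 := dualE (d := d) hd c hm (ψ := fun _ => 1) measurable_const
  rw [lintegral_one, Measure.restrict_apply_univ] at h1
  have h2 : f d c ⁻¹' (KK d c ∩ ball c (t ^ d)) = KK d c ∩ ball 0 t := by
    rw [preimage_inter, KK_pre]
    congr 1
    ext y
    have h3 : f d c y - c = y ^ d := by unfold f; ring
    rw [mem_preimage, mem_ball, mem_ball, dist_eq_norm, dist_zero_right, h3, norm_pow]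
    exact pow_lt_pow_iff_left₀ (norm_nonneg _) ht.le (by omega)
  rw [h2] at h1
  rw [h1]
  unfold II
  apply lintegral_congr
  intro w
  unfold LE
  rw [Finset.sum_const, card_RU hd, nsmul_eq_mul, mul_one, ← ENNReal.ofReal_natCast,
    ← ENNReal.ofReal_mul (by positivity)]
  congr 1
  rcases (norm_nonneg (w - c)).eq_or_lt with h4 | h4
  · rw [← h4, Real.zero_rpow (al_pos hd).ne']; simp
  · have h5 : 0 < ‖w - c‖ ^ al d := Real.rpow_pos_of_pos h4 _
    field_simp

theorem II_half (hd : 2 ≤ d) {c : ℂ} (hc : ‖c‖ ≤ 2) {ρ : ℝ} (hρ : 0 < ρ) :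
    (II d c ρ).toReal ≤ (II d c (ρ / 2)).toReal + 2 * va d c c ρ / ρ ^ al d := by
  have hdR : (2 : ℝ) ≤ d := by exact_mod_cast hd
  have hρa : 0 < ρ ^ al d := Real.rpow_pos_of_pos hρ _
  have hm : MeasurableSet (KK d c) := (isCompact_KK hd hc).measurableSet
  have h1 : II d c ρ ≤ II d c (ρ / 2) +
      ENNReal.ofReal (2 / ρ ^ al d) * volume (KK d c ∩ ball c ρ) := by
    have h2 : KK d c ∩ ball c ρ ⊆ (KK d c ∩ ball c (ρ / 2)) ∪
        (KK d c ∩ ball c ρ) \ ball c (ρ / 2) := by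
      rintro w ⟨hw1, hw2⟩
      by_cases h : w ∈ ball c (ρ / 2)
      · exact Or.inl ⟨hw1, h⟩
      · exact Or.inr ⟨⟨hw1, hw2⟩, h⟩
    refine (lintegral_mono_set h2).trans ((lintegral_union_le _ _ _).trans ?_)
    refine add_le_add le_rfl ?_
    calc ∫⁻ w in (KK d c ∩ ball c ρ) \ ball c (ρ / 2), ENNReal.ofReal (1 / (d * ‖w - c‖ ^ al d))
        ≤ ∫⁻ w in (KK d c ∩ ball c ρ) \ ball c (ρ / 2), ENNReal.ofReal (2 / ρ ^ al d) := by
          apply setLIntegral_mono' ((hm.inter measurableSet_ball).diff measurableSet_ball)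
          rintro w ⟨_, hw⟩
          apply ENNReal.ofReal_le_ofReal
          rw [mem_ball, dist_eq_norm, not_lt] at hw
          have h3 : ρ ^ al d ≤ 4 * ‖w - c‖ ^ al d := by
            calc ρ ^ al d ≤ (2 * ‖w - c‖) ^ al d :=
                  Real.rpow_le_rpow hρ.le (by linarith) (al_pos hd).le
              _ = 2 ^ al d * ‖w - c‖ ^ al d := Real.mul_rpow (by norm_num) (norm_nonneg _)
              _ ≤ 2 ^ 2 * ‖w - c‖ ^ al d := by
                  gcongr
                  exact rpow_al_le hd (by norm_num)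
              _ = _ := by norm_num
          have h4 : 0 < ‖w - c‖ ^ al d := Real.rpow_pos_of_pos (by linarith) _
          rw [div_le_div_iff₀ (by positivity) hρa]
          nlinarith
      _ = ENNReal.ofReal (2 / ρ ^ al d) * volume ((KK d c ∩ ball c ρ) \ ball c (ρ / 2)) :=
          setLIntegral_const _ _
      _ ≤ _ := by
          gcongr
          exact diff_subset
  have h3 := ENNReal.toReal_mono (ENNReal.add_ne_top.mpr ⟨II_ne hd hc _,
    ENNReal.mul_ne_top ENNReal.ofReal_ne_top (vol_ne hd hc _)⟩) h1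
  rw [ENNReal.toReal_add (II_ne hd hc _) (ENNReal.mul_ne_top ENNReal.ofReal_ne_top (vol_ne hd hc _)),
    ENNReal.toReal_mul, ENNReal.toReal_ofReal (by positivity)] at h3
  unfold va
  calc (II d c ρ).toReal ≤ _ := h3
    _ = _ := by ring

/-- **The abstract recursion.** -/
theorem recur {μ I : ℝ → ℝ} {a A η s₁ e' e₁ CG Cb : ℝ} {n₀ : ℕ} (hn₀ : 1 ≤ n₀) (ha : 0 ≤ a)
    (hμ0 : ∀ s, 0 ≤ μ s) (hI0 : ∀ s, 0 ≤ I s)
    (hI : Monotone I) (hμA : ∀ s, μ s ≤ A) (hη : 0 < η) (he' : 0 < e') (he'1 : e' ≤ e₁)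
    (he₁ : e₁ = (n₀ : ℝ)⁻¹)
    (hs₁ : s₁ ≤ 1) (hCG : CG * (1 - (1 / 2 : ℝ) ^ e') = 2) (hCb : 0 < Cb)
    (hhalf : ∀ ρ, 0 < ρ → I ρ ≤ I (ρ / 2) + 2 * μ ρ / ρ ^ a)
    (hrec : ∀ s, η ≤ s → s ≤ s₁ → (∃ P T : ℝ, 0 < P ∧ 0 < T ∧ η ≤ T ^ n₀ ∧ T ^ n₀ ≤ s₁ ∧
      μ s ≤ 4 / P ^ 2 * I (T ^ n₀) ∧ 8 * CG * T ≤ P ^ 2 * s ^ (a + e₁) ∧
      8 * (1 + CG) ≤ P ^ 2 * s ^ (a + e')) ∨ μ s ≤ Cb * A * s ^ (a + e₁)) :
    ∀ ρ, η ≤ ρ → ρ ≤ s₁ → I ρ ≤ I η + CG * (Cb * A * ρ ^ e₁ + I η * ρ ^ e') := by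
  set X := I η with hX
  set Y := Cb * A with hY
  have hn₀R : (1 : ℝ) ≤ n₀ := by exact_mod_cast hn₀
  have he₁0 : 0 < e₁ := he'.trans_le he'1
  have hA0 : 0 ≤ A := (hμ0 0).trans (hμA 0)
  have hX0 : 0 ≤ X := hI0 η
  have hY0 : 0 ≤ Y := by positivity
  have hg0 : (0 : ℝ) < (1 / 2 : ℝ) ^ e' := by positivity
  have hg1 : (1 / 2 : ℝ) ^ e' < 1 := Real.rpow_lt_one (by norm_num) (by norm_num) he'
  have hCG0 : 0 < CG := by
    have h1 : 0 < 1 - (1 / 2 : ℝ) ^ e' := by linarith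
    by_contra hcon
    have : CG * (1 - (1 / 2 : ℝ) ^ e') ≤ 0 := mul_nonpos_of_nonpos_of_nonneg (not_lt.mp hcon) h1.le
    linarith
  set G : ℝ → ℝ := fun ρ => Y * ρ ^ e₁ + X * ρ ^ e' with hG
  have hG0 : ∀ ρ, 0 ≤ ρ → 0 ≤ G ρ := fun ρ hρ => by
    rw [hG]
    beta_reduce
    positivity
  have hGhalf : ∀ ρ, 0 ≤ ρ → G (ρ / 2) ≤ (1 / 2 : ℝ) ^ e' * G ρ := by
    intro ρ hρ
    rw [hG]
    beta_reduce
    have e1 : ρ / 2 = (1 / 2) * ρ := by ring
    rw [e1, Real.mul_rpow (by norm_num) hρ, Real.mul_rpow (by norm_num) hρ]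
    have e2 : (1 / 2 : ℝ) ^ e₁ ≤ (1 / 2 : ℝ) ^ e' :=
      Real.rpow_le_rpow_of_exponent_ge (by norm_num) (by norm_num) he'1
    calc Y * ((1 / 2 : ℝ) ^ e₁ * ρ ^ e₁) + X * ((1 / 2 : ℝ) ^ e' * ρ ^ e')
        ≤ Y * ((1 / 2 : ℝ) ^ e' * ρ ^ e₁) + X * ((1 / 2 : ℝ) ^ e' * ρ ^ e') := by gcongr
      _ = _ := by ring
  have hH : ∀ ρ, 0 < ρ → ρ ^ a * G ρ = Y * ρ ^ (a + e₁) + X * ρ ^ (a + e') := by
    intro ρ hρ
    rw [hG]
    beta_reduce
    rw [Real.rpow_add hρ, Real.rpow_add hρ]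
    ring
  -- from the areas to the integrals
  have stepA : ∀ F : ℝ, 0 ≤ F → (∀ s, η ≤ s → s ≤ s₁ → μ s ≤ F * (s ^ a * G s)) →
      ∀ n : ℕ, ∀ ρ, η ≤ ρ → ρ ≤ s₁ → ρ < 2 ^ n * η → I ρ ≤ X + F * (CG * G ρ) := by
    intro F hF hμF n
    induction n with
    | zero =>
      intro ρ h1 _ h2
      rw [pow_zero, one_mul] at h2
      linarith
    | succ n ih =>
      intro ρ h1 h2 h3
      have hρ : 0 < ρ := hη.trans_le h1
      have hρa : 0 < ρ ^ a := Real.rpow_pos_of_pos hρ _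
      have h4 := hhalf ρ hρ
      have h5 : 2 * μ ρ / ρ ^ a ≤ 2 * (F * G ρ) := by
        rw [div_le_iff₀ hρa]
        have := hμF ρ h1 h2
        calc 2 * μ ρ ≤ 2 * (F * (ρ ^ a * G ρ)) := by linarith
          _ = _ := by ring
      have h6 : I (ρ / 2) ≤ X + F * (CG * ((1 / 2 : ℝ) ^ e' * G ρ)) := by
        have hGρ := hG0 ρ hρ.le
        by_cases h7 : ρ / 2 ≤ η
        · have := hI h7
          have h8 : 0 ≤ F * (CG * ((1 / 2 : ℝ) ^ e' * G ρ)) := by positivity
          linarith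
        · rw [not_le] at h7
          refine (ih (ρ / 2) h7.le (by linarith) (by rw [pow_succ] at h3; linarith)).trans ?_
          gcongr
          exact hGhalf ρ hρ.le
      calc I ρ ≤ (X + F * (CG * ((1 / 2 : ℝ) ^ e' * G ρ))) + 2 * (F * G ρ) := by linarith
        _ = X + F * (CG * G ρ) + F * G ρ * (2 - CG * (1 - (1 / 2 : ℝ) ^ e')) := by ring
        _ = _ := by rw [hCG]; ring
  have stepA' : ∀ F : ℝ, 0 ≤ F → (∀ s, η ≤ s → s ≤ s₁ → μ s ≤ F * (s ^ a * G s)) →
      ∀ ρ, η ≤ ρ → ρ ≤ s₁ → I ρ ≤ X + F * (CG * G ρ) := by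
    intro F hF hμF ρ h1 h2
    obtain ⟨n, hn⟩ := pow_unbounded_of_one_lt (ρ / η) (one_lt_two : (1 : ℝ) < 2)
    rw [div_lt_iff₀ hη] at hn
    exact stepA F hF hμF n ρ h1 h2 hn
  -- degenerate case
  rcases hY0.eq_or_lt with hYz | hYpos
  · -- `A = 0`
    have hAz : A = 0 := by
      rw [hY] at hYz
      rcases mul_eq_zero.mp hYz.symm with h | h
      · exact absurd h hCb.ne'
      · exact h
    have hμz : ∀ s, μ s ≤ 0 := fun s => by rw [← hAz]; exact hμA s
    intro ρ h1 h2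
    have h3 := stepA' 0 le_rfl (fun s _ _ => by rw [zero_mul]; exact hμz s) ρ h1 h2
    have h4 := hG0 ρ (hη.le.trans h1)
    rw [zero_mul, add_zero] at h3
    have h5 : 0 ≤ CG * G ρ := by positivity
    exact h3.trans (by linarith)
  -- the contraction
  have hηa : 0 < η ^ a := Real.rpow_pos_of_pos hη _
  set M : ℝ := A / (η ^ a * G η) with hM
  have hGη : 0 < G η := by
    rw [hG]
    beta_reduce
    have : 0 ≤ X * η ^ e' := by positivity
    have : 0 < Y * η ^ e₁ := by positivity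
    linarith
  have hM0 : 0 ≤ M := by positivity
  have hGmono : ∀ s, η ≤ s → η ^ a * G η ≤ s ^ a * G s := by
    intro s hs
    have hs0 : 0 < s := hη.trans_le hs
    have h1 : G η ≤ G s := by
      rw [hG]
      beta_reduce
      gcongr
    have h2 : η ^ a ≤ s ^ a := Real.rpow_le_rpow hη.le hs ha
    exact mul_le_mul h2 h1 hGη.le (by positivity)
  have stepB : ∀ n : ℕ, ∀ s, η ≤ s → s ≤ s₁ → μ s ≤ (1 + M / 2 ^ n) * (s ^ a * G s) := by
    intro n
    induction n with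
    | zero =>
      intro s hs1 hs2
      have h1 := hGmono s hs1
      have h2 : A = M * (η ^ a * G η) := by rw [hM]; field_simp
      have h3 : 0 < η ^ a * G η := by positivity
      calc μ s ≤ A := hμA s
        _ = M * (η ^ a * G η) := h2
        _ ≤ M * (s ^ a * G s) := by gcongr
        _ ≤ _ := by
            rw [pow_zero, div_one]
            have : 0 ≤ s ^ a * G s := h3.le.trans h1
            linarith
    | succ n ih =>
      intro s hs1 hs2
      have hs0 : 0 < s := hη.trans_le hs1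
      have hsa : 0 < s ^ a := Real.rpow_pos_of_pos hs0 _
      set F : ℝ := 1 + M / 2 ^ n with hF
      have hF1 : 1 ≤ F := by
        rw [hF]
        have : 0 ≤ M / 2 ^ n := by positivity
        linarith
      have hsG : 0 ≤ s ^ a * G s := mul_nonneg hsa.le (hG0 s hs0.le)
      have hF' : F / 2 ≤ 1 + M / 2 ^ (n + 1) := by
        rw [hF, pow_succ, ← div_div]
        linarith
      rcases hrec s hs1 hs2 with ⟨P, T, hP, hT, hT1, hT2, h1, h2, h3⟩ | h1
      · have h4 := stepA' F (by linarith) ih (T ^ n₀) hT1 hT2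
        have e1 : (T ^ n₀) ^ e₁ = T := by
          rw [he₁]
          exact Real.pow_rpow_inv_natCast hT.le (by omega)
        have e2 : (T ^ n₀) ^ e' ≤ 1 := Real.rpow_le_one (by positivity) (hT2.trans hs₁) he'.le
        have h5 : G (T ^ n₀) ≤ Y * T + X := by
          rw [hG]
          beta_reduce
          rw [e1]
          have : X * (T ^ n₀) ^ e' ≤ X * 1 := by gcongr
          linarith
        have h6 : μ s ≤ 4 / P ^ 2 * (X + F * (CG * (Y * T + X))) := by
          refine h1.trans ?_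
          gcongr
          refine h4.trans ?_
          gcongr
        have h7 : 4 * (X + F * (CG * (Y * T + X))) ≤ F / 2 * (P ^ 2 * (s ^ a * G s)) := by
          rw [hH s hs0]
          have h8 : Y * (8 * CG * T) ≤ Y * (P ^ 2 * s ^ (a + e₁)) := by gcongr
          have h9 : X * (8 * (1 + CG)) ≤ X * (P ^ 2 * s ^ (a + e')) := by gcongr
          have h10 : X ≤ F * X := by nlinarith
          have h11 : 0 ≤ F := by linarith
          have h12 := mul_le_mul_of_nonneg_left h8 h11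
          have h13 := mul_le_mul_of_nonneg_left h9 h11
          nlinarith
        calc μ s ≤ 4 / P ^ 2 * (X + F * (CG * (Y * T + X))) := h6
          _ = (4 * (X + F * (CG * (Y * T + X)))) / P ^ 2 := by ring
          _ ≤ (F / 2 * (P ^ 2 * (s ^ a * G s))) / P ^ 2 := by gcongr
          _ = F / 2 * (s ^ a * G s) := by field_simp
          _ ≤ _ := by gcongr
      · calc μ s ≤ Y * s ^ (a + e₁) := h1
          _ ≤ s ^ a * G s := by
              rw [hH s hs0]
              have : 0 ≤ X * s ^ (a + e') := by positivity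
              linarith
          _ = 1 * (s ^ a * G s) := (one_mul _).symm
          _ ≤ _ := by
              gcongr
              have : 0 ≤ M / 2 ^ (n + 1) := by positivity
              linarith
  have hfin : ∀ s, η ≤ s → s ≤ s₁ → μ s ≤ 1 * (s ^ a * G s) := by
    intro s hs1 hs2
    have h1 : Tendsto (fun n : ℕ => (1 + M / 2 ^ n) * (s ^ a * G s)) atTop
        (nhds ((1 + 0) * (s ^ a * G s))) := by
      apply Tendsto.mul_const
      apply Tendsto.const_add
      have h2 : Tendsto (fun n : ℕ => M * (1 / 2 : ℝ) ^ n) atTop (nhds (M * 0)) :=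
        (tendsto_pow_atTop_nhds_zero_of_lt_one (by norm_num) (by norm_num)).const_mul M
      rw [mul_zero] at h2
      refine h2.congr fun n => ?_
      rw [one_div, inv_pow]
      rfl
    rw [add_zero] at h1
    exact ge_of_tendsto' h1 fun n => stepB n s hs1 hs2
  intro ρ h1 h2
  have h3 := stepA' 1 (by norm_num) hfin ρ h1 h2
  rw [one_mul] at h3
  exact h3

end Pool.Agent.Y298.SH.CD
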