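import Mathlib
import Pool.Agent.Y298.CD.Area

/-!
# The area of the filled Julia set near the critical point (all degrees)
-/

set_option autoImplicit false

open Set Filter Metric MeasureTheory

namespace Pool.Agent.Y298.SH.CD

open Pool.Agent.TH279.MD Pool.Agent.Y298.SH
open Pool.Agent.W746.LD (Univ KC exists_KC)
open Pool.Agent.H713R2.AR (KK)

variable {d : ℕ} {C₁ lam : ℝ} {c₁ : ℂ}

/-- bounded orbits -/
theorem bdd_pow (hd : 2 ≤ d) {c : ℂ} (hb : ∀ j, ‖zz d c j‖ ≤ 2) {j : ℕ} (hc : ‖c‖ ≤ ‖zz d c j‖) :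
    ‖zz d c j‖ ^ (d - 1) ≤ 2 := by
  by_contra hcon
  rw [not_le] at hcon
  set r : ℝ := ‖zz d c j‖ with hr
  set δ : ℝ := r ^ (d - 1) - 2 with hδ
  have hδ0 : 0 < δ := by linarith
  have hr0 : 0 < r := by
    rcases (norm_nonneg (zz d c j)).eq_or_lt with h | h
    · rw [← hr] at h
      rw [← h, zero_pow (by omega)] at hcon
      linarith
    · exact h
  have h1 : ∀ n, r * (1 + δ) ^ n ≤ ‖zz d c (j + n)‖ := by
    intro n
    induction n with
    | zero => simp [hr]
    | succ n ih =>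
      rw [← add_assoc, zz_succ]
      set v := zz d c (j + n) with hv
      have hge : (1 : ℝ) ≤ (1 + δ) ^ n := one_le_pow₀ (by linarith)
      have hrv : r ≤ ‖v‖ := by
        refine le_trans ?_ ih
        nlinarith
      have h2 : ‖v‖ ^ d - ‖c‖ ≤ ‖v ^ d + c‖ := by
        rw [← norm_pow]
        have := norm_sub_le (v ^ d + c) c
        rw [add_sub_cancel_right] at this
        linarith
      have h3 : ‖v‖ ^ d = ‖v‖ * ‖v‖ ^ (d - 1) := by
        rw [← pow_succ']
        congr 1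
        omega
      have h4 : r ^ (d - 1) ≤ ‖v‖ ^ (d - 1) := by gcongr
      have h5 : ‖v‖ * (2 + δ) ≤ ‖v‖ * ‖v‖ ^ (d - 1) := by
        gcongr
        linarith
      calc r * (1 + δ) ^ (n + 1) = (r * (1 + δ) ^ n) * (1 + δ) := by ring
        _ ≤ ‖v‖ * (1 + δ) := by gcongr
        _ ≤ ‖v‖ ^ d - ‖c‖ := by
            rw [h3]
            nlinarith
        _ ≤ _ := h2
  obtain ⟨n, hn⟩ := pow_unbounded_of_one_lt (2 / r) (by linarith : (1 : ℝ) < 1 + δ)
  rw [div_lt_iff₀ hr0] at hn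
  have h2 := h1 n
  have h3 := hb (j + n)
  linarith

theorem CEp.bd' (h : CEp d C₁ lam c₁) (j : ℕ) : ‖zz d c₁ j‖ ^ (d - 1) ≤ 2 := by
  have hd := h.hd
  have h0 : ‖c₁‖ ^ (d - 1) ≤ 2 := by
    have := bdd_pow hd h.bd (j := 0) (by rw [zz_zero])
    rwa [zz_zero] at this
  rcases le_or_gt ‖c₁‖ ‖zz d c₁ j‖ with h1 | h1
  · exact bdd_pow hd h.bd h1
  · exact (pow_le_pow_left₀ (norm_nonneg _) h1.le _).trans h0

theorem CEp.Pd_le (h : CEp d C₁ lam c₁) (k : ℕ) : Pd d c₁ k ≤ (2 * d) ^ k := by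
  have hd := h.hd
  have hdR : (2 : ℝ) ≤ d := by exact_mod_cast hd
  induction k with
  | zero => rw [Pd_zero, pow_zero]
  | succ k ih =>
    rw [Pd_succ, pow_succ]
    have h1 := h.bd' k
    have h2 := (h.Pd_pos k).le
    calc d * ‖zz d c₁ k‖ ^ (d - 1) * Pd d c₁ k ≤ d * 2 * (2 * d) ^ k := by gcongr
      _ = _ := by ring

/-- the growth constant -/
noncomputable def NN (d : ℕ) : ℝ := 2 ^ (d - 1) * (2 * d) ^ d

/-- The first time a disk of radius `s` comes close to the critical point. -/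
theorem CEp.first (h : CEp d C₁ lam c₁) {B θ : ℝ} (hB : 1 ≤ B) (hθ : 1 ≤ θ) (hθ2 : θ ≤ 2) {s : ℝ}
    (hs : 0 < s) (hs1 : s ≤ 1) :
    ∃ k : ℕ, (∀ j < k, B * θ ^ j * s * Pd d c₁ j ≤ ‖zz d c₁ j‖) ∧
      ‖zz d c₁ k‖ < B * θ ^ k * s * Pd d c₁ k ∧
      lam ^ (k + 1) ≤ C₁ * d * B ^ (d - 1) * (θ ^ k) ^ (d - 1) * (s ^ (d - 1) * Pd d c₁ k ^ d) ∧
      1 ≤ C₁ * d * B ^ (d - 1) * NN d ^ k * s ∧ lam ^ k * s ≤ 2 * C₁ * lam := by
  have hd := h.hd
  have hdR : (2 : ℝ) ≤ d := by exact_mod_cast hd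
  have hl := h.lam1
  have hC1 := h.C1
  have hθ0 : 0 < θ := by linarith
  have hex : ∃ k : ℕ, ‖zz d c₁ k‖ < B * θ ^ k * s * Pd d c₁ k := by
    obtain ⟨k, hk⟩ := pow_unbounded_of_one_lt (2 * C₁ / s) hl
    refine ⟨k, (h.bd k).trans_lt ?_⟩
    have h1 := h.exp k
    have h2 := h.Pd_pos k
    rw [div_lt_iff₀ hs] at hk
    have h3 : 2 * C₁ < C₁ * Pd d c₁ k * s := by
      calc 2 * C₁ < lam ^ k * s := hk
        _ ≤ _ := mul_le_mul_of_nonneg_right h1 hs.le
    have h4 : 2 < Pd d c₁ k * s := by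
      by_contra hcon
      rw [not_lt] at hcon
      nlinarith
    have h5 : 1 ≤ B * θ ^ k := by
      have := one_le_pow₀ (n := k) hθ
      nlinarith
    nlinarith [mul_pos h2 hs]
  classical
  set k := Nat.find hex with hkdef
  have hk : ‖zz d c₁ k‖ < B * θ ^ k * s * Pd d c₁ k := Nat.find_spec hex
  have hlt : ∀ j < k, B * θ ^ j * s * Pd d c₁ j ≤ ‖zz d c₁ j‖ := fun j hj =>
    not_lt.mp (Nat.find_min hex hj)
  have hP := h.Pd_pos k
  have hpd : ∀ P : ℝ, P ^ (d - 1) * P = P ^ d := fun P => by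
    rw [← pow_succ]
    congr 1
    omega
  have h3 : lam ^ (k + 1) ≤
      C₁ * d * B ^ (d - 1) * (θ ^ k) ^ (d - 1) * (s ^ (d - 1) * Pd d c₁ k ^ d) := by
    have h1 := h.exp (k + 1)
    rw [Pd_succ] at h1
    calc lam ^ (k + 1) ≤ C₁ * (d * ‖zz d c₁ k‖ ^ (d - 1) * Pd d c₁ k) := h1
      _ ≤ C₁ * (d * (B * θ ^ k * s * Pd d c₁ k) ^ (d - 1) * Pd d c₁ k) := by gcongr
      _ = C₁ * d * B ^ (d - 1) * (θ ^ k) ^ (d - 1) *
          (s ^ (d - 1) * (Pd d c₁ k ^ (d - 1) * Pd d c₁ k)) := by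
          rw [mul_pow, mul_pow, mul_pow]
          ring
      _ = _ := by rw [hpd]
  refine ⟨k, hlt, hk, h3, ?_, ?_⟩
  · have h4 : (1 : ℝ) ≤ lam ^ (k + 1) := one_le_pow₀ hl.le
    refine h4.trans (h3.trans ?_)
    have h5 := h.Pd_le k
    have h6 : s ^ (d - 1) ≤ s := by
      calc s ^ (d - 1) ≤ s ^ 1 := pow_le_pow_of_le_one hs.le hs1 (by omega)
        _ = s := pow_one s
    calc C₁ * d * B ^ (d - 1) * (θ ^ k) ^ (d - 1) * (s ^ (d - 1) * Pd d c₁ k ^ d)
        ≤ C₁ * d * B ^ (d - 1) * (2 ^ k) ^ (d - 1) * (s * ((2 * d) ^ k) ^ d) := by gcongr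
      _ = _ := by
          unfold NN
          rw [mul_pow ((2 : ℝ) ^ (d - 1)) ((2 * (d : ℝ)) ^ d) k, pow_right_comm (2 : ℝ) k (d - 1),
            pow_right_comm (2 * (d : ℝ)) k d]
          ring
  · rcases Nat.eq_zero_or_pos k with h0 | h0
    · rw [h0, pow_zero, one_mul]
      nlinarith
    · obtain ⟨j, hj⟩ : ∃ j, k = j + 1 := ⟨k - 1, by omega⟩
      have h5 := hlt j (by omega)
      have h6 := h.exp j
      have h7 := h.Pd_pos j
      have h8 : s * Pd d c₁ j ≤ 2 := by
        refine le_trans ?_ (h5.trans (h.bd j))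
        have h9 : 1 ≤ B * θ ^ j := by
          have := one_le_pow₀ (n := j) hθ
          nlinarith
        nlinarith [mul_pos h7 hs]
      rw [hj, pow_succ]
      calc lam ^ j * lam * s = lam * (s * lam ^ j) := by ring
        _ ≤ lam * (s * (C₁ * Pd d c₁ j)) := by gcongr
        _ = lam * C₁ * (s * Pd d c₁ j) := by ring
        _ ≤ lam * C₁ * 2 := by gcongr
        _ = _ := by ring

/-- **The area of the filled Julia set near the critical point.** -/
theorem crit_area (hd : 2 ≤ d) (C₁ lam θ : ℝ) (hC₁ : 1 ≤ C₁) (hlam : 1 < lam) (hθ : 1 < θ)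
    (hθ2 : θ ≤ 2) (hθd : θ ^ (3 * d) ≤ lam) :
    ∃ B s₁ D : ℝ, 1 ≤ B ∧ 0 < s₁ ∧ s₁ ≤ 1 ∧ 0 < D ∧ ∀ c₁ : ℂ, CEp d C₁ lam c₁ → ∀ c : ℂ, c ≠ c₁ →
      ‖c‖ ≤ 2 → ‖c - c₁‖ ≤ s₁ →
      ∃ k : ℕ, ‖zz d c₁ k‖ < B * θ ^ k * ‖c - c₁‖ * Pd d c₁ k ∧
        lam ^ k * ‖c - c₁‖ ≤ 2 * C₁ * lam ∧
        1 ≤ C₁ * d * B ^ (d - 1) * NN d ^ k * ‖c - c₁‖ ∧
        (∀ j ≤ k, Pd d c₁ j / 2 ≤ ‖deriv ((f d c)^[j]) c‖) ∧
        ∀ ρ : ℝ, ‖c - c₁‖ ≤ ρ → ρ ≤ s₁ →
          (II d c ρ).toReal ≤ D * (VA d c * dr d ρ + dr d (VA d c) / Pd d c₁ k ^ be d) := by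
  have hdR : (2 : ℝ) ≤ d := by exact_mod_cast hd
  have hd0 : (0 : ℝ) < d := by linarith
  have hb0 := be_pos hd
  have hb1 := be_le_one hd
  obtain ⟨B, Ca, hCa1, hCaB, hpass⟩ := passage hd C₁ lam θ hC₁ hlam hθ
  obtain ⟨CI, hCI, hII⟩ := II_bound hd
  have hB : 1 ≤ B := hCa1.trans hCaB
  have hB0 : 0 < B := by linarith
  have hC₁0 : 0 < C₁ := by linarith
  have hθ0 : 0 < θ := by linarith
  have hlam0 : 0 < lam := by linarith
  -- the exponents
  set e₁ : ℝ := (d : ℝ)⁻¹ with he₁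
  have he₁0 : 0 < e₁ := by positivity
  set N : ℝ := NN d with hNdef
  have hN2 : (2 : ℝ) ^ d ≤ N := by
    rw [hNdef]
    unfold NN
    have h1 : (1 : ℝ) ≤ 2 ^ (d - 1) := one_le_pow₀ (by norm_num)
    have h2 : (2 : ℝ) ^ d ≤ (2 * d) ^ d := by
      gcongr
      linarith
    have h3 : (0 : ℝ) < (2 * d) ^ d := by positivity
    nlinarith
  have hN1 : 1 < N := lt_of_lt_of_le (one_lt_pow₀ (by norm_num) (by omega)) hN2
  have hN0 : 0 < N := by linarith
  set e' : ℝ := Real.log θ / Real.log N with he'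
  have hlogN : 0 < Real.log N := Real.log_pos hN1
  have hlogθ : 0 < Real.log θ := Real.log_pos hθ
  have he'0 : 0 < e' := by positivity
  have he'1 : e' ≤ e₁ := by
    rw [he', he₁, div_le_iff₀ hlogN, inv_mul_eq_div, le_div_iff₀ hd0, mul_comm, ← Real.log_pow]
    apply Real.log_le_log (by positivity)
    exact (pow_le_pow_left₀ hθ0.le hθ2 d).trans hN2
  have he'θ : N ^ e' = θ := by
    rw [Real.rpow_def_of_pos hN0, he', mul_div_cancel₀ _ hlogN.ne', Real.exp_log hθ0]
  have he'le1 : e' ≤ 1 := by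
    refine he'1.trans ?_
    rw [he₁]
    exact inv_le_one_of_one_le₀ (by linarith)
  set CG : ℝ := 2 / (1 - (1 / 2 : ℝ) ^ e') with hCG
  have hg1 : (1 / 2 : ℝ) ^ e' < 1 := Real.rpow_lt_one (by norm_num) (by norm_num) he'0
  have hg2 : 0 < 1 - (1 / 2 : ℝ) ^ e' := by linarith
  have hCG0 : 0 < CG := by positivity
  have hCG1 : CG * (1 - (1 / 2 : ℝ) ^ e') = 2 := by rw [hCG]; field_simp
  -- the threshold
  set W : ℝ := C₁ * d * B ^ (d - 1) with hW
  have hBp : 1 ≤ B ^ (d - 1) := one_le_pow₀ hB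
  have hW1 : 1 ≤ W := by
    rw [hW]
    exact one_le_mul_of_one_le_of_one_le (one_le_mul_of_one_le_of_one_le hC₁ (by linarith)) hBp
  have hW0 : 0 < W := by linarith
  set XX : ℝ := 8 * (1 + CG) * W + W * (16 * CG * B) ^ d + W with hXX
  obtain ⟨k₁, hk₁⟩ := pow_unbounded_of_one_lt XX hθ
  set s₁ : ℝ := 1 / (W * N ^ k₁) with hs₁
  have hs₁0 : 0 < s₁ := by positivity
  have hNk : (1 : ℝ) ≤ N ^ k₁ := one_le_pow₀ hN1.le
  have hs₁1 : s₁ ≤ 1 := by
    rw [hs₁, div_le_one (by positivity)]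
    nlinarith
  set Cb : ℝ := 32 * B ^ 2 * C₁ * lam / s₁ ^ 2 with hCb
  have hCb0 : 0 < Cb := by positivity
  set D : ℝ := (1 + CG) * (4 * CI) + CG * Cb with hD
  refine ⟨B, s₁, D, hB, hs₁0, hs₁1, by positivity, ?_⟩
  intro c₁ h c hcc hc hce
  have he0 : 0 < ‖c - c₁‖ := norm_pos_iff.mpr (sub_ne_zero.mpr hcc)
  set η := ‖c - c₁‖ with hη
  have hA0 := VA_nonneg d c
  -- the passage for the radius `s`
  have hva : ∀ s : ℝ, η ≤ s → s ≤ 1 → ∀ k : ℕ,
      (∀ j < k, B * θ ^ j * s * Pd d c₁ j ≤ ‖zz d c₁ j‖) →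
      ‖zz d c₁ k‖ < B * θ ^ k * s * Pd d c₁ k → ∀ T : ℝ, T = 2 * (B * θ ^ k * s * Pd d c₁ k) →
      va d c c s ≤ 4 / Pd d c₁ k ^ 2 * va d c 0 T := by
    intro s hs1 hs2 k hk1 hk2 T hT
    have hs0 : 0 < s := he0.trans_le hs1
    obtain ⟨hp1, hp2, hp3⟩ := hpass c₁ h c s k hs0 hs1 hk1
    refine va_pass hd hc (h.Pd_pos k) hp3 hp2 ?_
    intro x hx
    have h1 := hp1 x hx
    have h2 := h.Pd_pos k
    have h3 : Ca * s * Pd d c₁ k ≤ B * θ ^ k * s * Pd d c₁ k := by
      have h4 : Ca ≤ B * θ ^ k := by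
        have := one_le_pow₀ (n := k) hθ.le
        nlinarith
      gcongr
    calc ‖(f d c)^[k] x‖ = ‖((f d c)^[k] x - zz d c₁ k) + zz d c₁ k‖ := by congr 1; ring
      _ ≤ ‖(f d c)^[k] x - zz d c₁ k‖ + ‖zz d c₁ k‖ := norm_add_le _ _
      _ < T := by rw [hT]; linarith
  obtain ⟨k, hk1, hk2, hk3, hk4, hk5⟩ := h.first hB hθ.le hθ2 he0 (hce.trans hs₁1)
  refine ⟨k, hk2, hk5, hk4, ?_, ?_⟩
  · intro j hj
    obtain ⟨-, hp2, -⟩ := hpass c₁ h c η j he0 le_rfl (fun i hi => hk1 i (by omega))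
    exact hp2 c (mem_ball_self he0)
  intro ρ hρ1 hρ2
  have e1a : al d + e₁ = 2 - e₁ := by
    rw [he₁]
    unfold al
    ring
  -- the recursion
  have hrec := recur (μ := fun s => va d c c s) (I := fun ρ => (II d c ρ).toReal) (a := al d)
    (A := VA d c) (η := η) (n₀ := d)
    (s₁ := s₁) (e' := e') (e₁ := e₁) (CG := CG) (Cb := Cb) (by omega) (al_pos hd).le
    (fun s => va_nonneg d c c s)
    (fun s => ENNReal.toReal_nonneg)
    (fun a b hab => ENNReal.toReal_mono (II_ne hd hc _) (II_mono hab))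
    (fun s => va_le hd hc c s) he0 he'0 he'1 rfl hs₁1 hCG1 hCb0 (fun ρ hρ => II_half hd hc hρ) ?_
      ρ hρ1 hρ2
  · -- conclusion
    beta_reduce at hrec
    have hρ0 : 0 < ρ := he0.trans_le hρ1
    have hρe : ρ ^ e' ≤ 1 := Real.rpow_le_one hρ0.le (hρ2.trans hs₁1) he'0.le
    have hX0 : 0 ≤ (II d c η).toReal := ENNReal.toReal_nonneg
    have hP := h.Pd_pos k
    have hPb : 0 < Pd d c₁ k ^ be d := Real.rpow_pos_of_pos hP _
    have hX : (II d c η).toReal ≤ 4 * CI * (dr d (VA d c) / Pd d c₁ k ^ be d) := by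
      have hdr0 : 0 ≤ dr d (va d c c η) := dr_nonneg (va_nonneg d c c η)
      have h1 := ENNReal.toReal_mono ENNReal.ofReal_ne_top (hII c hc η)
      rw [ENNReal.toReal_ofReal (by positivity)] at h1
      have h2 := hva η le_rfl (hce.trans hs₁1) k hk1 hk2 _ rfl
      have h3 : va d c c η ≤ 4 / Pd d c₁ k ^ 2 * VA d c := h2.trans (by
        gcongr
        exact va_le hd hc _ _)
      have h4 : dr d (va d c c η) ≤ 4 / Pd d c₁ k ^ be d * dr d (VA d c) := by
        have h5 : dr d (va d c c η) ≤ dr d (4 / Pd d c₁ k ^ 2 * VA d c) := by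
          unfold dr
          exact Real.rpow_le_rpow (va_nonneg d c c η) h3 (by positivity)
        refine h5.trans ?_
        have h6 : dr d (4 / Pd d c₁ k ^ 2 * VA d c) =
            dr d 4 / Pd d c₁ k ^ be d * dr d (VA d c) := by
          unfold dr
          rw [Real.mul_rpow (by positivity) hA0, Real.div_rpow (by norm_num) (by positivity),
            ← Real.rpow_natCast (Pd d c₁ k) 2, ← Real.rpow_mul hP.le]
          congr 3
        have h7 : dr d 4 ≤ 4 := by
          rw [dr_le_iff hd (by norm_num) (by norm_num)]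
          calc (4 : ℝ) = 4 ^ 1 := by norm_num
            _ ≤ 4 ^ d := pow_le_pow_right₀ (by norm_num) (by omega)
        have h8 : 0 ≤ dr d (VA d c) := dr_nonneg hA0
        rw [h6]
        gcongr
      calc (II d c η).toReal ≤ CI * dr d (va d c c η) := h1
        _ ≤ CI * (4 / Pd d c₁ k ^ be d * dr d (VA d c)) := by gcongr
        _ = _ := by ring
    have hρh : 0 ≤ ρ ^ e₁ := by positivity
    have hY0 : 0 ≤ dr d (VA d c) / Pd d c₁ k ^ be d := div_nonneg (dr_nonneg hA0) hPb.le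
    have hZ0 : 0 ≤ VA d c * ρ ^ e₁ := by positivity
    calc (II d c ρ).toReal ≤ (II d c η).toReal + CG * (Cb * VA d c * ρ ^ e₁ +
          (II d c η).toReal * ρ ^ e') := hrec
      _ ≤ (II d c η).toReal + CG * (Cb * VA d c * ρ ^ e₁ + (II d c η).toReal * 1) := by gcongr
      _ = (1 + CG) * (II d c η).toReal + CG * Cb * (VA d c * ρ ^ e₁) := by ring
      _ ≤ (1 + CG) * (4 * CI * (dr d (VA d c) / Pd d c₁ k ^ be d)) +
          CG * Cb * (VA d c * ρ ^ e₁) := by
          gcongr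
      _ ≤ D * (VA d c * dr d ρ + dr d (VA d c) / Pd d c₁ k ^ be d) := by
          have hdr : dr d ρ = ρ ^ e₁ := rfl
          rw [hD, hdr]
          have h1 : 0 ≤ CG * Cb * (dr d (VA d c) / Pd d c₁ k ^ be d) := by positivity
          have h2 : 0 ≤ (1 + CG) * (4 * CI) * (VA d c * ρ ^ e₁) := by positivity
          linarith
  · -- verification of the hypotheses
    intro s hs1 hs2
    have hs0 : 0 < s := he0.trans_le hs1
    have hs1' : s ≤ 1 := hs2.trans hs₁1
    obtain ⟨n, hn1, hn2, hn3, hn4, hn5⟩ := h.first hB hθ.le hθ2 hs0 hs1'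
    rw [← hW] at hn3 hn4
    rw [← hNdef] at hn4
    set P := Pd d c₁ n with hP
    have hP0 : 0 < P := h.Pd_pos n
    have hnk : k₁ ≤ n := by
      by_contra hcon
      rw [not_le] at hcon
      have h1 : N ^ n < N ^ k₁ := pow_lt_pow_right₀ hN1 hcon
      have h2 : W * N ^ n * s ≤ W * N ^ n * s₁ := by gcongr
      have h3 : W * N ^ n * s₁ < 1 := by
        rw [hs₁, mul_one_div, div_lt_one (by positivity)]
        gcongr
      linarith
    set x := θ ^ n with hx
    have hx1 : 1 ≤ x := one_le_pow₀ hθ.le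
    have hx0 : 0 < x := by linarith
    have hxN : XX < x := hk₁.trans_le (pow_le_pow_right₀ hθ.le hnk)
    have hlx : x ^ (3 * d) ≤ lam ^ n := by
      rw [hx, ← pow_mul, mul_comm n (3 * d), pow_mul]
      gcongr
    have hlx' : x ^ (3 * d) ≤ lam ^ (n + 1) := hlx.trans (pow_le_pow_right₀ hlam.le (by omega))
    -- lower bound for `Z = s ^ (d - 1) * P ^ d`
    set Z : ℝ := s ^ (d - 1) * P ^ d with hZ
    have hZ0 : 0 < Z := by positivity
    have hZx : x ^ (2 * d + 1) ≤ W * Z := by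
      have h1 : x ^ (2 * d + 1) * x ^ (d - 1) ≤ W * Z * x ^ (d - 1) := by
        calc x ^ (2 * d + 1) * x ^ (d - 1) = x ^ (3 * d) := by
              rw [← pow_add]
              congr 1
              omega
          _ ≤ lam ^ (n + 1) := hlx'
          _ ≤ W * x ^ (d - 1) * Z := hn3
          _ = _ := by ring
      exact le_of_mul_le_mul_right h1 (by positivity)
    have hWx : W ≤ x := by
      have : 0 ≤ 8 * (1 + CG) * W + W * (16 * CG * B) ^ d := by positivity
      linarith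
    have hZx2 : x ^ (2 * d) ≤ Z := by
      have h1 : W * x ^ (2 * d) ≤ W * Z := by
        calc W * x ^ (2 * d) ≤ x * x ^ (2 * d) := by gcongr
          _ = x ^ (2 * d + 1) := by rw [pow_succ]; ring
          _ ≤ _ := hZx
      exact le_of_mul_le_mul_left h1 hW0
    set T : ℝ := 2 * (B * x * s * P) with hT
    have hT0 : 0 < T := by positivity
    have h1 := hva s hs1 hs1' n hn1 hn2 T rfl
    by_cases hTs : T ^ d ≤ s₁
    · left
      refine ⟨P, T, hP0, hT0, ?_, hTs, ?_, ?_, ?_⟩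
      · -- `η ≤ T ^ d`
        refine hs1.trans ?_
        have h2 : T ^ d = (2 * (B * x)) ^ d * (s * Z) := by
          have h3 : s * s ^ (d - 1) = s ^ d := by
            rw [← pow_succ']
            congr 1
            omega
          calc T ^ d = (2 * (B * x) * (s * P)) ^ d := by rw [hT]; ring
            _ = (2 * (B * x)) ^ d * ((s * s ^ (d - 1)) * P ^ d) := by rw [mul_pow, mul_pow s P, h3]
            _ = _ := by rw [hZ]; ring
        rw [h2]
        have h3 : 1 ≤ (2 * (B * x)) ^ d := by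
          apply one_le_pow₀
          nlinarith
        have h4 : 1 ≤ Z := (one_le_pow₀ hx1).trans hZx2
        calc s = 1 * (s * 1) := by ring
          _ ≤ _ := by gcongr
      · refine h1.trans (le_of_eq ?_)
        beta_reduce
        rw [II_eq hd hc hT0]
        rfl
      · -- first smallness
        have h2 : 16 * CG * B * x ≤ dr d Z := by
          rw [le_dr_iff hd (by positivity) hZ0.le]
          have h4 : W * (16 * CG * B) ^ d ≤ x := by
            have : 0 ≤ 8 * (1 + CG) * W := by positivity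
            linarith
          have h5 : W * (16 * CG * B * x) ^ d ≤ W * Z := by
            calc W * (16 * CG * B * x) ^ d = (W * (16 * CG * B) ^ d) * x ^ d := by
                  rw [mul_pow (16 * CG * B)]; ring
              _ ≤ x * x ^ d := by gcongr
              _ = x ^ (d + 1) := by rw [pow_succ]; ring
              _ ≤ x ^ (2 * d + 1) := pow_le_pow_right₀ hx1 (by omega)
              _ ≤ _ := hZx
          exact le_of_mul_le_mul_left h5 hW0
        -- `dr d Z = P * s ^ (1 - e₁)`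
        have h3 : dr d Z = P * s ^ (1 - e₁) := by
          unfold dr
          rw [hZ, Real.mul_rpow (by positivity) (by positivity),
            Real.pow_rpow_inv_natCast hP0.le (by omega), ← Real.rpow_natCast s (d - 1),
            ← Real.rpow_mul hs0.le, mul_comm]
          congr 2
          rw [Nat.cast_sub (by omega), Nat.cast_one, he₁]
          field_simp
        have h4 : s ^ (al d + e₁) = s * s ^ (1 - e₁) := by
          rw [e1a, show (2 : ℝ) - e₁ = 1 + (1 - e₁) by ring, Real.rpow_add hs0, Real.rpow_one]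
        rw [h4]
        calc 8 * CG * T = (16 * CG * B * x) * (s * P) := by rw [hT]; ring
          _ ≤ (P * s ^ (1 - e₁)) * (s * P) := by
              rw [← h3]
              gcongr
          _ = _ := by ring
      · -- second smallness
        have h2 : 1 / (W * x) ≤ s ^ e' := by
          have h3 : 1 / (W * N ^ n) ≤ s := by
            rw [div_le_iff₀ (by positivity)]
            linarith
          have h4 : (1 / (W * N ^ n)) ^ e' ≤ s ^ e' :=
            Real.rpow_le_rpow (by positivity) h3 he'0.le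
          refine le_trans ?_ h4
          rw [Real.div_rpow zero_le_one (by positivity), Real.one_rpow,
            Real.mul_rpow hW0.le (by positivity)]
          have h5 : (N ^ n) ^ e' = x := by
            rw [← Real.rpow_natCast, ← Real.rpow_mul hN0.le, mul_comm,
              Real.rpow_mul hN0.le, he'θ, Real.rpow_natCast]
          rw [h5]
          have h6 : W ^ e' ≤ W := by
            calc W ^ e' ≤ W ^ (1 : ℝ) := Real.rpow_le_rpow_of_exponent_le hW1 he'le1
              _ = W := Real.rpow_one W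
          gcongr
        have h3 : 8 * (1 + CG) * W ≤ x := by
          have : 0 ≤ W * (16 * CG * B) ^ d := by positivity
          linarith
        -- `Z ^ b = P ^ 2 * s ^ a`
        have h4 : Z ^ be d = P ^ 2 * s ^ al d := by
          rw [hZ, Real.mul_rpow (by positivity) (by positivity), pow_rpow_be hd hs0.le,
            ← Real.rpow_natCast P d, ← Real.rpow_mul hP0.le, d_be hd, Real.rpow_two]
          ring
        have h5 : x ^ 4 ≤ Z ^ be d := by
          calc x ^ 4 = (x ^ (2 * d)) ^ be d := by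
                rw [← Real.rpow_natCast x (2 * d), ← Real.rpow_mul hx0.le]
                have : ((2 * d : ℕ) : ℝ) * be d = (4 : ℕ) := by
                  push_cast
                  rw [mul_assoc, d_be hd]
                  norm_num
                rw [this, Real.rpow_natCast]
            _ ≤ _ := Real.rpow_le_rpow (by positivity) hZx2 hb0.le
        rw [Real.rpow_add hs0, ← mul_assoc, ← h4]
        calc 8 * (1 + CG) ≤ x / W := by rw [le_div_iff₀ hW0]; exact h3
          _ ≤ x ^ 3 / W := by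
              gcongr
              calc x = x ^ 1 := (pow_one x).symm
                _ ≤ x ^ 3 := pow_le_pow_right₀ hx1 (by norm_num)
          _ = x ^ 4 * (1 / (W * x)) := by field_simp
          _ ≤ _ := by gcongr
    · right
      rw [not_le] at hTs
      have h2 : va d c c s ≤ 4 / P ^ 2 * VA d c := h1.trans (by
        gcongr
        exact va_le hd hc _ _)
      refine h2.trans ?_
      have hT1 : s₁ ≤ T := by
        by_contra hcon
        rw [not_le] at hcon
        have h3 : T ^ d ≤ T := by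
          calc T ^ d ≤ T ^ 1 := pow_le_pow_of_le_one hT0.le (by linarith) (by omega)
            _ = T := pow_one T
        linarith
      have h3 : 4 / P ^ 2 ≤ Cb * s ^ (al d + e₁) := by
        have h4 : x ^ 2 * s ^ e₁ ≤ 2 * C₁ * lam := by
          have h5 : x ^ 2 * s ^ e₁ = dr d (x ^ (2 * d) * s) := by
            unfold dr
            rw [Real.mul_rpow (by positivity) hs0.le, pow_mul,
              Real.pow_rpow_inv_natCast (by positivity) (by omega)]
          rw [h5, dr_le_iff hd (by positivity) (by positivity)]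
          have h6 : x ^ (2 * d) * s ≤ 2 * C₁ * lam := by
            calc x ^ (2 * d) * s ≤ x ^ (3 * d) * s :=
                  mul_le_mul_of_nonneg_right (pow_le_pow_right₀ hx1 (by omega)) hs0.le
              _ ≤ lam ^ n * s := by gcongr
              _ ≤ _ := hn5
          refine h6.trans ?_
          have h7 : 1 ≤ 2 * C₁ * lam := by nlinarith
          calc 2 * C₁ * lam = (2 * C₁ * lam) ^ 1 := (pow_one _).symm
            _ ≤ _ := pow_le_pow_right₀ h7 (by omega)
        have h8 : s ^ (al d + e₁) * s ^ e₁ = s ^ 2 := by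
          rw [← Real.rpow_add hs0, e1a, sub_add_cancel, Real.rpow_two]
        have hse : 0 < s ^ (al d + e₁) := Real.rpow_pos_of_pos hs0 _
        rw [hCb, div_le_iff₀ (by positivity), div_mul_eq_mul_div, div_mul_eq_mul_div,
          le_div_iff₀ (by positivity)]
        calc 4 * s₁ ^ 2 ≤ 4 * T ^ 2 := by gcongr
          _ = 16 * B ^ 2 * x ^ 2 * s ^ 2 * P ^ 2 := by rw [hT]; ring
          _ = 16 * B ^ 2 * (x ^ 2 * s ^ e₁) * s ^ (al d + e₁) * P ^ 2 := by rw [← h8]; ring
          _ ≤ 16 * B ^ 2 * (2 * C₁ * lam) * s ^ (al d + e₁) * P ^ 2 := by gcongr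
          _ = _ := by ring
      calc 4 / P ^ 2 * VA d c ≤ (Cb * s ^ (al d + e₁)) * VA d c := by gcongr
        _ = _ := by ring

end Pool.Agent.Y298.SH.CD
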