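import Mathlib
import Pool.Agent.Y298.CD.Hole
import Pool.Agent.Y298.CE.PsiCE

/-!
# Transversality at Collet-Eckmann parameters: `∑ 1 / (f^n)'(c) ≠ 0`
-/

set_option autoImplicit false

open Set Filter Metric MeasureTheory

namespace Pool.Agent.Y298.SH.CD

open Pool.Agent.TH279.MD Pool.Agent.Y298.SH

variable {d : ℕ} {C₁ lam : ℝ} {c : ℂ}

theorem norm_bb (d : ℕ) (c : ℂ) (n : ℕ) : ‖bb d c n‖ = (Pd d c n)⁻¹ := by
  unfold bb Pd
  rw [norm_inv]

theorem CEp.bb_le (h : CEp d C₁ lam c) (n : ℕ) : ‖bb d c n‖ ≤ C₁ * (1 / lam) ^ n := by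
  have h1 := h.exp n
  have h2 := h.Pd_pos n
  have hl : 0 < lam := by linarith [h.lam1]
  rw [norm_bb, one_div, inv_pow, ← div_eq_mul_inv, inv_le_iff_one_le_mul₀ h2,
    div_mul_eq_mul_div, le_div_iff₀ (by positivity)]
  linarith

theorem CEp.summable_bb (h : CEp d C₁ lam c) : Summable fun n => ‖bb d c n‖ := by
  have hl : 1 < lam := h.lam1
  refine Summable.of_nonneg_of_le (fun n => norm_nonneg _) h.bb_le
    ((summable_geometric_of_lt_one (by positivity) ?_).mul_left C₁)
  rw [div_lt_one (by linarith)]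
  exact hl

/-- **Transversality.** -/
theorem CEp.trans (h : CEp d C₁ lam c) : ∑' n, bb d c n ≠ 0 := by
  intro h0
  have hd := h.hd
  have hc2 : ‖c‖ ≤ 2 := h.bd 0
  obtain ⟨C, hC, HC⟩ := cauchy_int 6 (by norm_num)
  set S : ℕ → Set ℂ := fun n => (f d c)^[n] ⁻¹' closedBall 0 6 with hS
  have hSm : ∀ n, MeasurableSet (S n) := fun n =>
    (continuous_fn d c n).measurable measurableSet_closedBall
  have hSsucc : ∀ n, S (n + 1) = (f d c) ⁻¹' S n := by
    intro n
    ext x
    rw [hS]
    simp only [mem_preimage, Function.iterate_succ_apply]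
  have hSanti : Antitone S := by
    apply antitone_nat_of_succ_le
    intro n x hx
    rw [hS] at hx ⊢
    beta_reduce at hx ⊢
    rw [mem_preimage, Function.iterate_succ_apply'] at hx
    rw [mem_preimage]
    exact closedBall_subset_closedBall (by norm_num) (pre_sub_half hd hc2 le_rfl hx)
  have hS0 : ∀ n, S n ⊆ closedBall 0 6 := fun n => (hSanti (Nat.zero_le n)).trans (fun x hx => hx)
  have hmk : ∀ a : ℂ, Measurable fun w : ℂ => ENNReal.ofReal (‖w - a‖⁻¹) := fun a =>
    ENNReal.measurable_ofReal.comp ((measurable_id.sub_const a).norm.inv)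
  have hsum := h.summable_bb
  -- the orbit is a null set
  have hae : ∀ᵐ w : ℂ, ∀ n, w ≠ (f d c)^[n] c := by
    rw [ae_all_iff]
    intro n
    rw [ae_iff]
    simp
  set T : ℕ → ℂ := fun N => ∑ n ∈ Finset.range (N + 1), bb d c n with hT
  set ε : ℕ → ℝ := fun N => C * (‖bb d c N‖ + ‖T N‖) with hε
  have hε0 : ∀ N, 0 ≤ ε N := fun N => by rw [hε]; positivity
  -- one step
  have step : ∀ n N, ∫⁻ w in S n, ENNReal.ofReal ‖HN d c N w‖ ≤
      (∫⁻ w in S (n + 1), ENNReal.ofReal ‖HN d c N w‖) + ENNReal.ofReal (ε N) := by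
    intro n N
    calc ∫⁻ w in S n, ENNReal.ofReal ‖HN d c N w‖
        ≤ ∫⁻ w in S n, (ENNReal.ofReal ‖RT d c (HN d c N) w‖ +
          (ENNReal.ofReal ‖bb d c N‖ * ENNReal.ofReal (‖w - (f d c)^[N] c‖⁻¹) +
            ENNReal.ofReal ‖T N‖ * ENNReal.ofReal (‖w - c‖⁻¹))) := by
          apply lintegral_mono_ae
          apply ae_restrict_of_ae
          filter_upwards [hae] with w hw
          rw [← ENNReal.ofReal_mul (norm_nonneg _), ← ENNReal.ofReal_mul (norm_nonneg _),
            ← ENNReal.ofReal_add (by positivity) (by positivity),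
            ← ENNReal.ofReal_add (by positivity) (by positivity)]
          apply ENNReal.ofReal_le_ofReal
          have h2 := RT_HN hd (fun n => h.zz_ne n) N hw
          have h3 : HN d c N w = RT d c (HN d c N) w - bb d c N * (w - (f d c)^[N] c)⁻¹ +
              T N * (w - c)⁻¹ := by rw [h2, hT]; ring
          calc ‖HN d c N w‖ = ‖RT d c (HN d c N) w - bb d c N * (w - (f d c)^[N] c)⁻¹ +
              T N * (w - c)⁻¹‖ := by rw [← h3]
            _ ≤ ‖RT d c (HN d c N) w - bb d c N * (w - (f d c)^[N] c)⁻¹‖ +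
              ‖T N * (w - c)⁻¹‖ := norm_add_le _ _
            _ ≤ (‖RT d c (HN d c N) w‖ + ‖bb d c N * (w - (f d c)^[N] c)⁻¹‖) +
              ‖T N * (w - c)⁻¹‖ := by gcongr; exact norm_sub_le _ _
            _ = _ := by rw [norm_mul, norm_mul, norm_inv, norm_inv]; ring
      _ = (∫⁻ w in S n, ENNReal.ofReal ‖RT d c (HN d c N) w‖) +
          ((∫⁻ w in S n, ENNReal.ofReal ‖bb d c N‖ * ENNReal.ofReal (‖w - (f d c)^[N] c‖⁻¹)) +
            ∫⁻ w in S n, ENNReal.ofReal ‖T N‖ * ENNReal.ofReal (‖w - c‖⁻¹)) := by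
          have hm1 : Measurable fun w : ℂ => ENNReal.ofReal ‖bb d c N‖ *
              ENNReal.ofReal (‖w - (f d c)^[N] c‖⁻¹) +
              ENNReal.ofReal ‖T N‖ * ENNReal.ofReal (‖w - c‖⁻¹) :=
            ((hmk _).const_mul _).add ((hmk _).const_mul _)
          rw [lintegral_add_right _ hm1, lintegral_add_right _ ((hmk _).const_mul _)]
      _ ≤ _ := by
          apply add_le_add
          · rw [hSsucc]
            exact RT_contr hd c (hSm n) (measurable_HN d c N)
          · rw [lintegral_const_mul' _ _ ENNReal.ofReal_ne_top,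
              lintegral_const_mul' _ _ ENNReal.ofReal_ne_top, hε]
            beta_reduce
            rw [mul_add,
              ENNReal.ofReal_add (by positivity) (by positivity),
              mul_comm C, mul_comm C, ENNReal.ofReal_mul (norm_nonneg _),
              ENNReal.ofReal_mul (norm_nonneg _)]
            gcongr
            · exact (lintegral_mono_set (hS0 n)).trans (HC _)
            · exact (lintegral_mono_set (hS0 n)).trans (HC _)
  have steps : ∀ n N, ∫⁻ w in S 0, ENNReal.ofReal ‖HN d c N w‖ ≤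
      (∫⁻ w in S n, ENNReal.ofReal ‖HN d c N w‖) + n * ENNReal.ofReal (ε N) := by
    intro n N
    induction n with
    | zero => simp
    | succ n ih =>
      refine ih.trans ?_
      calc _ ≤ ((∫⁻ w in S (n + 1), ENNReal.ofReal ‖HN d c N w‖) + ENNReal.ofReal (ε N)) +
            n * ENNReal.ofReal (ε N) := by
            gcongr
            exact step n N
        _ = _ := by
            push_cast
            ring
  -- the dominating function
  set Φ : ℂ → ENNReal := fun w => (closedBall (0 : ℂ) 6).indicator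
    (fun w => ∑' m, ENNReal.ofReal ‖bb d c m‖ * ENNReal.ofReal (‖w - (f d c)^[m] c‖⁻¹)) w with hΦ
  have hΦint : ∫⁻ w, Φ w ≠ ⊤ := by
    rw [hΦ, lintegral_indicator measurableSet_closedBall, lintegral_tsum
      (fun m => ((hmk _).const_mul _).aemeasurable)]
    refine ne_top_of_le_ne_top ?_ (ENNReal.tsum_le_tsum (g := fun m =>
      ENNReal.ofReal ‖bb d c m‖ * ENNReal.ofReal C) fun m => ?_)
    · rw [ENNReal.tsum_mul_right, ← ENNReal.ofReal_tsum_of_nonneg (fun n => norm_nonneg _) hsum]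
      exact ENNReal.mul_ne_top ENNReal.ofReal_ne_top ENNReal.ofReal_ne_top
    · rw [lintegral_const_mul' _ _ ENNReal.ofReal_ne_top]
      gcongr
      exact HC _
  have hdom : ∀ n N, ∫⁻ w in S n, ENNReal.ofReal ‖HN d c N w‖ ≤ ∫⁻ w in S n, Φ w := by
    intro n N
    apply setLIntegral_mono' (hSm n)
    intro w hw
    rw [hΦ]
    beta_reduce
    rw [indicator_of_mem (hS0 n hw)]
    unfold HN
    refine (ENNReal.ofReal_le_ofReal (norm_sum_le _ _)).trans ?_
    rw [ENNReal.ofReal_sum_of_nonneg (fun n _ => norm_nonneg _)]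
    refine le_trans ?_ (ENNReal.sum_le_tsum (Finset.range N))
    apply Finset.sum_le_sum
    intro m _
    rw [norm_mul, norm_inv, ENNReal.ofReal_mul (norm_nonneg _)]
  -- the sets shrink
  have hvol : Tendsto (volume ∘ S) atTop (nhds 0) := by
    have h1 : Tendsto (volume ∘ S) atTop (nhds (volume (⋂ n, S n))) := by
      apply tendsto_measure_iInter_atTop (fun n => (hSm n).nullMeasurableSet) hSanti
      exact ⟨0, ne_top_of_le_ne_top (isCompact_closedBall (0 : ℂ) 6).measure_lt_top.ne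
        (measure_mono (hS0 0))⟩
    have h2 : volume (⋂ n, S n) = 0 := by
      refine measure_mono_null ?_ h.vol_esc
      intro x hx hxe
      obtain ⟨N, hN⟩ := hxe.far hd hc2 6
      have h3 := mem_iInter.mp hx N
      rw [hS] at h3
      beta_reduce at h3
      rw [mem_preimage, mem_closedBall_zero_iff] at h3
      exact absurd (hN N le_rfl) (not_lt.mpr h3)
    rwa [h2] at h1
  have hJ : Tendsto (fun n => ∫⁻ w in S n, Φ w) atTop (nhds 0) :=
    tendsto_setLIntegral_zero hΦint hvol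
  -- the errors tend to zero
  have hεlim : Tendsto ε atTop (nhds 0) := by
    have hlim1 : Tendsto (fun N => ‖bb d c N‖) atTop (nhds 0) := hsum.tendsto_atTop_zero
    have hlim2 : Tendsto (fun N => ‖T N‖) atTop (nhds 0) := by
      have h1 := (hsum.of_norm.hasSum.tendsto_sum_nat).comp (tendsto_add_atTop_nat 1)
      rw [h0] at h1
      have h2 := h1.norm
      rw [norm_zero] at h2
      exact h2
    have h1 := (hlim1.add hlim2).const_mul C
    rwa [add_zero, mul_zero] at h1
  -- the integrals of the partial sums tend to zero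
  have hzero : ∀ δ : ENNReal, δ ≠ 0 → ∃ N₀, ∀ N, N₀ ≤ N →
      ∫⁻ w in S 0, ENNReal.ofReal ‖HN d c N w‖ ≤ δ := by
    intro δ hδ
    have hδ2 : 0 < δ / 2 := ENNReal.div_pos hδ (by norm_num)
    obtain ⟨n, hn⟩ := (hJ.eventually (gt_mem_nhds hδ2)).exists
    have h1 : Tendsto (fun N => (n : ENNReal) * ENNReal.ofReal (ε N)) atTop (nhds 0) := by
      have h2 := ENNReal.tendsto_ofReal hεlim
      rw [ENNReal.ofReal_zero] at h2
      have h3 := ENNReal.Tendsto.const_mul h2 (a := (n : ENNReal))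
        (Or.inr (ENNReal.natCast_ne_top n))
      rwa [mul_zero] at h3
    obtain ⟨N₀, hN₀⟩ := eventually_atTop.mp (h1.eventually (gt_mem_nhds hδ2))
    refine ⟨N₀, fun N hN => ?_⟩
    calc _ ≤ _ := steps n N
      _ ≤ δ / 2 + δ / 2 := add_le_add ((hdom n N).trans hn.le) (hN₀ N hN).le
      _ = δ := ENNReal.add_halves δ
  -- the pole
  obtain ⟨Ci, hCi, HCi⟩ := Pool.Agent.Y298.SH.CE.inv_int
  have hHCi : ∀ a y : ℂ, ∀ ρ : ℝ, 0 ≤ ρ →
      ∫⁻ w in closedBall y ρ, ENNReal.ofReal (‖w - a‖⁻¹) ≤ ENNReal.ofReal (Ci * ρ) := by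
    intro a y ρ hρ
    refine le_trans (lintegral_mono fun w => ?_) (HCi a y ρ hρ)
    beta_reduce
    rcases (norm_nonneg (w - a)).eq_or_lt with h1 | h1
    · rw [← h1]; simp
    · rw [ENNReal.ofReal_inv_of_pos h1]
  -- tail
  obtain ⟨m₀, hm₀⟩ : ∃ m₀ : ℕ, ∑' m, ‖bb d c (m + m₀)‖ ≤ 1 / Ci := by
    have h1 := tendsto_sum_nat_add (fun m => ‖bb d c m‖)
    obtain ⟨m₀, hm₀⟩ := (h1.eventually (gt_mem_nhds (by positivity : 0 < 1 / Ci))).exists
    exact ⟨m₀, hm₀.le⟩
  have hznec : ∀ m, (f d c)^[m + 1] c ≠ c := by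
    intro m hm
    have h1 : (f d c)^[m + 1] c = ((f d c)^[m] c) ^ d + c := by
      rw [Function.iterate_succ_apply']
      rfl
    rw [h1] at hm
    have h2 : ((f d c)^[m] c) ^ d = 0 := by linear_combination hm
    exact h.zz_ne m (pow_eq_zero_iff (by omega) |>.mp h2)
  obtain ⟨ρ₀, hρ₀, Hρ₀⟩ : ∃ ρ₀ : ℝ, 0 < ρ₀ ∧ ∀ m, m < m₀ →
      2 * ρ₀ ≤ ‖(f d c)^[m + 1] c - c‖ := by
    by_cases hne : (Finset.range m₀).Nonempty
    · refine ⟨(Finset.range m₀).inf' hne (fun m => ‖(f d c)^[m + 1] c - c‖ / 2),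
        (Finset.lt_inf'_iff hne).mpr fun m _ => ?_, fun m hm => ?_⟩
      · have := norm_pos_iff.mpr (sub_ne_zero.mpr (hznec m))
        positivity
      · have := Finset.inf'_le (fun m => ‖(f d c)^[m + 1] c - c‖ / 2) (Finset.mem_range.mpr hm)
        linarith
    · rw [Finset.not_nonempty_iff_eq_empty, Finset.range_eq_empty_iff] at hne
      exact ⟨1, one_pos, fun m hm => by omega⟩
  set sb : ℝ := ∑' m, ‖bb d c m‖ with hsb
  have hsbn : 0 ≤ sb := tsum_nonneg fun m => norm_nonneg _
  set r : ℝ := min ρ₀ (min 1 (ρ₀ / (4 * (sb + 1)))) with hr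
  have hr0 : 0 < r := by positivity
  have hr1 : r ≤ ρ₀ := min_le_left _ _
  have hr2 : r ≤ 1 := (min_le_right _ _).trans (min_le_left _ _)
  have hr3 : 4 * (sb + 1) * r ≤ ρ₀ := by
    have : r ≤ ρ₀ / (4 * (sb + 1)) := (min_le_right _ _).trans (min_le_right _ _)
    rw [le_div_iff₀ (by positivity)] at this
    linarith
  set Bc : Set ℂ := closedBall c r with hBc
  have hBS : Bc ⊆ S 0 := by
    intro x hx
    rw [hBc, mem_closedBall, dist_eq_norm] at hx
    rw [hS]
    beta_reduce
    rw [mem_preimage, Function.iterate_zero, id_eq, mem_closedBall_zero_iff]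
    calc ‖x‖ = ‖(x - c) + c‖ := by congr 1; ring
      _ ≤ ‖x - c‖ + ‖c‖ := norm_add_le _ _
      _ ≤ 6 := by linarith
  -- the estimate of the other terms
  have hg : ∀ m, ENNReal.ofReal ‖bb d c (m + 1)‖ *
      ∫⁻ w in Bc, ENNReal.ofReal (‖w - (f d c)^[m + 1] c‖⁻¹) ≤
      ENNReal.ofReal (if m < m₀ then ‖bb d c (m + 1)‖ * (4 * r ^ 2 / ρ₀) else
        ‖bb d c (m + 1)‖ * (Ci * r)) := by
    intro m
    split_ifs with hm
    · rw [ENNReal.ofReal_mul (norm_nonneg _)]
      gcongr
      have h1 := Hρ₀ m hm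
      calc ∫⁻ w in Bc, ENNReal.ofReal (‖w - (f d c)^[m + 1] c‖⁻¹)
          ≤ ∫⁻ w in Bc, ENNReal.ofReal (1 / ρ₀) := by
            apply setLIntegral_mono' measurableSet_closedBall
            intro w hw
            rw [mem_closedBall, dist_eq_norm] at hw
            apply ENNReal.ofReal_le_ofReal
            rw [one_div]
            apply inv_anti₀ hρ₀
            have h2 : ‖(f d c)^[m + 1] c - c‖ ≤ ‖w - (f d c)^[m + 1] c‖ + ‖w - c‖ := by
              calc ‖(f d c)^[m + 1] c - c‖ = ‖(w - c) - (w - (f d c)^[m + 1] c)‖ := by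
                    congr 1; ring
                _ ≤ ‖w - c‖ + ‖w - (f d c)^[m + 1] c‖ := norm_sub_le _ _
                _ = _ := add_comm _ _
            linarith
        _ = ENNReal.ofReal (1 / ρ₀) * volume Bc := setLIntegral_const _ _
        _ ≤ ENNReal.ofReal (1 / ρ₀) * ENNReal.ofReal (4 * r ^ 2) := by
            gcongr
            rw [hBc, Complex.volume_closedBall, mul_comm, ENNReal.ofReal_mul (by norm_num),
              ← ENNReal.ofReal_pow hr0.le]
            gcongr
            rw [← ENNReal.ofReal_coe_nnreal, NNReal.coe_real_pi]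
            exact ENNReal.ofReal_le_ofReal Real.pi_le_four
        _ = _ := by
            rw [← ENNReal.ofReal_mul (by positivity)]
            congr 1
            ring
    · rw [ENNReal.ofReal_mul (norm_nonneg _)]
      gcongr
      exact hHCi _ _ _ hr0.le
  have hsum1 : Summable fun m => ‖bb d c (m + 1)‖ := (summable_nat_add_iff 1).mpr hsum
  have hother : ∀ N, ∑ m ∈ Finset.range N, (ENNReal.ofReal ‖bb d c (m + 1)‖ *
      ∫⁻ w in Bc, ENNReal.ofReal (‖w - (f d c)^[m + 1] c‖⁻¹)) ≤ ENNReal.ofReal (2 * r) := by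
    intro N
    have hnn : ∀ m, 0 ≤ (if m < m₀ then ‖bb d c (m + 1)‖ * (4 * r ^ 2 / ρ₀) else
        ‖bb d c (m + 1)‖ * (Ci * r)) := by
      intro m
      split_ifs <;> positivity
    refine (Finset.sum_le_sum fun m _ => hg m).trans ?_
    rw [← ENNReal.ofReal_sum_of_nonneg (fun m _ => hnn m)]
    apply ENNReal.ofReal_le_ofReal
    have h1 : ∑ m ∈ Finset.range N, (if m < m₀ then ‖bb d c (m + 1)‖ * (4 * r ^ 2 / ρ₀) else
        ‖bb d c (m + 1)‖ * (Ci * r)) ≤
        ∑ m ∈ Finset.range (m₀ + N), (if m < m₀ then ‖bb d c (m + 1)‖ * (4 * r ^ 2 / ρ₀) else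
        ‖bb d c (m + 1)‖ * (Ci * r)) :=
      Finset.sum_le_sum_of_subset_of_nonneg (Finset.range_mono (by omega)) fun m _ _ => hnn m
    refine h1.trans ?_
    rw [Finset.sum_range_add]
    have h2 : ∑ m ∈ Finset.range m₀, (if m < m₀ then ‖bb d c (m + 1)‖ * (4 * r ^ 2 / ρ₀) else
        ‖bb d c (m + 1)‖ * (Ci * r)) ≤ r := by
      have h3 : ∑ m ∈ Finset.range m₀, (if m < m₀ then ‖bb d c (m + 1)‖ * (4 * r ^ 2 / ρ₀) else
        ‖bb d c (m + 1)‖ * (Ci * r)) = (∑ m ∈ Finset.range m₀, ‖bb d c (m + 1)‖) *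
          (4 * r ^ 2 / ρ₀) := by
        rw [Finset.sum_mul]
        apply Finset.sum_congr rfl
        intro m hm
        rw [if_pos (Finset.mem_range.mp hm)]
      rw [h3]
      have h4 : ∑ m ∈ Finset.range m₀, ‖bb d c (m + 1)‖ ≤ sb := by
        have h5 := hsum1.sum_le_tsum (Finset.range m₀) (fun m _ => norm_nonneg _)
        refine h5.trans ?_
        rw [hsb, hsum.tsum_eq_zero_add]
        linarith [norm_nonneg (bb d c 0)]
      calc (∑ m ∈ Finset.range m₀, ‖bb d c (m + 1)‖) * (4 * r ^ 2 / ρ₀)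
          ≤ (sb + 1) * (4 * r ^ 2 / ρ₀) := by
            gcongr
            linarith
        _ = (4 * (sb + 1) * r) * r / ρ₀ := by ring
        _ ≤ ρ₀ * r / ρ₀ := by gcongr
        _ = r := by field_simp
    have h3 : ∑ m ∈ Finset.range N, (if m₀ + m < m₀ then
        ‖bb d c (m₀ + m + 1)‖ * (4 * r ^ 2 / ρ₀) else
        ‖bb d c (m₀ + m + 1)‖ * (Ci * r)) ≤ r := by
      have h4 : ∑ m ∈ Finset.range N, (if m₀ + m < m₀ then
          ‖bb d c (m₀ + m + 1)‖ * (4 * r ^ 2 / ρ₀) else
          ‖bb d c (m₀ + m + 1)‖ * (Ci * r)) =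
          (∑ m ∈ Finset.range N, ‖bb d c (m₀ + m + 1)‖) * (Ci * r) := by
        rw [Finset.sum_mul]
        apply Finset.sum_congr rfl
        intro m _
        rw [if_neg (by omega)]
      rw [h4]
      have h5 : ∑ m ∈ Finset.range N, ‖bb d c (m₀ + m + 1)‖ ≤ 1 / Ci := by
        refine le_trans ?_ hm₀
        have h6 : Summable fun m => ‖bb d c (m + m₀)‖ := (summable_nat_add_iff m₀).mpr hsum
        have h7 : ∑ m ∈ Finset.range N, ‖bb d c (m₀ + m + 1)‖ ≤
            ∑ m ∈ Finset.range (N + 1), ‖bb d c (m + m₀)‖ := by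
          rw [Finset.sum_range_succ']
          have h8 : ∀ m, ‖bb d c (m₀ + m + 1)‖ = ‖bb d c (m + 1 + m₀)‖ := fun m => by
            congr 2
            ring
          simp only [h8]
          linarith [norm_nonneg (bb d c (0 + m₀))]
        exact h7.trans (h6.sum_le_tsum _ (fun m _ => norm_nonneg _))
      calc (∑ m ∈ Finset.range N, ‖bb d c (m₀ + m + 1)‖) * (Ci * r) ≤ 1 / Ci * (Ci * r) := by
            gcongr
        _ = r := by field_simp
    linarith
  have hlow : ∀ N, ENNReal.ofReal (3 * r) ≤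
      (∫⁻ w in Bc, ENNReal.ofReal ‖HN d c (N + 1) w‖) + ENNReal.ofReal (2 * r) := by
    intro N
    have h1 : ENNReal.ofReal (3 * r) ≤ ∫⁻ w in Bc, ENNReal.ofReal (‖w - c‖⁻¹) := by
      calc ENNReal.ofReal (3 * r) = ENNReal.ofReal (1 / r) * ENNReal.ofReal (3 * r ^ 2) := by
            rw [← ENNReal.ofReal_mul (by positivity)]
            congr 1
            field_simp
        _ ≤ ENNReal.ofReal (1 / r) * volume Bc := by
            gcongr
            exact Pool.Agent.Y298.SH.CE.vol_ball_ge c hr0.le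
        _ = ∫⁻ w in Bc, ENNReal.ofReal (1 / r) := (setLIntegral_const _ _).symm
        _ ≤ _ := by
            apply lintegral_mono_ae
            have h2 : ∀ᵐ w ∂(volume.restrict Bc), w ≠ c := by
              apply ae_restrict_of_ae
              rw [ae_iff]
              simp
            filter_upwards [h2, ae_restrict_mem measurableSet_closedBall] with w hw hwB
            rw [hBc, mem_closedBall, dist_eq_norm] at hwB
            apply ENNReal.ofReal_le_ofReal
            rw [one_div]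
            exact inv_anti₀ (norm_pos_iff.mpr (sub_ne_zero.mpr hw)) hwB
    have h2 : ∫⁻ w in Bc, ENNReal.ofReal (‖w - c‖⁻¹) ≤
        ∫⁻ w in Bc, (ENNReal.ofReal ‖HN d c (N + 1) w‖ + ∑ m ∈ Finset.range N,
          ENNReal.ofReal ‖bb d c (m + 1)‖ * ENNReal.ofReal (‖w - (f d c)^[m + 1] c‖⁻¹)) := by
      apply lintegral_mono
      intro w
      beta_reduce
      have h3 : (w - c)⁻¹ = HN d c (N + 1) w - ∑ m ∈ Finset.range N,
          bb d c (m + 1) * (w - (f d c)^[m + 1] c)⁻¹ := by
        unfold HN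
        rw [Finset.sum_range_succ', bb_zero, one_mul, Function.iterate_zero, id_eq]
        ring
      have h4 : ‖w - c‖⁻¹ ≤ ‖HN d c (N + 1) w‖ + ∑ m ∈ Finset.range N,
          ‖bb d c (m + 1)‖ * ‖w - (f d c)^[m + 1] c‖⁻¹ := by
        rw [← norm_inv, h3]
        refine (norm_sub_le _ _).trans (add_le_add le_rfl ?_)
        refine (norm_sum_le _ _).trans (le_of_eq ?_)
        apply Finset.sum_congr rfl
        intro m _
        rw [norm_mul, norm_inv]
      refine (ENNReal.ofReal_le_ofReal h4).trans ?_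
      rw [ENNReal.ofReal_add (norm_nonneg _) (Finset.sum_nonneg fun m _ => by positivity),
        ENNReal.ofReal_sum_of_nonneg (fun m _ => by positivity)]
      gcongr with m _
      rw [ENNReal.ofReal_mul (norm_nonneg _)]
    have h3 : ∫⁻ w in Bc, (ENNReal.ofReal ‖HN d c (N + 1) w‖ + ∑ m ∈ Finset.range N,
          ENNReal.ofReal ‖bb d c (m + 1)‖ * ENNReal.ofReal (‖w - (f d c)^[m + 1] c‖⁻¹)) =
        (∫⁻ w in Bc, ENNReal.ofReal ‖HN d c (N + 1) w‖) + ∑ m ∈ Finset.range N,
          (ENNReal.ofReal ‖bb d c (m + 1)‖ *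
            ∫⁻ w in Bc, ENNReal.ofReal (‖w - (f d c)^[m + 1] c‖⁻¹)) := by
      have hmH : Measurable fun w => ENNReal.ofReal ‖HN d c (N + 1) w‖ :=
        ENNReal.measurable_ofReal.comp (measurable_HN d c (N + 1)).norm
      rw [lintegral_add_left hmH,
        lintegral_finsetSum' _ (fun n _ => ((hmk _).const_mul _).aemeasurable)]
      congr 1
      apply Finset.sum_congr rfl
      intro m _
      rw [lintegral_const_mul' _ _ ENNReal.ofReal_ne_top]
    refine h1.trans (h2.trans ?_)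
    rw [h3]
    gcongr
    exact hother N
  -- contradiction
  obtain ⟨N₀, hN₀⟩ := hzero (ENNReal.ofReal (r / 2)) (ENNReal.ofReal_pos.mpr (by positivity)).ne'
  have h1 := hN₀ (N₀ + 1) (by omega)
  have h2 := hlow N₀
  have h3 : ENNReal.ofReal (3 * r) ≤ ENNReal.ofReal (r / 2) + ENNReal.ofReal (2 * r) :=
    h2.trans (add_le_add ((lintegral_mono_set hBS).trans h1) le_rfl)
  rw [← ENNReal.ofReal_add (by positivity) (by positivity),
    ENNReal.ofReal_le_ofReal_iff (by positivity)] at h3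
  linarith

end Pool.Agent.Y298.SH.CD
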