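import Mathlib
import Pool.Agent.Y298.CD.Trn
import Pool.Agent.Y298.SH.Grow

/-!
# Growth of the parameter derivative near Collet-Eckmann parameters
-/

set_option autoImplicit false

open Set Filter Metric MeasureTheory

namespace Pool.Agent.Y298.SH.CD

open Pool.Agent.TH279.MD Pool.Agent.Y298.SH
open Pool.Agent.H712R2 (P)

variable {d : ℕ} {C₁ lam : ℝ} {c₀ : ℂ}

theorem P_succ_eq (hd : 2 ≤ d) (k : ℕ) : P d (k + 1) = fun c => (f d c)^[k] c := by
  funext c
  rw [P_eq, Function.iterate_succ_apply]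
  congr 1
  unfold f
  rw [zero_pow (by omega), zero_add]

theorem CEp.grow (h : CEp d C₁ lam c₀) : ∃ κ ε : ℝ, ∃ J : ℕ, 0 < κ ∧ 0 < ε ∧
    ∀ c₁ : ℂ, CEp d C₁ lam c₁ → ∀ c : ℂ, ‖c - c₀‖ ≤ ε → ∀ k : ℕ, J ≤ k →
      (∀ j ≤ k, Pd d c₁ j / 2 ≤ ‖deriv ((f d c)^[j]) c‖) →
      κ * Pd d c₁ k ≤ ‖deriv (P d (k + 1)) c‖ := by
  have hd := h.hd
  have hl : 1 < lam := h.lam1
  have hl0 : 0 < lam := by linarith
  have hC1 := h.C1
  have hsum := h.summable_bb
  have htr := h.trans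
  set s : ℝ := ‖∑' n, bb d c₀ n‖ with hs
  have hs0 : 0 < s := norm_pos_iff.mpr htr
  set r : ℝ := 1 / lam with hr
  have hr0 : 0 < r := by positivity
  have hr1 : r < 1 := by rw [hr, div_lt_one hl0]; exact hl
  have hgeo : Summable fun n : ℕ => 2 * C₁ * r ^ n :=
    (summable_geometric_of_lt_one hr0.le hr1).mul_left _
  obtain ⟨J, hJ⟩ : ∃ J : ℕ, ∑' j, 2 * C₁ * r ^ (j + J) ≤ s / 4 := by
    have h1 := tendsto_sum_nat_add (fun m => 2 * C₁ * r ^ m)
    obtain ⟨m₀, hm₀⟩ := (h1.eventually (gt_mem_nhds (by positivity : 0 < s / 4))).exists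
    exact ⟨m₀, hm₀.le⟩
  have hgeoJ : Summable fun j : ℕ => 2 * C₁ * r ^ (j + J) := (summable_nat_add_iff J).mpr hgeo
  -- continuity of the partial sum
  have hcont : ContinuousAt (fun c => ∑ n ∈ Finset.range J, bb d c n) c₀ := by
    refine tendsto_finsetSum _ fun n _ => ?_
    have h1 : Continuous fun c : ℂ => deriv ((f d c)^[n]) c :=
      (contDiff_deriv d n).continuous.comp (continuous_id.prodMk continuous_id)
    have h2 : deriv ((f d c₀)^[n]) c₀ ≠ 0 := by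
      have := h.Pd_pos n
      exact norm_pos_iff.mp this
    exact h1.continuousAt.inv₀ h2
  obtain ⟨ε, hε, hclose⟩ := Metric.continuousAt_iff.mp hcont (s / 4) (by positivity)
  -- the partial sum at the centre
  have hc0 : s - s / 4 ≤ ‖∑ n ∈ Finset.range J, bb d c₀ n‖ := by
    have h1 := hsum.of_norm.sum_add_tsum_nat_add J
    have h2 : ‖∑' j, bb d c₀ (j + J)‖ ≤ s / 4 := by
      refine (tsum_of_norm_bounded hgeoJ.hasSum fun j => ?_).trans hJ
      have h3 := h.bb_le (j + J)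
      have h4 : 0 ≤ C₁ * r ^ (j + J) := by positivity
      linarith
    have h3 : s ≤ ‖∑ n ∈ Finset.range J, bb d c₀ n‖ + ‖∑' j, bb d c₀ (j + J)‖ := by
      rw [hs, ← h1]
      exact norm_add_le _ _
    linarith
  refine ⟨s / 8 / 1, ε / 2, J, by positivity, by positivity, ?_⟩
  intro c₁ hc₁ c hc k hJk hder
  have hdist : dist c c₀ < ε := by rw [dist_eq_norm]; linarith
  have h1 := hclose hdist
  rw [dist_eq_norm] at h1
  set S₀ := ∑ n ∈ Finset.range J, bb d c₀ n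
  set S := ∑ n ∈ Finset.range J, bb d c n with hSdef
  have h2 : s / 2 ≤ ‖S‖ := by
    have h3 : ‖S₀‖ ≤ ‖S‖ + ‖S - S₀‖ := by
      calc ‖S₀‖ = ‖S - (S - S₀)‖ := by congr 1; ring
        _ ≤ _ := norm_sub_le _ _
    linarith
  -- the whole sum
  have hbbc : ∀ j ≤ k, ‖bb d c j‖ ≤ 2 * C₁ * r ^ j := by
    intro j hj
    have h3 := hder j hj
    have h4 := hc₁.Pd_pos j
    have h5 := hc₁.bb_le j
    rw [norm_bb] at h5
    rw [norm_bb]
    calc (Pd d c j)⁻¹ ≤ (Pd d c₁ j / 2)⁻¹ := inv_anti₀ (by positivity) h3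
      _ = 2 * (Pd d c₁ j)⁻¹ := by rw [inv_div]; ring
      _ ≤ 2 * (C₁ * (1 / lam) ^ j) := by gcongr
      _ = _ := by rw [← hr]; ring
  have h3 : s / 4 ≤ ‖∑ n ∈ Finset.range (k + 1), bb d c n‖ := by
    obtain ⟨m, hm⟩ : ∃ m, k + 1 = J + m := ⟨k + 1 - J, by omega⟩
    rw [hm, Finset.sum_range_add]
    have h4 : ‖∑ j ∈ Finset.range m, bb d c (J + j)‖ ≤ s / 4 := by
      refine (norm_sum_le _ _).trans ?_
      calc ∑ j ∈ Finset.range m, ‖bb d c (J + j)‖
          ≤ ∑ j ∈ Finset.range m, 2 * C₁ * r ^ (j + J) := by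
            apply Finset.sum_le_sum
            intro j hj
            rw [Finset.mem_range] at hj
            have h5 := hbbc (J + j) (by omega)
            rwa [add_comm J j] at h5 ⊢
        _ ≤ ∑' j, 2 * C₁ * r ^ (j + J) := hgeoJ.sum_le_tsum _ (fun j _ => by positivity)
        _ ≤ s / 4 := hJ
    have h5 : ‖S‖ ≤ ‖S + ∑ j ∈ Finset.range m, bb d c (J + j)‖ +
        ‖∑ j ∈ Finset.range m, bb d c (J + j)‖ := by
      calc ‖S‖ = ‖(S + ∑ j ∈ Finset.range m, bb d c (J + j)) -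
            ∑ j ∈ Finset.range m, bb d c (J + j)‖ := by congr 1; ring
        _ ≤ _ := norm_sub_le _ _
    linarith
  have hne : ∀ j ≤ k, deriv ((f d c)^[j]) c ≠ 0 := by
    intro j hj
    have h4 := hder j hj
    have h5 := hc₁.Pd_pos j
    rw [← norm_pos_iff]
    linarith
  have h4 := (der_sum d hd c k hne).deriv
  rw [P_succ_eq hd, h4, norm_mul]
  have h5 := hder k le_rfl
  have h6 := hc₁.Pd_pos k
  change Pd d c₁ k / 2 ≤ ‖deriv ((f d c)^[k]) c‖ at h5
  calc s / 8 / 1 * Pd d c₁ k = (Pd d c₁ k / 2) * (s / 4) := by ring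
    _ ≤ _ := mul_le_mul h5 h3 (by positivity) (norm_nonneg _)

end Pool.Agent.Y298.SH.CD
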