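import Mathlib
import Pool.Agent.Y298.CD.Spl
import Pool.Agent.Y298.CD.Grw
import Pool.Agent.Y298.CE.Cen

/-!
# Density of hyperbolicity near Collet-Eckmann parameters (all degrees)
-/

set_option autoImplicit false

open Set Filter Metric MeasureTheory

namespace Pool.Agent.Y298.SH.CD

open Pool.Agent.TH279.MD Pool.Agent.Y298.SH
open Pool.Agent.H713R2 Pool.Agent.H712R2 Pool.Agent.H713R2.AR Pool.Agent.H548R3.MB

variable {d : ℕ} {C₁ lam C₂ β : ℝ} {c₀ : ℂ}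

/-- The recurrence condition. -/
def Rec (d : ℕ) (C₂ β : ℝ) (c : ℂ) : Prop := ∀ n, 1 ≤ C₂ * (‖zz d c n‖ * Pd d c n ^ β)

/-- Membership in the class. -/
theorem cep_of_mem (hd : 2 ≤ d) (hC₁ : 1 ≤ C₁) (hlam : 1 < lam)
    (hM : c₀ ∈ N62a1eb23.multibrotSet d)
    (hexp : ∀ n, lam ^ n ≤ C₁ * ‖deriv ((f d c₀)^[n]) c₀‖) : CEp d C₁ lam c₀ := by
  refine ⟨hd, fun j => ?_, hC₁, hlam, hexp⟩
  have h1 := (Pool.Agent.H712R2.mem_multibrot_iff hd c₀).mp hM (j + 1)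
  rw [P_succ_eq hd] at h1
  exact h1

/-- The class of parameters is compact. -/
theorem isCompact_CEp (d : ℕ) (C₁ lam : ℝ) : IsCompact {c₀ : ℂ | CEp d C₁ lam c₀} := by
  by_cases hdM : 2 ≤ d ∧ 1 ≤ C₁ ∧ 1 < lam
  · obtain ⟨hd, hC, hl⟩ := hdM
    have h1 : {c₀ : ℂ | CEp d C₁ lam c₀} = {c₀ : ℂ | (∀ j : ℕ, ‖(f d c₀)^[j] c₀‖ ≤ 2) ∧
        ∀ j : ℕ, lam ^ j ≤ C₁ * ‖deriv ((f d c₀)^[j]) c₀‖} := by
      ext c
      exact ⟨fun h => ⟨h.bd, h.exp⟩, fun h => ⟨hd, h.1, hC, hl, h.2⟩⟩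
    have hc : ∀ j : ℕ, Continuous fun c : ℂ => (f d c)^[j] c := fun j =>
      (contDiff_iter d j).continuous.comp (continuous_id.prodMk continuous_id)
    have hc' : ∀ j : ℕ, Continuous fun c : ℂ => deriv ((f d c)^[j]) c := fun j =>
      (contDiff_deriv d j).continuous.comp (continuous_id.prodMk continuous_id)
    have hcl : IsClosed {c₀ : ℂ | CEp d C₁ lam c₀} := by
      rw [h1, setOf_and, setOf_forall, setOf_forall]
      refine IsClosed.inter (isClosed_iInter fun j => ?_) (isClosed_iInter fun j => ?_)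
      · exact isClosed_le (hc j).norm continuous_const
      · exact isClosed_le continuous_const (continuous_const.mul (hc' j).norm)
    refine (isCompact_closedBall (0 : ℂ) 2).of_isClosed_subset hcl ?_
    intro c hc
    rw [mem_closedBall_zero_iff]
    exact hc.bd 0
  · have h1 : {c₀ : ℂ | CEp d C₁ lam c₀} = ∅ := by
      ext c
      simp only [mem_setOf_eq, mem_empty_iff_false, iff_false]
      exact fun h => hdM ⟨h.hd, h.C1, h.lam1⟩
    rw [h1]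
    exact isCompact_empty

/-- **The main inequality for discs of parameters.** -/
theorem disc_bound : ∃ C : ℝ, 0 < C ∧ ∀ d : ℕ, 2 ≤ d → ∀ γ : ℂ → ℂ,
    DifferentiableOn ℂ γ (ball 0 1) →
    (∀ t ∈ ball (0 : ℂ) 1, γ t ∈ N62a1eb23.multibrotSet d) → ∀ i : ℕ, 1 ≤ i →
    ‖deriv γ 0‖ * ‖deriv (P d i) (γ 0)‖ ≤ C * √(VA d (γ 0)) := by
  obtain ⟨C, hC, H⟩ := vol_sqrt
  refine ⟨C, hC, ?_⟩
  intro d hd γ hγ hγM i hi
  have hpi := Real.pi_gt_three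
  have h1 := gen_ineq hd hγ hγM hi
  have h0 : HasDerivAt γ (deriv γ 0) 0 :=
    (hγ.differentiableAt (ball_mem_nhds 0 one_pos)).hasDerivAt
  have h4 : HasDerivAt (P d i) (deriv (P d i) (γ 0)) (γ 0) :=
    (differentiable_P d i _).hasDerivAt
  have h5 := (h4.comp (0 : ℂ) h0).deriv
  have h6 : (P d i ∘ γ) = fun t => P d i (γ t) := rfl
  rw [h6] at h5
  rw [h5, norm_mul] at h1
  have hc2 : ‖γ 0‖ ≤ 2 := norm_le_two hd (hγM 0 (mem_ball_self one_pos))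
  have hfin : volume (KK d (γ 0)) ≠ ⊤ := (isCompact_KK hd hc2).measure_lt_top.ne
  have h7 := H (P d i (γ 0)) (KK d (γ 0)) (VA d (γ 0)) (isCompact_KK hd hc2).measurableSet
    (VA_nonneg _ _) (by unfold VA; rw [ENNReal.ofReal_toReal hfin])
  have h8 : (volume {u : ℂ | u ^ 2 + P d i (γ 0) ∈ KK d (γ 0)}).toReal ≤ C * √(VA d (γ 0)) :=
    ENNReal.toReal_le_of_le_ofReal (by positivity) h7
  have h9 : 2 / Real.pi ≤ 1 := by rw [div_le_one (by linarith)]; linarith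
  calc ‖deriv γ 0‖ * ‖deriv (P d i) (γ 0)‖ = ‖deriv (P d i) (γ 0)‖ * ‖deriv γ 0‖ := mul_comm _ _
    _ ≤ 2 / Real.pi * (volume {u : ℂ | u ^ 2 + P d i (γ 0) ∈ KK d (γ 0)}).toReal := h1
    _ ≤ 1 * (C * √(VA d (γ 0))) := mul_le_mul h9 h8 ENNReal.toReal_nonneg (by norm_num)
    _ = _ := one_mul _

/-- **The two upper bounds, locally.** -/
theorem CEp.local_upper (h : CEp d C₁ lam c₀) (hC₂ : 0 < C₂) (hβ : 0 ≤ β) {t : ℝ} (ht0 : 0 ≤ t)
    (ht : t * (1 + β) < 1) :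
    ∃ C ε : ℝ, 0 < C ∧ 0 < ε ∧ ∀ c₁ : ℂ, CEp d C₁ lam c₁ → Rec d C₂ β c₁ → ∀ c : ℂ, c ≠ c₁ →
      ‖c‖ ≤ 2 → ‖c - c₁‖ ≤ ε → ‖c - c₀‖ ≤ ε →
      VA d c ≤ C * ‖c - c₁‖ ^ (2 * t / ((d : ℝ) - 1)) ∧
      ∀ γ : ℂ → ℂ, DifferentiableOn ℂ γ (ball 0 1) →
        (∀ t ∈ ball (0 : ℂ) 1, γ t ∈ N62a1eb23.multibrotSet d) → γ 0 = c →
        ‖deriv γ 0‖ ≤ C * ‖c - c₁‖ ^ (d * t / ((d : ℝ) - 1)) := by
  have hd := h.hd
  have hdR : (2 : ℝ) ≤ d := by exact_mod_cast hd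
  have hd1 : 0 < (d : ℝ) - 1 := by linarith
  have hl := h.lam1
  have hl0 : 0 < lam := by linarith
  have hC1 := h.C1
  have hloglam : 0 < Real.log lam := Real.log_pos hl
  have hlog2 : 0 < Real.log 2 := Real.log_pos (by norm_num)
  -- the exponent `ω`
  set ω : ℝ := min (1 / (3 * d)) (min (Real.log 2 / Real.log lam) (1 - t * (1 + β))) with hω
  have hω0 : 0 < ω := by
    refine lt_min (by positivity) (lt_min (by positivity) (by linarith))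
  have hω1 : ω ≤ 1 / (3 * d) := min_le_left _ _
  have hω2 : ω ≤ Real.log 2 / Real.log lam := (min_le_right _ _).trans (min_le_left _ _)
  have hω3 : ω ≤ 1 - t * (1 + β) := (min_le_right _ _).trans (min_le_right _ _)
  set θ : ℝ := lam ^ ω with hθ
  have hθ1 : 1 < θ := Real.one_lt_rpow hl hω0
  have hθ2 : θ ≤ 2 := by
    rw [hθ, Real.rpow_def_of_pos hl0]
    rw [le_div_iff₀ hloglam] at hω2
    calc Real.exp (Real.log lam * ω) ≤ Real.exp (Real.log 2) := Real.exp_le_exp.mpr (by linarith)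
      _ = 2 := Real.exp_log (by norm_num)
  have hθd : θ ^ (3 * d) ≤ lam := by
    rw [hθ, ← Real.rpow_natCast, ← Real.rpow_mul hl0.le]
    have h1 : ω * ((3 * d : ℕ) : ℝ) ≤ 1 := by
      push_cast
      rw [le_div_iff₀ (by positivity)] at hω1
      exact hω1
    calc lam ^ (ω * ((3 * d : ℕ) : ℝ)) ≤ lam ^ (1 : ℝ) :=
          Real.rpow_le_rpow_of_exponent_le hl.le h1
      _ = lam := Real.rpow_one lam
  obtain ⟨B, C, ε, hB, hC, hε, hε1, H⟩ := h.local_area hθ1 hθ2 hθd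
  obtain ⟨κ, εg, J, hκ, hεg, hgrow⟩ := h.grow
  obtain ⟨Cs, hCs, hdisc⟩ := disc_bound
  set q : ℝ := 1 / (1 + β) with hq
  have hβ1 : 0 < 1 + β := by linarith
  have hq0 : 0 < q := by positivity
  set F : ℝ := C₂ * B * (2 * C₁ * lam) ^ ω with hF
  have hB0 : 0 < B := by linarith
  have hC₁0 : 0 < C₁ := by linarith
  have hF0 : 0 < F := by positivity
  set Fq : ℝ := F ^ q with hFq
  have hFq0 : 0 < Fq := by positivity
  -- the threshold for the time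
  set W : ℝ := C₁ * d * B ^ (d - 1) with hW
  have hW0 : 0 < W := by positivity
  have hN1 : (1 : ℝ) ≤ NN d := by
    unfold NN
    have h1 : (1 : ℝ) ≤ 2 ^ (d - 1) := one_le_pow₀ (by norm_num)
    have h2 : (1 : ℝ) ≤ (2 * d) ^ d := one_le_pow₀ (by linarith)
    exact one_le_mul_of_one_le_of_one_le h1 h2
  set e₀ : ℝ := 1 / (2 * W * NN d ^ J) with he₀
  have hNJ : (0 : ℝ) < NN d ^ J := by positivity
  have he₀0 : 0 < e₀ := by positivity
  set m : ℝ := ((d : ℝ) - 1)⁻¹ with hm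
  have hm0 : 0 < m := by positivity
  have hmn : m = (((d - 1 : ℕ) : ℝ))⁻¹ := by
    rw [hm, Nat.cast_sub (by omega), Nat.cast_one]
  set CV : ℝ := C ^ m * Fq ^ (2 * m) with hCV
  set CD : ℝ := Cs * C ^ (m / 2) / κ * Fq ^ (1 + m) with hCD
  have hCV0 : 0 < CV := by positivity
  have hCD0 : 0 < CD := by positivity
  refine ⟨max CV CD, min ε (min εg e₀), lt_max_of_lt_left hCV0, by positivity, ?_⟩
  intro c₁ hc₁ hrec c hcc hc hce hce'
  have hceε : ‖c - c₁‖ ≤ ε := hce.trans (min_le_left _ _)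
  have hceε' : ‖c - c₀‖ ≤ ε := hce'.trans (min_le_left _ _)
  have hceg : ‖c - c₀‖ ≤ εg := hce'.trans ((min_le_right _ _).trans (min_le_left _ _))
  have hce₀ : ‖c - c₁‖ ≤ e₀ := hce.trans ((min_le_right _ _).trans (min_le_right _ _))
  obtain ⟨k, hk1, hk2, hk3, hk4, hk5⟩ := H c₁ hc₁ c hcc hc hceε hceε'
  have he0 : 0 < ‖c - c₁‖ := norm_pos_iff.mpr (sub_ne_zero.mpr hcc)
  set e := ‖c - c₁‖ with he
  set Q := Pd d c₁ k with hQ
  have hQ0 : 0 < Q := hc₁.Pd_pos k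
  have hJk : J ≤ k := by
    by_contra hcon
    rw [not_le] at hcon
    have h1 : NN d ^ k ≤ NN d ^ J := pow_le_pow_right₀ hN1 hcon.le
    have h2 : W * NN d ^ k * e ≤ W * NN d ^ J * e₀ := by gcongr
    have h3 : W * NN d ^ J * e₀ = 1 / 2 := by rw [he₀]; field_simp
    linarith
  have hg := hgrow c₁ hc₁ c hceg k hJk hk4
  -- bound of `θ ^ k`
  have h1 : θ ^ k ≤ (2 * C₁ * lam) ^ ω * e ^ (-ω) := by
    have h2 : θ ^ k = (lam ^ k) ^ ω := by
      rw [hθ, ← Real.rpow_natCast, ← Real.rpow_natCast, ← Real.rpow_mul hl0.le,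
        ← Real.rpow_mul hl0.le, mul_comm]
    have h3 : lam ^ k ≤ 2 * C₁ * lam / e := by rwa [le_div_iff₀ he0]
    rw [h2]
    calc (lam ^ k) ^ ω ≤ (2 * C₁ * lam / e) ^ ω := Real.rpow_le_rpow (by positivity) h3 hω0.le
      _ = _ := by
          rw [Real.div_rpow (by positivity) he0.le, Real.rpow_neg he0.le]
          rfl
  -- bound of `Q`
  have h2 : 1 ≤ F * e ^ (1 - ω) * Q ^ (1 + β) := by
    have h3 := hrec k
    have hPβ : 0 < Q ^ β := Real.rpow_pos_of_pos hQ0 β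
    calc 1 ≤ C₂ * (‖zz d c₁ k‖ * Q ^ β) := h3
      _ ≤ C₂ * ((B * θ ^ k * e * Q) * Q ^ β) := by gcongr
      _ ≤ C₂ * ((B * ((2 * C₁ * lam) ^ ω * e ^ (-ω)) * e * Q) * Q ^ β) := by gcongr
      _ = F * (e ^ (-ω) * e) * (Q * Q ^ β) := by rw [hF]; ring
      _ = _ := by
          rw [Real.rpow_add hQ0, Real.rpow_one, sub_eq_add_neg, Real.rpow_add he0, Real.rpow_one]
          ring
  have h3 : 1 / Q ≤ Fq * e ^ t := by
    have h4 : (1 / Q : ℝ) = (1 / Q ^ (1 + β)) ^ q := by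
      rw [Real.div_rpow zero_le_one (by positivity), Real.one_rpow, ← Real.rpow_mul hQ0.le, hq,
        mul_div_cancel₀ _ hβ1.ne', Real.rpow_one]
    have h5 : (1 / Q : ℝ) ≤ (F * e ^ (1 - ω)) ^ q := by
      rw [h4]
      apply Real.rpow_le_rpow (by positivity) _ hq0.le
      rw [div_le_iff₀ (by positivity)]
      exact h2
    have h6 : (e ^ (1 - ω)) ^ q ≤ e ^ t := by
      rw [← Real.rpow_mul he0.le]
      apply Real.rpow_le_rpow_of_exponent_ge he0 (hceε.trans hε1)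
      rw [hq, mul_one_div, le_div_iff₀ hβ1]
      linarith
    calc (1 / Q : ℝ) ≤ (F * e ^ (1 - ω)) ^ q := h5
      _ = F ^ q * (e ^ (1 - ω)) ^ q := Real.mul_rpow hF0.le (by positivity)
      _ ≤ _ := by gcongr
  have het0 : 0 < e ^ t := Real.rpow_pos_of_pos he0 t
  have hA0 := VA_nonneg d c
  -- the area in terms of `Q`
  have hVA : VA d c ≤ C ^ m * (1 / Q) ^ (2 * m) := by
    have h4 : VA d c = (VA d c ^ (d - 1)) ^ m := by
      rw [hmn]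
      exact (Real.pow_rpow_inv_natCast hA0 (by omega)).symm
    rw [h4]
    calc (VA d c ^ (d - 1)) ^ m ≤ (C / Q ^ 2) ^ m :=
          Real.rpow_le_rpow (by positivity) hk5 hm0.le
      _ = (C * (1 / Q) ^ (2 : ℝ)) ^ m := by
          congr 1
          rw [Real.rpow_two, div_pow, one_pow]
          ring
      _ = _ := by
          rw [Real.mul_rpow hC.le (by positivity), ← Real.rpow_mul (by positivity)]
  refine ⟨?_, ?_⟩
  · calc VA d c ≤ C ^ m * (1 / Q) ^ (2 * m) := hVA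
      _ ≤ C ^ m * (Fq * e ^ t) ^ (2 * m) := by gcongr
      _ = CV * e ^ (2 * t / ((d : ℝ) - 1)) := by
          rw [Real.mul_rpow hFq0.le het0.le, ← Real.rpow_mul he0.le, hCV, hm]
          have : t * (2 * ((d : ℝ) - 1)⁻¹) = 2 * t / ((d : ℝ) - 1) := by
            rw [div_eq_mul_inv]; ring
          rw [this]
          ring
      _ ≤ _ := by
          gcongr
          exact le_max_left _ _
  · intro γ hγ hγM hγc
    have h5 := hdisc d hd γ hγ hγM (k + 1) (by omega)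
    rw [hγc] at h5
    have h6 : √(VA d c) ≤ C ^ (m / 2) * (1 / Q) ^ m := by
      rw [Real.sqrt_eq_rpow]
      calc VA d c ^ (1 / 2 : ℝ) ≤ (C ^ m * (1 / Q) ^ (2 * m)) ^ (1 / 2 : ℝ) :=
            Real.rpow_le_rpow hA0 hVA (by norm_num)
        _ = _ := by
            rw [Real.mul_rpow (by positivity) (by positivity), ← Real.rpow_mul hC.le,
              ← Real.rpow_mul (by positivity)]
            congr 2 <;> ring
    have h7 : ‖deriv γ 0‖ * (κ * Q) ≤ Cs * (C ^ (m / 2) * (1 / Q) ^ m) := by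
      calc ‖deriv γ 0‖ * (κ * Q) ≤ ‖deriv γ 0‖ * ‖deriv (P d (k + 1)) c‖ := by gcongr
        _ ≤ Cs * √(VA d c) := h5
        _ ≤ _ := by gcongr
    have h8 : ‖deriv γ 0‖ ≤ Cs * C ^ (m / 2) / κ * (1 / Q) ^ (1 + m) := by
      rw [Real.rpow_add (by positivity), Real.rpow_one]
      have h9 : ‖deriv γ 0‖ = ‖deriv γ 0‖ * (κ * Q) * (1 / (κ * Q)) := by field_simp
      rw [h9]
      calc ‖deriv γ 0‖ * (κ * Q) * (1 / (κ * Q))
          ≤ Cs * (C ^ (m / 2) * (1 / Q) ^ m) * (1 / (κ * Q)) := by gcongr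
        _ = _ := by field_simp
    calc ‖deriv γ 0‖ ≤ Cs * C ^ (m / 2) / κ * (1 / Q) ^ (1 + m) := h8
      _ ≤ Cs * C ^ (m / 2) / κ * (Fq * e ^ t) ^ (1 + m) := by gcongr
      _ = CD * e ^ (d * t / ((d : ℝ) - 1)) := by
          rw [Real.mul_rpow hFq0.le het0.le, ← Real.rpow_mul he0.le, hCD, hm]
          have : t * (1 + ((d : ℝ) - 1)⁻¹) = d * t / ((d : ℝ) - 1) := by
            field_simp
            ring
          rw [this]
          ring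
      _ ≤ _ := by
          gcongr
          exact le_max_right _ _

/-- derivative bound for discs in the connectedness locus -/
theorem disc_le_four (hd : 2 ≤ d) {γ : ℂ → ℂ} (hγ : DifferentiableOn ℂ γ (ball 0 1))
    (hγM : ∀ t ∈ ball (0 : ℂ) 1, γ t ∈ N62a1eb23.multibrotSet d) : ‖deriv γ 0‖ ≤ 4 := by
  have h2 : ∀ R : ℝ, 0 < R → R < 1 → ‖deriv γ 0‖ ≤ 2 / R := by
    intro R hR0 hR1
    apply Complex.norm_deriv_le_of_forall_mem_sphere_norm_le hR0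
    · apply DifferentiableOn.diffContOnCl
      rw [closure_ball _ hR0.ne']
      exact hγ.mono (closedBall_subset_ball hR1)
    · intro t ht
      exact norm_le_two hd (hγM t (closedBall_subset_ball hR1 (sphere_subset_closedBall ht)))
  have := h2 (1 / 2) (by norm_num) (by norm_num)
  linarith

/-- **The two upper bounds, uniformly.** -/
theorem upper_uniform (hd : 2 ≤ d) (C₁ lam : ℝ) (hC₂ : 0 < C₂) (hβ : 0 ≤ β) {t : ℝ} (ht0 : 0 ≤ t)
    (ht : t * (1 + β) < 1) :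
    ∃ C : ℝ, 0 < C ∧ ∀ c₁ : ℂ, CEp d C₁ lam c₁ → Rec d C₂ β c₁ →
      ∀ c ∈ N62a1eb23.multibrotSet d, c ≠ c₁ →
      VA d c ≤ C * ‖c - c₁‖ ^ (2 * t / ((d : ℝ) - 1)) ∧
      ∀ γ : ℂ → ℂ, DifferentiableOn ℂ γ (ball 0 1) →
        (∀ t ∈ ball (0 : ℂ) 1, γ t ∈ N62a1eb23.multibrotSet d) → γ 0 = c →
        ‖deriv γ 0‖ ≤ C * ‖c - c₁‖ ^ (d * t / ((d : ℝ) - 1)) := by
  have hdR : (2 : ℝ) ≤ d := by exact_mod_cast hd
  have hd1 : 0 < (d : ℝ) - 1 := by linarith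
  set σ : ℝ := 2 * t / ((d : ℝ) - 1) with hσ
  set σ' : ℝ := d * t / ((d : ℝ) - 1) with hσ'
  have hσ0 : 0 ≤ σ := by positivity
  have hσ'0 : 0 ≤ σ' := by positivity
  -- local constants
  have hloc : ∀ c₀ : ℂ, ∃ C ε : ℝ, 0 < C ∧ 0 < ε ∧ (CEp d C₁ lam c₀ → ∀ c₁ : ℂ, CEp d C₁ lam c₁ →
      Rec d C₂ β c₁ → ∀ c : ℂ, c ≠ c₁ → ‖c‖ ≤ 2 → ‖c - c₁‖ ≤ ε → ‖c - c₀‖ ≤ ε →
      VA d c ≤ C * ‖c - c₁‖ ^ σ ∧
      ∀ γ : ℂ → ℂ, DifferentiableOn ℂ γ (ball 0 1) →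
        (∀ t ∈ ball (0 : ℂ) 1, γ t ∈ N62a1eb23.multibrotSet d) → γ 0 = c →
        ‖deriv γ 0‖ ≤ C * ‖c - c₁‖ ^ σ') := by
    intro c₀
    by_cases h : CEp d C₁ lam c₀
    · obtain ⟨C, ε, hC, hε, H⟩ := h.local_upper hC₂ hβ ht0 ht
      exact ⟨C, ε, hC, hε, fun _ => H⟩
    · exact ⟨1, 1, one_pos, one_pos, fun h' => absurd h' h⟩
  choose CC εε hCC hεε H using hloc
  obtain ⟨F, hFS, hF⟩ := (isCompact_CEp d C₁ lam).elim_nhds_subcover
    (fun c₀ => ball c₀ (εε c₀ / 2))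
    (fun c₀ _ => ball_mem_nhds c₀ (by have := hεε c₀; positivity))
  obtain ⟨ε, hε0, hε⟩ : ∃ ε : ℝ, 0 < ε ∧ ∀ c₀ ∈ F, ε ≤ εε c₀ / 2 := by
    by_cases hne : F.Nonempty
    · exact ⟨F.inf' hne (fun c₀ => εε c₀ / 2), (Finset.lt_inf'_iff hne).mpr fun c₀ _ => by
        have := hεε c₀; positivity, fun c₀ hc₀ => Finset.inf'_le _ hc₀⟩
    · rw [Finset.not_nonempty_iff_eq_empty] at hne
      exact ⟨1, one_pos, fun c₀ hc₀ => by rw [hne] at hc₀; simp at hc₀⟩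
  set Cs : ℝ := ∑ c₀ ∈ F, CC c₀ with hCs
  have hCs0 : 0 ≤ Cs := Finset.sum_nonneg fun c₀ _ => (hCC c₀).le
  have hCsle : ∀ c₀ ∈ F, CC c₀ ≤ Cs := fun c₀ hc₀ =>
    Finset.single_le_sum (f := CC) (fun c₀ _ => (hCC c₀).le) hc₀
  set V₀ : ℝ := (volume (closedBall (0 : ℂ) 4)).toReal with hV₀
  have hV₀0 : 0 ≤ V₀ := ENNReal.toReal_nonneg
  have hV₀fin : volume (closedBall (0 : ℂ) 4) ≠ ⊤ := (isCompact_closedBall _ _).measure_lt_top.ne
  have hKsub : ∀ c : ℂ, ‖c‖ ≤ 3 → KK d c ⊆ closedBall 0 4 := by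
    intro c hc
    exact (KK_sub hd hc le_rfl 0).trans (SL_sub hd hc le_rfl 0)
  have hεσ : 0 < ε ^ σ := by positivity
  have hεσ' : 0 < ε ^ σ' := by positivity
  set CF : ℝ := Cs + V₀ / ε ^ σ + 4 / ε ^ σ' + 1 with hCF
  have hCF0 : 0 < CF := by positivity
  refine ⟨CF, hCF0, ?_⟩
  intro c₁ hc₁ hrec c hc hcc
  have hc2 : ‖c‖ ≤ 2 := norm_le_two hd hc
  have hpe : 0 ≤ ‖c - c₁‖ ^ σ := by positivity
  have hpe' : 0 ≤ ‖c - c₁‖ ^ σ' := by positivity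
  have hq1 : 0 ≤ V₀ / ε ^ σ := by positivity
  have hq2 : 0 ≤ 4 / ε ^ σ' := by positivity
  rcases le_or_gt ‖c - c₁‖ ε with hce | hce
  · have h1 := hF hc₁
    rw [mem_iUnion₂] at h1
    obtain ⟨c₀, hc₀t, hc₀⟩ := h1
    rw [mem_ball, dist_eq_norm] at hc₀
    have hεc := hε c₀ hc₀t
    have hpos := hεε c₀
    have e1 : ‖c - c₁‖ ≤ εε c₀ := by linarith
    have e2 : ‖c - c₀‖ ≤ εε c₀ := by
      calc ‖c - c₀‖ = ‖(c - c₁) + (c₁ - c₀)‖ := by congr 1; ring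
        _ ≤ ‖c - c₁‖ + ‖c₁ - c₀‖ := norm_add_le _ _
        _ ≤ εε c₀ := by linarith
    obtain ⟨h2, h3⟩ := H c₀ (hFS c₀ hc₀t) c₁ hc₁ hrec c hcc hc2 e1 e2
    have h4 := hCsle c₀ hc₀t
    have h5 : CC c₀ ≤ CF := by linarith
    refine ⟨h2.trans (mul_le_mul_of_nonneg_right h5 hpe), fun γ h6 h7 h8 =>
      (h3 γ h6 h7 h8).trans (mul_le_mul_of_nonneg_right h5 hpe')⟩
  · refine ⟨?_, ?_⟩
    · have h1 : VA d c ≤ V₀ := ENNReal.toReal_mono hV₀fin (measure_mono (hKsub c (by linarith)))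
      have h2 : ε ^ σ ≤ ‖c - c₁‖ ^ σ := Real.rpow_le_rpow hε0.le hce.le hσ0
      have h3 : V₀ ≤ V₀ / ε ^ σ * ‖c - c₁‖ ^ σ := by
        calc V₀ = V₀ / ε ^ σ * ε ^ σ := by field_simp
          _ ≤ _ := by gcongr
      have h4 : V₀ / ε ^ σ * ‖c - c₁‖ ^ σ ≤ CF * ‖c - c₁‖ ^ σ :=
        mul_le_mul_of_nonneg_right (by linarith) hpe
      linarith
    · intro γ hγ hγM _
      have h1 := disc_le_four hd hγ hγM
      have h2 : ε ^ σ' ≤ ‖c - c₁‖ ^ σ' := Real.rpow_le_rpow hε0.le hce.le hσ'0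
      have h3 : 4 ≤ 4 / ε ^ σ' * ‖c - c₁‖ ^ σ' := by
        calc (4 : ℝ) = 4 / ε ^ σ' * ε ^ σ' := by field_simp
          _ ≤ _ := by gcongr
      have h4 : 4 / ε ^ σ' * ‖c - c₁‖ ^ σ' ≤ CF * ‖c - c₁‖ ^ σ' :=
        mul_le_mul_of_nonneg_right (by linarith) hpe'
      linarith

/-- discs as balls -/
theorem line_disc (c : ℂ) {R : ℝ} (hR : 0 < R) : DifferentiableOn ℂ (fun t : ℂ => c + R * t)
    (ball 0 1) ∧ (∀ t ∈ ball (0 : ℂ) 1, c + R * t ∈ ball c R) ∧ c + (R : ℂ) * 0 = c ∧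
    ‖deriv (fun t : ℂ => c + R * t) 0‖ = R := by
  refine ⟨by fun_prop, fun t ht => ?_, by ring, ?_⟩
  · rw [mem_ball_zero_iff] at ht
    rw [mem_ball, dist_eq_norm, add_sub_cancel_left, norm_mul, Complex.norm_real,
      Real.norm_eq_abs, abs_of_pos hR]
    nlinarith
  · have h4 : HasDerivAt (fun t : ℂ => c + (R : ℂ) * t) R 0 := by
      simpa using ((hasDerivAt_id (0 : ℂ)).const_mul (R : ℂ)).const_add c
    rw [h4.deriv, Complex.norm_real, Real.norm_of_nonneg hR.le]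

/-- **The four upper bounds, uniformly.** -/
theorem upper (hd : 2 ≤ d) (C₁ lam : ℝ) (hC₂ : 0 < C₂) (hβ : 0 ≤ β) {t : ℝ} (ht0 : 0 ≤ t)
    (ht : t * (1 + β) < 1) :
    ∃ C : ℝ, 0 < C ∧ ∀ c₁ : ℂ, CEp d C₁ lam c₁ → Rec d C₂ β c₁ →
      ∀ c ∈ N62a1eb23.multibrotSet d, c ≠ c₁ →
      volume (KK d c) ≤ ENNReal.ofReal (C * ‖c - c₁‖ ^ (2 * t / ((d : ℝ) - 1))) ∧
      (∃ c' : ℂ, ‖c' - c‖ ≤ C * ‖c - c₁‖ ^ (d * t / ((d : ℝ) - 1)) ∧ ∃ p : ℕ, 1 ≤ p ∧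
        (fun z : ℂ => z ^ d + c')^[p] 0 = 0 ∧
        N62a1eb23.IsAttractingCycle (fun z : ℂ => z ^ d + c') p 0) ∧
      (∃ c' : ℂ, ‖c' - c‖ ≤ C * ‖c - c₁‖ ^ (d * t / ((d : ℝ) - 1)) ∧
        c' ∉ N62a1eb23.multibrotSet d) ∧
      (∀ V : Set ℂ, IsOpen V → IsPreconnected V →
        ((∀ c' ∈ V, ¬ ∃ m z, N62a1eb23.IsAttractingCycle (fun z : ℂ => z ^ d + c') m z) ∨
          V ⊆ N62a1eb23.multibrotSet d) →
        ∀ γ : ℂ → ℂ, DifferentiableOn ℂ γ (ball 0 1) → (∀ t ∈ ball (0 : ℂ) 1, γ t ∈ V) →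
          γ 0 = c → ‖deriv γ 0‖ ≤ C * ‖c - c₁‖ ^ (d * t / ((d : ℝ) - 1))) := by
  obtain ⟨C, hC, H⟩ := upper_uniform hd C₁ lam hC₂ hβ ht0 ht
  refine ⟨C + 1, by positivity, ?_⟩
  intro c₁ hc₁ hrec c hc hcc
  obtain ⟨h1, h2⟩ := H c₁ hc₁ hrec c hc hcc
  have he0 : 0 < ‖c - c₁‖ := norm_pos_iff.mpr (sub_ne_zero.mpr hcc)
  set σ : ℝ := 2 * t / ((d : ℝ) - 1) with hσ
  set σ' : ℝ := d * t / ((d : ℝ) - 1) with hσ'
  have hes : 0 < ‖c - c₁‖ ^ σ := Real.rpow_pos_of_pos he0 σ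
  have hes' : 0 < ‖c - c₁‖ ^ σ' := Real.rpow_pos_of_pos he0 σ'
  have hc2 : ‖c‖ ≤ 2 := norm_le_two hd hc
  set R : ℝ := (C + 1) * ‖c - c₁‖ ^ σ' with hR
  have hR0 : 0 < R := by positivity
  have hnot : ¬ ball c R ⊆ N62a1eb23.multibrotSet d := by
    intro hsub
    obtain ⟨g1, g2, g3, g4⟩ := line_disc c hR0
    have h3 := h2 (fun t : ℂ => c + R * t) g1 (fun t ht => hsub (g2 t ht)) g3
    rw [g4, hR] at h3
    nlinarith
  refine ⟨?_, ?_, ?_, ?_⟩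
  · have hfin : volume (KK d c) ≠ ⊤ := (isCompact_KK hd hc2).measure_lt_top.ne
    rw [← ENNReal.ofReal_toReal hfin]
    apply ENNReal.ofReal_le_ofReal
    exact h1.trans (mul_le_mul_of_nonneg_right (by linarith) hes.le)
  · by_contra hcon
    push Not at hcon
    apply hnot
    apply Pool.Agent.Y298.SH.CE.ball_subset_cen hd hR0 hc
    intro c' hc' n hn hPn
    rw [mem_ball, dist_eq_norm] at hc'
    exact hcon c' hc'.le n hn hPn (att_of_centre hd hn hPn)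
  · by_contra hcon
    push Not at hcon
    apply hnot
    intro c' hc'
    rw [mem_ball, dist_eq_norm] at hc'
    exact hcon c' hc'.le
  · intro V hV hVc hno γ hγ hγV hγc
    have hVM : V ⊆ N62a1eb23.multibrotSet d := by
      rcases hno with h | h
      · exact open_subset hd hV hVc (hγV 0 (mem_ball_self one_pos)) (by rw [hγc]; exact hc) h
      · exact h
    have h3 := h2 γ hγ (fun t ht => hVM (hγV t ht)) hγc
    exact h3.trans (mul_le_mul_of_nonneg_right (by linarith) hes'.le)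

/-- Collet-Eckmann parameters satisfy a recurrence condition. -/
theorem CEp.recB (h : CEp d C₁ lam c₀) :
    Rec d ((d * C₁) ^ (((d : ℝ) - 1)⁻¹)) ((1 - Real.log lam / Real.log (2 * d)) / ((d : ℝ) - 1))
      c₀ := by
  intro n
  have hd := h.hd
  have hdR : (2 : ℝ) ≤ d := by exact_mod_cast hd
  have hd1 : 0 < (d : ℝ) - 1 := by linarith
  have hl := h.lam1
  have hl0 : 0 < lam := by linarith
  have hC1 := h.C1
  have hP := h.Pd_pos n
  have h4 : 0 < Real.log (2 * d) := Real.log_pos (by linarith)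
  have hll : 0 < Real.log lam := Real.log_pos hl
  have h1 := h.exp (n + 1)
  rw [Pd_succ] at h1
  set q : ℝ := Real.log lam / Real.log (2 * d) with hq
  have h2 : Pd d c₀ n ^ q ≤ lam ^ n := by
    calc Pd d c₀ n ^ q ≤ ((2 * d : ℝ) ^ n) ^ q :=
          Real.rpow_le_rpow hP.le (h.Pd_le n) (by positivity)
      _ = ((2 * d : ℝ) ^ q) ^ n := by
          rw [← Real.rpow_natCast, ← Real.rpow_natCast, ← Real.rpow_mul (by positivity),
            ← Real.rpow_mul (by positivity), mul_comm q (n : ℝ)]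
      _ = lam ^ n := by
          congr 1
          rw [Real.rpow_def_of_pos (by positivity), hq, mul_div_cancel₀ _ h4.ne',
            Real.exp_log hl0]
  have hPp : 0 < Pd d c₀ n ^ q := Real.rpow_pos_of_pos hP _
  have h3 : 1 ≤ (d * C₁) * (‖zz d c₀ n‖ ^ (d - 1) * Pd d c₀ n ^ (1 - q)) := by
    rw [Real.rpow_sub hP, Real.rpow_one, mul_div_assoc', mul_div_assoc', le_div_iff₀ hPp, one_mul]
    calc Pd d c₀ n ^ q ≤ lam ^ n := h2
      _ ≤ lam ^ (n + 1) := pow_le_pow_right₀ hl.le (by omega)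
      _ ≤ _ := h1
      _ = _ := by ring
  set m : ℝ := ((d : ℝ) - 1)⁻¹ with hm
  have hm0 : 0 < m := by positivity
  have hmn : m = (((d - 1 : ℕ) : ℝ))⁻¹ := by
    rw [hm, Nat.cast_sub (by omega), Nat.cast_one]
  have h5 : (1 : ℝ) ≤ ((d * C₁) * (‖zz d c₀ n‖ ^ (d - 1) * Pd d c₀ n ^ (1 - q))) ^ m :=
    Real.one_le_rpow h3 hm0.le
  have hY0 : 0 ≤ Pd d c₀ n ^ (1 - q) := by positivity
  have hX0 : 0 ≤ ‖zz d c₀ n‖ ^ (d - 1) := by positivity
  rw [Real.mul_rpow (x := d * C₁) (by positivity) (mul_nonneg hX0 hY0),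
    Real.mul_rpow hX0 hY0, ← Real.rpow_mul hP.le] at h5
  have h6 : (‖zz d c₀ n‖ ^ (d - 1)) ^ m = ‖zz d c₀ n‖ := by
    rw [hmn]
    exact Real.pow_rpow_inv_natCast (norm_nonneg _) (by omega)
  rw [h6] at h5
  rw [div_eq_mul_inv]
  exact h5

/-- nonempty classes have `lam ≤ 2 d` -/
theorem CEp.lam_le (h : CEp d C₁ lam c₀) : lam ≤ 2 * d := by
  have hd := h.hd
  have hdR : (2 : ℝ) ≤ d := by exact_mod_cast hd
  by_contra hcon
  rw [not_le] at hcon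
  have h1 : 1 < lam / (2 * d) := by rw [lt_div_iff₀ (by positivity)]; linarith
  obtain ⟨n, hn⟩ := pow_unbounded_of_one_lt C₁ h1
  have h2 := h.exp n
  have h3 := h.Pd_le n
  have hC1 := h.C1
  rw [div_pow, lt_div_iff₀ (by positivity)] at hn
  have h4 : C₁ * Pd d c₀ n ≤ C₁ * (2 * d) ^ n := by gcongr
  linarith

end Pool.Agent.Y298.SH.CD
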